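import Mathlib
import Pool.Agent.Lib.MP_8b8716_co_HN.Basic

set_option autoImplicit false

/-!
# MP_8b8716_co, project QG: definitions

The chromatic number of `F ^ 2` for the real algebraic fields `F` with conditions on the residue
fields of the nonsplit places. Here `E = L(i)` for a real number field `L`.
-/

noncomputable section

namespace Pool.Agent.MP_8b8716_co_QG

open Complex MeasureTheory Filter Topology Set
open NumberField
open Pool.Agent.MP_8b8716_co_HN

/-- subfields of `ℂ` closed under the complex conjugation -/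
class Cj (E : Subfield ℂ) : Prop where
  mem : ∀ z ∈ E, (starRingEnd ℂ) z ∈ E

/-- the complex conjugation of `E` -/
def cj (E : Subfield ℂ) [Cj E] : E →+* E :=
  ((starRingEnd ℂ).comp E.subtype).codRestrict E.toSubring fun z => Cj.mem z z.2

/-- the complex conjugation on the ring of integers of `E` -/
def cO (E : Subfield ℂ) [Cj E] : 𝓞 E →+* 𝓞 E := RingOfIntegers.mapRingHom (cj E)

/-- the inclusion of the ring of integers -/
def io (E : Subfield ℂ) : 𝓞 E →+* E := algebraMap (𝓞 E) E

/-- the maximal ideals of `𝓞 E` which are stable under the complex conjugation -/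
def Stab (E : Subfield ℂ) [Cj E] (P : Ideal (𝓞 E)) : Prop :=
  P.IsMaximal ∧ ∀ a ∈ P, cO E a ∈ P

/-- the algebraic integers which are units at the stable maximal ideals -/
def SS (E : Subfield ℂ) [Cj E] : Submonoid (𝓞 E) where
  carrier := {s | ∀ P, Stab E P → s ∉ P}
  mul_mem' := by
    intro a b ha hb P hP hab
    rcases hP.1.isPrime.mem_or_mem hab with h | h
    · exact ha P hP h
    · exact hb P hP h
  one_mem' := by
    intro P hP h
    exact hP.1.ne_top ((Ideal.eq_top_iff_one P).2 h)

/-- the numbers which are integral at the stable maximal ideals -/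
def RR (E : Subfield ℂ) [Cj E] : Subring E where
  carrier := {r | ∃ s ∈ SS E, ∃ a : 𝓞 E, io E s * r = io E a}
  mul_mem' := by
    rintro x y ⟨s, hs, a, h⟩ ⟨t, ht, b, h'⟩
    refine ⟨s * t, (SS E).mul_mem hs ht, a * b, ?_⟩
    rw [map_mul, map_mul, ← h, ← h']
    ring
  one_mem' := ⟨1, (SS E).one_mem, 1, by simp⟩
  add_mem' := by
    rintro x y ⟨s, hs, a, h⟩ ⟨t, ht, b, h'⟩
    refine ⟨s * t, (SS E).mul_mem hs ht, t * a + s * b, ?_⟩
    rw [map_mul, map_add, map_mul, map_mul, ← h, ← h']
    ring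
  zero_mem' := ⟨1, (SS E).one_mem, 0, by simp⟩
  neg_mem' := by
    rintro x ⟨s, hs, a, h⟩
    refine ⟨s, hs, -a, ?_⟩
    rw [map_neg, ← h]
    ring

/-! ### Elementary facts on the conjugation -/

section conj

variable (E : Subfield ℂ) [Cj E]

theorem coe_cj (z : E) : ((cj E z : E) : ℂ) = (starRingEnd ℂ) z := rfl

theorem cj_cj (z : E) : cj E (cj E z) = z := by
  apply Subtype.ext
  rw [coe_cj, coe_cj, Complex.conj_conj]

theorem io_cO (a : 𝓞 E) : io E (cO E a) = cj E (io E a) := rfl

omit [Cj E] in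
theorem io_injective : Function.Injective (io E) := RingOfIntegers.coe_injective

theorem cO_cO (a : 𝓞 E) : cO E (cO E a) = a := by
  apply io_injective
  rw [io_cO, io_cO, cj_cj]

theorem cO_mem_SS {s : 𝓞 E} (hs : s ∈ SS E) : cO E s ∈ SS E := by
  intro P hP h
  have h1 := hP.2 _ h
  rw [cO_cO] at h1
  exact hs P hP h1

theorem cj_mem_RR {r : E} (hr : r ∈ RR E) : cj E r ∈ RR E := by
  obtain ⟨s, hs, a, h⟩ := hr
  exact ⟨cO E s, cO_mem_SS E hs, cO E a, by rw [io_cO, io_cO, ← map_mul, h]⟩

/-- the conjugation on `RR E` -/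
def cR : RR E →+* RR E :=
  ((cj E).comp (RR E).subtype).codRestrict (RR E) fun r => cj_mem_RR E r.2

/-- the inclusion of the ring of integers in `RR E` -/
def iR : 𝓞 E →+* RR E :=
  (io E).codRestrict (RR E) fun a => ⟨1, (SS E).one_mem, a, by rw [map_one, one_mul]⟩

/-- the finite ring `RR E / m` -/
abbrev AM (m : ℕ) := RR E ⧸ Ideal.span {((m : ℕ) : RR E)}

/-- the class modulo `m` -/
def cl (m : ℕ) : RR E →+* AM E m := Ideal.Quotient.mk _

/-- the conjugation of `RR E / m` -/
def barA (m : ℕ) : AM E m →+* AM E m :=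
  Ideal.quotientMap (Ideal.span {((m : ℕ) : RR E)}) (cR E) (by
    rw [Ideal.span_singleton_le_iff_mem, Ideal.mem_comap, map_natCast]
    exact Ideal.mem_span_singleton_self _)

/-- the condition on the stable places: they are unramified over the real subfield, and the
residue field of the place below has `q` elements for some `q` in `Q` -/
def BB (Q : Set ℕ) : Prop := ∀ P : Ideal (𝓞 E), Stab E P →
  (∃ q ∈ Q, Nat.card (𝓞 E ⧸ P) = q ^ 2) ∧ ∃ a : 𝓞 E, cO E a - a ∉ P

end conj

/-! ### The mixing inequality -/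

/-- the spectral gap `lam` for the finite fields with `q ^ 2` elements, `q` in `Q` -/
def GapAt (Q : Set ℕ) (lam : ℝ) : Prop :=
  0 ≤ lam ∧ ∀ (K : Type) [Field K] [Fintype K] [DecidableEq K] (bar : K →+* K),
    (∀ a, bar (bar a) = a) → (∃ a, bar a ≠ a) → (∃ q ∈ Q, Fintype.card K = q ^ 2) →
    ∀ U : Finset K, (∀ u, u ∈ U ↔ u * bar u = 1) →
      2 ≤ lam * U.card ∧ ∀ χ : AddChar K ℂ, χ ≠ 1 → ‖∑ u ∈ U, χ u‖ ≤ lam * U.card

/-- the quadratic form of the mixing inequality -/
def FF (lam a b : ℝ) : ℝ := a * b - lam / 2 * (a * (1 - a) + b * (1 - b))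

/-- the mean value of `f` -/
def mean {A : Type*} [Fintype A] (f : A → ℝ) : ℝ := (∑ h, f h) / Fintype.card A

/-- the mean value of `f (h + u) g h` over all `h` and all `u` in `U` -/
def cross {A : Type*} [Fintype A] [Add A] (U : Finset A) (f g : A → ℝ) : ℝ :=
  (∑ h, ∑ u ∈ U, f (h + u) * g h) / (Fintype.card A * U.card)

/-! ### Coordinates with respect to an integral basis -/

section coord

variable (E : Subfield ℂ) [NumberField E]

/-- the index set of the integral basis -/
abbrev Ix := Module.Free.ChooseBasisIndex ℤ (𝓞 E)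

/-- the integral basis -/
def om (j : Ix E) : E := integralBasis E j

/-- the coordinates -/
def co (z : E) (j : Ix E) : ℚ := (integralBasis E).repr z j

/-- a norm which controls all archimedean places -/
def nrm (z : E) : ℝ := ∑ j, |(co E z j : ℝ)|

/-- the characters of `E` which are continuous for the archimedean topology -/
def et (t : Ix E → ℝ) (z : E) : Circle :=
  Circle.exp (2 * Real.pi * ∑ j, t j * (co E z j : ℝ))

/-- the points of a small box in `m RR` -/
def bx (m N : ℕ) (p : Ix E → ℕ) : E := (m : E) * (∑ j, (p j : E) * om E j) / 5 ^ N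

/-- the indices of the box -/
def sq (N : ℕ) : Finset (Ix E → ℕ) := Fintype.piFinset fun _ => Finset.range (N + 1)

/-- the average of `x` over the small box -/
def av (m N : ℕ) (x : E → Circle) : ℂ :=
  ((N + 1 : ℂ) ^ Fintype.card (Ix E))⁻¹ * ∑ p ∈ sq E N, (x (bx E m N p) : ℂ)

/-- the average of the indicator function of the colour `i` over the small box -/
def Av {k : ℕ} (m N : ℕ) (i : Fin k) (ω : E → Fin k) : ℝ :=
  ((N + 1 : ℝ) ^ Fintype.card (Ix E))⁻¹ * ∑ p ∈ sq E N, ind i (shift (bx E m N p) ω)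

variable [Cj E]

/-- the functions which are, on `m RR`, continuous characters -/
def SM (m : ℕ) : Set (E → Circle) :=
  {x | ∃ t : Ix E → ℝ, ∀ r ∈ RR E, x ((m : E) * r) = et E t ((m : E) * r)}

/-- the properties of the spectral measures of the invariant random colourings -/
structure Nice (Om : Set (E → Circle)) (σ : Measure (E → Circle)) : Prop where
  fin : IsFiniteMeasure σ
  meas : MeasurableSet Om
  chr : ∀ᵐ x ∂σ, IsChar x
  str : ∀ᵐ x ∂σ, x ∈ Om → ∃ m : ℕ, 0 < m ∧ x ∈ SM E m
  zero : ∀ u : E, u ≠ 0 → ∫ x in Omᶜ, (x u : ℂ) ∂σ = 0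

/-- a random colouring of `E` together with its spectral measures -/
structure Spec (Om : Set (E → Circle)) (k : ℕ) (μ : Measure (E → Fin k))
    (σ : Fin k → Measure (E → Circle)) : Prop where
  col : RandCol E k μ
  nice : ∀ i, Nice E Om (σ i)
  corr : ∀ (i : Fin k) (u : E),
    ((∫ ω, ind i (shift u ω) * ind i ω ∂μ : ℝ) : ℂ) = ∫ x, (x u : ℂ) ∂(σ i)

/-- `G` is the limit of the averages `Av m N i` -/
structure Lim {k : ℕ} (μ : Measure (E → Fin k)) (m : ℕ) (i : Fin k) (G : (E → Fin k) → ℝ) :
    Prop where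
  meas : Measurable G
  nonneg : ∀ ω, 0 ≤ G ω
  le_one : ∀ ω, G ω ≤ 1
  lim : Tendsto (fun N => ∫ ω, (Av E m N i ω - G ω) ^ 2 ∂μ) atTop (𝓝 0)

end coord

/-- the conditions on the maximal ideals of the ring of integers `O` of a real field: `O` contains
`a`, `b` with `a ^ 2 + 1 = 4 b`, and every maximal ideal with a finite residue field whose number
of elements is not in `Q` is split -/
def Cond (Q : Set ℕ) (O : Type*) [CommRing O] : Prop :=
  (∃ a b : O, a ^ 2 + 1 = 4 * b) ∧ ∀ P : Ideal O, P.IsMaximal → Finite (O ⧸ P) →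
    Nat.card (O ⧸ P) ∉ Q → ∃ a s : O, s ∉ P ∧ ∃ b ∈ P, s * (a ^ 2 + 1) = 4 * b

/-! ### Lines and modules -/

/-- the characters all of whose lines are in `AA` -/
def OM {E : Subfield ℂ} (hE : KG ≤ E) : Set (E → Circle) := {x | ∀ z : E, line hE z x ∈ AA}

/-- the numbers `z` such that `x` is a continuous character on all the lines `z a`, `a` integral -/
def NX {E : Subfield ℂ} (hE : KG ≤ E) (x : E → Circle) : Set E :=
  {z | ∀ a : 𝓞 E, ∃ ξ : ℂ, ∀ k : ℕ, ∀ w ∈ Lt 1 k, line hE (z * io E a) x w = el ξ w}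

end Pool.Agent.MP_8b8716_co_QG
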