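import Pool.Agent.Lib.MP_8b8716_co_QG.GRR

set_option autoImplicit false

/-!
# MP_8b8716_co, project QG, module GAM: the finite rings `RR / m`
-/

noncomputable section

namespace Pool.Agent.MP_8b8716_co_QG

open Complex
open NumberField
open Pool.Agent.MP_8b8716_co_HN

section

variable {E : Subfield ℂ} [NumberField E] [Cj E]

theorem cl_eq_iff {m : ℕ} (r r' : RR E) :
    cl E m r = cl E m r' ↔ ∃ v ∈ RR E, (r : E) - r' = m * v := by
  unfold cl
  rw [Ideal.Quotient.eq, Ideal.mem_span_singleton']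
  constructor
  · rintro ⟨a, ha⟩
    refine ⟨a, a.2, ?_⟩
    have h := congrArg (fun x : RR E => (x : E)) ha
    simp only [Subring.coe_mul, AddSubgroupClass.coe_sub, Subring.coe_natCast] at h
    rw [← h, mul_comm]
  · rintro ⟨v, hv, h⟩
    refine ⟨⟨v, hv⟩, ?_⟩
    apply Subtype.ext
    simp only [Subring.coe_mul, AddSubgroupClass.coe_sub, Subring.coe_natCast]
    rw [h, mul_comm]

theorem AM_surj {m : ℕ} (hm : 0 < m) (h : AM E m) : ∃ a : 𝓞 E, cl E m (iR E a) = h := by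
  obtain ⟨r, rfl⟩ := Ideal.Quotient.mk_surjective h
  obtain ⟨s, hs, a, hsa⟩ := r.2
  obtain ⟨s', α, h1, r', hr', h2⟩ := coprime_SS hm hs
  refine ⟨s' * a, ?_⟩
  have h3 : cl E m r = cl E m (iR E (s' * a)) := by
    rw [cl_eq_iff]
    refine ⟨(r : E) * r', (RR E).mul_mem r.2 hr', ?_⟩
    have h4 : ((iR E (s' * a) : RR E) : E) = io E s' * io E a := by
      rw [← map_mul]
      rfl
    have h5 : io E s * io E s' + io E α = 1 := by
      rw [← map_mul, ← map_add, h1, map_one]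
    rw [h4, ← hsa]
    have h6 : io E α = 1 - io E s * io E s' := by rw [← h5]; ring
    calc (r : E) - io E s' * (io E s * r) = r * (1 - io E s * io E s') := by ring
      _ = r * (m * r') := by rw [← h6, h2]
      _ = m * (r * r') := by ring
  exact h3.symm

/-- the homomorphism from the ring of integers -/
def GAM.ff (E : Subfield ℂ) [Cj E] (m : ℕ) : 𝓞 E →+* AM E m := (cl E m).comp (iR E)

theorem GAM.ff_apply {m : ℕ} (a : 𝓞 E) : GAM.ff E m a = cl E m (iR E a) := rfl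

theorem GAM.ff_surj {m : ℕ} (hm : 0 < m) : Function.Surjective (GAM.ff E m) := fun h => AM_surj hm h

theorem GAM.cl_m {m : ℕ} (r : RR E) : cl E m ((m : RR E) * r) = 0 := by
  unfold cl
  rw [Ideal.Quotient.eq_zero_iff_mem]
  exact Ideal.mul_mem_right _ _ (Ideal.mem_span_singleton_self _)

theorem GAM.ff_eq_zero {m : ℕ} {a : 𝓞 E} (h : ∃ r ∈ RR E, io E a = m * r) : GAM.ff E m a = 0 := by
  obtain ⟨r, hr, h⟩ := h
  rw [GAM.ff_apply]
  have h1 : iR E a = (m : RR E) * ⟨r, hr⟩ := by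
    apply Subtype.ext
    rw [Subring.coe_mul, Subring.coe_natCast]
    exact h
  rw [h1]
  exact GAM.cl_m _

theorem GAM.ff_m {m : ℕ} : GAM.ff E m (m : 𝓞 E) = 0 :=
  GAM.ff_eq_zero ⟨1, (RR E).one_mem, by rw [map_natCast, mul_one]⟩

theorem AM_finite {m : ℕ} (hm : 0 < m) : Finite (AM E m) := by
  have hne : Ideal.span {(m : 𝓞 E)} ≠ ⊥ := by
    rw [Ne, Ideal.span_singleton_eq_bot]
    exact_mod_cast hm.ne'
  have hfin : Finite (𝓞 E ⧸ Ideal.span {(m : 𝓞 E)}) := Ideal.finiteQuotientOfFreeOfNeBot _ hne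
  have hk : ∀ a ∈ Ideal.span {(m : 𝓞 E)}, GAM.ff E m a = 0 := by
    intro a ha
    obtain ⟨b, rfl⟩ := Ideal.mem_span_singleton'.1 ha
    rw [map_mul, GAM.ff_m, mul_zero]
  refine Finite.of_surjective (Ideal.Quotient.lift _ (GAM.ff E m) hk) ?_
  intro h
  obtain ⟨a, ha⟩ := GAM.ff_surj hm h
  exact ⟨Ideal.Quotient.mk _ a, by rw [Ideal.Quotient.lift_mk]; exact ha⟩

theorem barA_cl {m : ℕ} (r : RR E) : barA E m (cl E m r) = cl E m (cR E r) :=
  Ideal.quotientMap_mk

theorem barA_barA {m : ℕ} (h : AM E m) : barA E m (barA E m h) = h := by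
  obtain ⟨r, rfl⟩ := Ideal.Quotient.mk_surjective h
  change barA E m (barA E m (cl E m r)) = cl E m r
  rw [barA_cl, barA_cl]
  congr 1
  apply Subtype.ext
  exact cj_cj E (r : E)

theorem GAM.barA_ff {m : ℕ} (a : 𝓞 E) : barA E m (GAM.ff E m a) = GAM.ff E m (cO E a) := by
  rw [GAM.ff_apply, barA_cl, GAM.ff_apply]
  rfl

/-- ideals all of whose maximal overideals are stable are stable -/
theorem GAM.stable (J : Ideal (𝓞 E)) (hJ : J ≠ ⊥)
    (h : ∀ P : Ideal (𝓞 E), P.IsMaximal → J ≤ P → Stab E P) : Ideal.map (cO E) J ≤ J := by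
  have hs : ∀ s : Multiset (Ideal (𝓞 E)), (∀ P ∈ s, Ideal.map (cO E) P ≤ P) →
      Ideal.map (cO E) s.prod ≤ s.prod := by
    intro s
    induction s using Multiset.induction_on with
    | empty =>
      intro _
      rw [Multiset.prod_zero, Ideal.one_eq_top]
      exact le_top
    | cons P s ih =>
      intro hs
      rw [Multiset.prod_cons, Ideal.map_mul]
      exact Ideal.mul_mono (hs P (Multiset.mem_cons_self _ _))
        (ih fun Q hQ => hs Q (Multiset.mem_cons_of_mem hQ))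
  have hprod : (UniqueFactorizationMonoid.normalizedFactors J).prod = J :=
    Ideal.prod_normalizedFactors_eq_self hJ
  have h1 := hs (UniqueFactorizationMonoid.normalizedFactors J) (by
    intro P hP
    have hprime := UniqueFactorizationMonoid.prime_of_normalized_factor P hP
    have hPp : P.IsPrime := Ideal.isPrime_of_prime hprime
    have hPm : P.IsMaximal := hPp.isMaximal hprime.ne_zero
    have hJP : J ≤ P := Ideal.le_of_dvd (UniqueFactorizationMonoid.dvd_of_mem_normalizedFactors hP)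
    rw [Ideal.map_le_iff_le_comap]
    exact fun a ha => (h P hPm hJP).2 a ha)
  rwa [hprod] at h1

theorem AM_hid {m : ℕ} (hm : 0 < m) (I : Ideal (AM E m)) (a : AM E m) (ha : a ∈ I) :
    barA E m a ∈ I := by
  set J : Ideal (𝓞 E) := I.comap (GAM.ff E m) with hJ
  have hmJ : (m : 𝓞 E) ∈ J := by
    rw [hJ, Ideal.mem_comap, GAM.ff_m]
    exact I.zero_mem
  have hJ0 : J ≠ ⊥ := by
    intro h
    rw [h, Ideal.mem_bot] at hmJ
    exact hm.ne' (by exact_mod_cast hmJ)
  have hst := GAM.stable J hJ0 (fun P hP hJP => stab_of_le hm P hP fun a ha => hJP (by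
    rw [hJ, Ideal.mem_comap, GAM.ff_eq_zero ha]
    exact I.zero_mem))
  obtain ⟨o, rfl⟩ := GAM.ff_surj hm a
  rw [GAM.barA_ff]
  have ho : o ∈ J := ha
  exact hst (Ideal.mem_map_of_mem _ ho)

theorem AM_max {Q : Set ℕ} (hB : BB E Q) {m : ℕ} (hm : 0 < m) (M : Ideal (AM E m))
    (hM : M.IsMaximal) :
    (∃ a, barA E m a - a ∉ M) ∧ ∃ q ∈ Q, Nat.card (AM E m ⧸ M) = q ^ 2 := by
  set P : Ideal (𝓞 E) := M.comap (GAM.ff E m) with hP
  have hPm : P.IsMaximal := Ideal.comap_isMaximal_of_surjective _ (GAM.ff_surj hm)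
  have hSt : Stab E P := stab_of_le hm P hPm fun a ha => by
    rw [hP, Ideal.mem_comap, GAM.ff_eq_zero ha]
    exact M.zero_mem
  obtain ⟨⟨q, hq, hc⟩, a, ha⟩ := hB P hSt
  refine ⟨⟨GAM.ff E m a, ?_⟩, q, hq, ?_⟩
  · rw [GAM.barA_ff, ← map_sub]
    exact ha
  · rw [← hc]
    apply Nat.card_congr
    refine (Equiv.ofBijective (Ideal.quotientMap M (GAM.ff E m) (le_refl P)) ⟨?_, ?_⟩).symm
    · exact Ideal.quotientMap_injective
    · exact Ideal.quotientMap_surjective (GAM.ff_surj hm)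

theorem exists_pow_five (hI : I ∈ E) {m : ℕ} (hm : 0 < m) :
    ∃ e : ℕ, 0 < e ∧ ∃ r ∈ RR E, (5 : E) ^ e - 1 = m * r := by
  have hfin : Finite (AM E m) := AM_finite hm
  have h5 : (5 : E) * (5 : E)⁻¹ = 1 := mul_inv_cancel₀ (by norm_num)
  have h6 : (5 : RR E) * ⟨(5 : E)⁻¹, five_inv_mem_RR hI⟩ = 1 := by
    apply Subtype.ext
    rw [Subring.coe_mul]
    exact h5
  have h7 : cl E m 5 * cl E m ⟨(5 : E)⁻¹, five_inv_mem_RR hI⟩ = 1 := by
    rw [← map_mul, h6, map_one]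
  set u : (AM E m)ˣ := Units.mkOfMulEqOne _ _ h7 with hu
  refine ⟨Nat.card (AM E m)ˣ, Nat.card_pos, ?_⟩
  have h8 : u ^ Nat.card (AM E m)ˣ = 1 := pow_card_eq_one'
  have h9 : cl E m (5 ^ Nat.card (AM E m)ˣ) = cl E m 1 := by
    rw [map_pow, map_one]
    exact congrArg Units.val h8
  rw [cl_eq_iff] at h9
  obtain ⟨v, hv, h10⟩ := h9
  refine ⟨v, hv, ?_⟩
  rw [← h10, Subring.coe_pow]
  rfl

end

end Pool.Agent.MP_8b8716_co_QG
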