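import Mathlib
import Pool.Agent.Lib.MP_8b8716_co_HN.Basic
import Pool.Agent.Lib.MP_8b8716_co_QG.Defs

set_option autoImplicit false
set_option linter.unusedSectionVars false

/-!
# MP_8b8716_co, project QG: coordinates with respect to an integral basis
-/

noncomputable section

namespace Pool.Agent.MP_8b8716_co_QG

open Complex MeasureTheory Filter Topology Set
open NumberField
open Pool.Agent.MP_8b8716_co_HN

section
variable {E : Subfield ℂ} [NumberField E] [Cj E]

theorem co_add (z w : E) (j : Ix E) : co E (z + w) j = co E z j + co E w j := by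
  unfold co
  rw [map_add, Finsupp.add_apply]

theorem co_smul (q : ℚ) (z : E) (j : Ix E) : co E ((q : E) * z) j = q * co E z j := by
  unfold co
  have h : (q : E) * z = q • z := by
    rw [Algebra.smul_def]
    rfl
  rw [h, map_smul, Finsupp.smul_apply, smul_eq_mul]

theorem sum_co (z : E) : ∑ j, (co E z j : E) * om E j = z := by
  have h := (integralBasis E).sum_repr z
  conv_rhs => rw [← h]
  refine Finset.sum_congr rfl fun j _ => ?_
  rw [Algebra.smul_def]
  rfl

theorem co_om (i j : Ix E) : co E (om E i) j = if i = j then 1 else 0 := by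
  unfold co om
  rw [Module.Basis.repr_self, Finsupp.single_apply]

theorem om_int (j : Ix E) : ∃ a : 𝓞 E, io E a = om E j :=
  ⟨RingOfIntegers.basis E j, (integralBasis_apply E j).symm⟩

theorem int_co (a : 𝓞 E) (j : Ix E) : ∃ n : ℤ, co E (io E a) j = n := by
  refine ⟨(RingOfIntegers.basis E).repr a j, ?_⟩
  unfold co io
  rw [integralBasis_repr_apply]
  rfl

theorem nrm_nonneg (z : E) : 0 ≤ nrm E z := Finset.sum_nonneg fun _ _ => abs_nonneg _

theorem nrm_add_le (z w : E) : nrm E (z + w) ≤ nrm E z + nrm E w := by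
  unfold nrm
  rw [← Finset.sum_add_distrib]
  refine Finset.sum_le_sum fun j _ => ?_
  rw [co_add]
  push_cast
  exact abs_add_le _ _

theorem nrm_smul (q : ℚ) (z : E) : nrm E ((q : E) * z) = |(q : ℝ)| * nrm E z := by
  unfold nrm
  rw [Finset.mul_sum]
  refine Finset.sum_congr rfl fun j _ => ?_
  rw [co_smul]
  push_cast
  exact abs_mul _ _

theorem nrm_neg (z : E) : nrm E (-z) = nrm E z := by
  have h := nrm_smul (E := E) (-1) z
  have h1 : ((-1 : ℚ) : E) * z = -z := by push_cast; ring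
  rw [h1] at h
  rw [h]
  norm_num

theorem GCo.nrm_zero : nrm E (0 : E) = 0 := by
  have h := nrm_smul (E := E) 0 0
  simpa using h

theorem GCo.nrm_sum_le {ι : Type*} (s : Finset ι) (f : ι → E) :
    nrm E (∑ i ∈ s, f i) ≤ ∑ i ∈ s, nrm E (f i) := by
  classical
  induction s using Finset.induction_on with
  | empty => simp [GCo.nrm_zero]
  | insert a s ha ih =>
    rw [Finset.sum_insert ha, Finset.sum_insert ha]
    exact (nrm_add_le _ _).trans (by linarith)

theorem GCo.co_zero (j : Ix E) : co E 0 j = 0 := by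
  have h := co_smul (E := E) 0 0 j
  simpa using h

theorem GCo.co_sum {ι : Type*} (s : Finset ι) (f : ι → E) (j : Ix E) :
    co E (∑ i ∈ s, f i) j = ∑ i ∈ s, co E (f i) j := by
  classical
  induction s using Finset.induction_on with
  | empty => simp [GCo.co_zero]
  | insert a s ha ih =>
    rw [Finset.sum_insert ha, Finset.sum_insert ha, co_add, ih]

theorem GCo.co_comb (f : Ix E → ℚ) (j : Ix E) :
    co E (∑ i, (f i : E) * om E i) j = f j := by
  rw [GCo.co_sum]
  have h : ∀ i, co E ((f i : E) * om E i) j = if i = j then f i else 0 := by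
    intro i
    rw [co_smul, co_om]
    split_ifs <;> simp
  rw [Finset.sum_congr rfl fun i _ => h i]
  simp

theorem GCo.nrm_mul_le (y z : E) : nrm E (y * z) ≤ (∑ j, nrm E (y * om E j)) * nrm E z := by
  have h1 : y * z = ∑ j, ((co E z j : ℚ) : E) * (y * om E j) := by
    conv_lhs => rw [← sum_co z]
    rw [Finset.mul_sum]
    refine Finset.sum_congr rfl fun j _ => ?_
    ring
  calc nrm E (y * z) ≤ ∑ j, nrm E (((co E z j : ℚ) : E) * (y * om E j)) := by
        rw [h1]
        exact GCo.nrm_sum_le _ _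
    _ = ∑ j, |(co E z j : ℝ)| * nrm E (y * om E j) :=
        Finset.sum_congr rfl fun j _ => nrm_smul _ _
    _ ≤ ∑ j, |(co E z j : ℝ)| * ∑ i, nrm E (y * om E i) := by
        refine Finset.sum_le_sum fun j _ => mul_le_mul_of_nonneg_left ?_ (abs_nonneg _)
        exact Finset.single_le_sum (f := fun i => nrm E (y * om E i))
          (fun i _ => nrm_nonneg _) (Finset.mem_univ j)
    _ = _ := by
        rw [← Finset.sum_mul, mul_comm]
        rfl

theorem isChar_et (t : Ix E → ℝ) : IsChar (et E t) := by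
  intro z w
  unfold et
  rw [← Circle.exp_add, ← mul_add, ← Finset.sum_add_distrib]
  congr 2
  refine Finset.sum_congr rfl fun j _ => ?_
  rw [co_add]
  push_cast
  ring

theorem norm_et_sub_one_le (t : Ix E → ℝ) : ∃ C : ℝ, 0 ≤ C ∧ ∀ z : E,
    ‖(et E t z : ℂ) - 1‖ ≤ C * nrm E z := by
  refine ⟨2 * Real.pi * ∑ j, |t j|, by positivity, fun z => ?_⟩
  unfold et
  rw [Circle.coe_exp]
  have h1 : ‖Complex.exp (((2 * Real.pi * ∑ j, t j * (co E z j : ℝ) : ℝ) : ℂ) * I) - 1‖ ≤
      ‖2 * Real.pi * ∑ j, t j * (co E z j : ℝ)‖ := by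
    have := Real.norm_exp_I_mul_ofReal_sub_one_le (x := 2 * Real.pi * ∑ j, t j * (co E z j : ℝ))
    rwa [mul_comm I] at this
  refine h1.trans ?_
  have hpi : (0 : ℝ) ≤ 2 * Real.pi := by positivity
  rw [norm_mul, Real.norm_of_nonneg hpi, mul_assoc (2 * Real.pi)]
  refine mul_le_mul_of_nonneg_left ?_ hpi
  calc ‖∑ j, t j * (co E z j : ℝ)‖ ≤ ∑ j, ‖t j * (co E z j : ℝ)‖ := norm_sum_le _ _
    _ = ∑ j, |t j| * |(co E z j : ℝ)| :=
        Finset.sum_congr rfl fun j _ => by rw [norm_mul, Real.norm_eq_abs, Real.norm_eq_abs]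
    _ ≤ ∑ j, |t j| * nrm E z := by
        refine Finset.sum_le_sum fun j _ => mul_le_mul_of_nonneg_left ?_ (abs_nonneg _)
        exact Finset.single_le_sum (f := fun i => |(co E z i : ℝ)|)
          (fun i _ => abs_nonneg _) (Finset.mem_univ j)
    _ = _ := by rw [Finset.sum_mul]

theorem GCo.et_om (t : Ix E → ℝ) (m N : ℕ) (j : Ix E) :
    et E t (m * om E j / 5 ^ N) = Circle.exp (2 * Real.pi * (t j * ((m : ℝ) / 5 ^ N))) := by
  unfold et
  congr 2
  have h : ∀ i, co E (m * om E j / 5 ^ N) i = if j = i then (m : ℚ) / 5 ^ N else 0 := by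
    intro i
    have h1 : (m * om E j / 5 ^ N : E) = (((m : ℚ) / 5 ^ N : ℚ) : E) * om E j := by
      push_cast
      ring
    rw [h1, co_smul, co_om]
    split_ifs <;> simp
  have h2 : ∀ i, t i * ((co E (m * om E j / 5 ^ N) i : ℚ) : ℝ) =
      if j = i then t i * ((m : ℝ) / 5 ^ N) else 0 := by
    intro i
    rw [h]
    split_ifs <;> simp
  rw [Finset.sum_congr rfl fun i _ => h2 i]
  simp

theorem et_unique {m : ℕ} (hm : 0 < m) {t t' : Ix E → ℝ}
    (h : ∀ (N : ℕ) (j : Ix E), et E t (m * om E j / 5 ^ N) = et E t' (m * om E j / 5 ^ N)) :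
    t = t' := by
  funext j
  have hlim : Tendsto (fun N : ℕ => |(t j - t' j) * (m : ℝ)| * (1 / 5 : ℝ) ^ N) atTop (𝓝 0) := by
    have := (tendsto_pow_atTop_nhds_zero_of_lt_one (r := (1 / 5 : ℝ)) (by norm_num)
      (by norm_num)).const_mul (|(t j - t' j) * (m : ℝ)|)
    simpa using this
  obtain ⟨N, hN⟩ := (hlim.eventually (gt_mem_nhds zero_lt_one)).exists
  have h1 := h N j
  rw [GCo.et_om, GCo.et_om, Circle.exp_eq_exp] at h1
  obtain ⟨n, hn⟩ := h1
  have h2 : (t j - t' j) * ((m : ℝ) / 5 ^ N) = n := by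
    have h3 : (2 * Real.pi : ℝ) ≠ 0 := by positivity
    have h4 : 2 * Real.pi * ((t j - t' j) * ((m : ℝ) / 5 ^ N) - n) = 0 := by
      linear_combination hn
    rcases mul_eq_zero.1 h4 with h5 | h5
    · exact absurd h5 h3
    · linarith
  have h3 : |(n : ℝ)| < 1 := by
    rw [← h2]
    calc |(t j - t' j) * ((m : ℝ) / 5 ^ N)| = |(t j - t' j) * (m : ℝ)| * (1 / 5 : ℝ) ^ N := by
          rw [← mul_div_assoc, abs_div, abs_of_pos (by positivity : (0 : ℝ) < 5 ^ N)]
          rw [one_div, inv_pow]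
          rfl
      _ < 1 := hN
  have h4 : n = 0 := by
    have h5 : |n| < 1 := by exact_mod_cast h3
    exact Int.abs_lt_one_iff.1 h5
  rw [h4, Int.cast_zero] at h2
  have h5 : (0 : ℝ) < (m : ℝ) / 5 ^ N := by
    have : (0 : ℝ) < m := by exact_mod_cast hm
    positivity
  rcases mul_eq_zero.1 h2 with h6 | h6
  · linarith
  · exact absurd h6 h5.ne'

theorem isClosed_et (S : Set E) (C : ℝ) : IsClosed {x : E → Circle | ∃ t : Ix E → ℝ,
    (∀ j, |t j| ≤ C) ∧ ∀ z ∈ S, x z = et E t z} := by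
  have hK : IsCompact (Set.pi Set.univ fun _ : Ix E => Set.Icc (-C) C) :=
    isCompact_univ_pi fun _ => isCompact_Icc
  have : CompactSpace (Set.pi Set.univ fun _ : Ix E => Set.Icc (-C) C) :=
    isCompact_iff_compactSpace.1 hK
  have h1 : {x : E → Circle | ∃ t : Ix E → ℝ, (∀ j, |t j| ≤ C) ∧ ∀ z ∈ S, x z = et E t z} =
      Prod.fst '' {p : (E → Circle) × (Set.pi Set.univ fun _ : Ix E => Set.Icc (-C) C) |
        ∀ z ∈ S, p.1 z = et E p.2 z} := by
    ext x
    constructor
    · rintro ⟨t, h1, h2⟩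
      exact ⟨(x, ⟨t, fun j _ => ⟨(abs_le.1 (h1 j)).1, (abs_le.1 (h1 j)).2⟩⟩), h2, rfl⟩
    · rintro ⟨⟨x', t, ht⟩, h2, rfl⟩
      exact ⟨t, fun j => abs_le.2 ⟨(ht j trivial).1, (ht j trivial).2⟩, h2⟩
  rw [h1]
  refine isClosedMap_fst_of_compactSpace _ ?_
  have h2 : {p : (E → Circle) × (Set.pi Set.univ fun _ : Ix E => Set.Icc (-C) C) |
      ∀ z ∈ S, p.1 z = et E p.2 z} = ⋂ z ∈ S, {p | p.1 z = et E p.2 z} := by
    ext p
    simp
  rw [h2]
  refine isClosed_biInter fun z _ => isClosed_eq ?_ ?_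
  · exact (continuous_apply z).comp continuous_fst
  · unfold et
    refine Circle.exp.continuous.comp (continuous_const.mul (continuous_finsetSum _ fun j _ => ?_))
    exact ((continuous_apply j).comp (continuous_subtype_val.comp continuous_snd)).mul
      continuous_const

theorem nrm_le_of_KG (hI : I ∈ E) : ∃ C : ℝ, 0 < C ∧ ∀ z : E, (z : ℂ) ∈ KG →
    nrm E z ≤ C * ‖(z : ℂ)‖ := by
  refine ⟨nrm E 1 + nrm E ⟨I, hI⟩ + 1, ?_, fun z hz => ?_⟩
  · have h1 := nrm_nonneg (E := E) 1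
    have h2 := nrm_nonneg (E := E) ⟨I, hI⟩
    linarith
  obtain ⟨a, b, hab⟩ := hz
  have h1 : z = (a : E) * 1 + (b : E) * ⟨I, hI⟩ := by
    apply Subtype.ext
    rw [hab]
    push_cast
    ring
  have h2 : |(a : ℝ)| ≤ ‖(z : ℂ)‖ := by
    have := abs_re_le_norm (z : ℂ)
    rw [hab] at this ⊢
    simpa using this
  have h3 : |(b : ℝ)| ≤ ‖(z : ℂ)‖ := by
    have := abs_im_le_norm (z : ℂ)
    rw [hab] at this ⊢
    simpa using this
  have h4 : nrm E z ≤ |(a : ℝ)| * nrm E 1 + |(b : ℝ)| * nrm E ⟨I, hI⟩ := by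
    rw [← nrm_smul, ← nrm_smul]
    conv_lhs => rw [h1]
    exact nrm_add_le _ _
  have h5 := nrm_nonneg (E := E) 1
  have h6 := nrm_nonneg (E := E) ⟨I, hI⟩
  have h7 := mul_le_mul_of_nonneg_right h2 h5
  have h8 := mul_le_mul_of_nonneg_right h3 h6
  have h9 := norm_nonneg (z : ℂ)
  nlinarith

theorem inv_tendsto (y d : E) : Tendsto (fun n : ℕ => nrm E (d * (y + n)⁻¹)) atTop (𝓝 0) := by
  set C : ℝ := ∑ j, nrm E (y * om E j) with hC
  have hlim : Tendsto (fun n : ℕ => nrm E d / ((n : ℝ) - C)) atTop (𝓝 0) := by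
    refine Tendsto.div_atTop tendsto_const_nhds ?_
    exact tendsto_atTop_add_const_right _ (-C) tendsto_natCast_atTop_atTop
  refine squeeze_zero' (Eventually.of_forall fun n => nrm_nonneg _) ?_ hlim
  filter_upwards [eventually_gt_atTop ⌈C⌉₊] with n hn
  have hn' : C < n := (Nat.le_ceil C).trans_lt (by exact_mod_cast hn)
  rw [le_div_iff₀ (by linarith)]
  by_cases h0 : y + (n : E) = 0
  · rw [h0, inv_zero, mul_zero, GCo.nrm_zero, zero_mul]
    exact nrm_nonneg _
  set z : E := d * (y + n)⁻¹ with hz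
  have h1 : (y + (n : E)) * z = d := by
    rw [hz]
    field_simp
  have h2 : (n : ℝ) * nrm E z = nrm E (((n : ℚ) : E) * z) := by
    rw [nrm_smul]
    simp
  have h3 : ((n : ℚ) : E) * z = d + -(y * z) := by
    rw [← h1]
    push_cast
    ring
  have h4 : nrm E (((n : ℚ) : E) * z) ≤ nrm E d + C * nrm E z := by
    rw [h3]
    refine (nrm_add_le _ _).trans ?_
    rw [nrm_neg]
    have := GCo.nrm_mul_le y z
    linarith
  nlinarith

theorem GCo.co_bx (m N : ℕ) (p : Ix E → ℕ) (j : Ix E) :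
    co E (bx E m N p) j = (m : ℚ) * p j / 5 ^ N := by
  have h1 : bx E m N p = (((m : ℚ) / 5 ^ N : ℚ) : E) * ∑ i, (((p i : ℚ)) : E) * om E i := by
    unfold bx
    push_cast
    ring
  rw [h1, co_smul, GCo.co_comb (fun i => (p i : ℚ)) j]
  ring

theorem norm_bx_le (m N : ℕ) {p : Ix E → ℕ} (hp : p ∈ sq E N) :
    nrm E (bx E m N p) ≤ m * Fintype.card (Ix E) * N / 5 ^ N := by
  have hp' : ∀ j, p j ≤ N := by
    intro j
    have := (Fintype.mem_piFinset.1 hp) j
    exact Nat.lt_succ_iff.1 (Finset.mem_range.1 this)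
  unfold nrm
  calc ∑ j, |((co E (bx E m N p) j : ℚ) : ℝ)| ≤ ∑ _j : Ix E, (m : ℝ) * N / 5 ^ N := by
        refine Finset.sum_le_sum fun j _ => ?_
        rw [GCo.co_bx]
        push_cast
        rw [abs_of_nonneg (by positivity)]
        have : (p j : ℝ) ≤ N := by exact_mod_cast hp' j
        gcongr
    _ = _ := by
        rw [Finset.sum_const, Finset.card_univ, nsmul_eq_mul]
        ring

theorem bx_injective {m : ℕ} (hm : 0 < m) (N : ℕ) : Function.Injective (bx E m N) := by
  intro p q h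
  funext j
  have h1 : co E (bx E m N p) j = co E (bx E m N q) j := by rw [h]
  rw [GCo.co_bx, GCo.co_bx] at h1
  have hm' : (m : ℚ) ≠ 0 := by exact_mod_cast hm.ne'
  have h5 : ((5 : ℚ) ^ N) ≠ 0 := by positivity
  have h2 : (p j : ℚ) = q j := by
    rw [div_left_inj' h5] at h1
    exact mul_left_cancel₀ hm' h1
  exact_mod_cast h2

end

end Pool.Agent.MP_8b8716_co_QG
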