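import Mathlib

set_option autoImplicit false

/-!
# MP_8b8716_co, project QG: the unit of Hilbert 90 in a finite ring
-/

namespace Pool.Agent.MP_8b8716_co_QG

theorem hil_unit {A : Type*} [CommRing A] [Finite A] (bar : A →+* A) (hbar : ∀ a, bar (bar a) = a)
    (hst : ∀ M : Ideal A, M.IsMaximal → ∀ a ∈ M, bar a ∈ M)
    (hne : ∀ M : Ideal A, M.IsMaximal → ∃ a, bar a - a ∉ M) (u : A) :
    ∃ v : A, IsUnit (v + u * bar v) := by
  classical
  have _ := hbar
  have hloc : ∀ M : Ideal A, M.IsMaximal → ∃ v, v + u * bar v ∉ M := by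
    intro M hM
    by_cases h : (1 : A) + u ∈ M
    · obtain ⟨a, ha⟩ := hne M hM
      refine ⟨a, fun h2 => ha ?_⟩
      have h3 : bar a - a = (1 + u) * bar a - (a + u * bar a) := by ring
      rw [h3]
      exact M.sub_mem (M.mul_mem_right _ h) h2
    · refine ⟨1, ?_⟩
      rwa [map_one, mul_one]
  let I := {M : Ideal A // M.IsMaximal}
  have : Finite (Ideal A) := Finite.of_injective (fun J : Ideal A => (J : Set A))
    SetLike.coe_injective
  have : Finite I := inferInstance
  have : Fintype I := Fintype.ofFinite I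
  choose w hw using hloc
  have hcop : Pairwise fun i j : I => IsCoprime (i : Ideal A) (j : Ideal A) := by
    intro i j hij
    rw [Ideal.isCoprime_iff_sup_eq]
    exact Ideal.IsMaximal.coprime_of_ne i.2 j.2 (fun h => hij (Subtype.ext h))
  obtain ⟨v, hv⟩ := Ideal.exists_forall_sub_mem_ideal (I := fun i : I => (i : Ideal A))
    (fun i j hij => hcop hij) (fun i => w i.1 i.2)
  refine ⟨v, ?_⟩
  by_contra hnu
  obtain ⟨M, hM, hmem⟩ := exists_max_ideal_of_mem_nonunits (mem_nonunits_iff.2 hnu)
  have h1 : v - w M hM ∈ M := hv ⟨M, hM⟩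
  have h2 := hst M hM _ h1
  rw [map_sub] at h2
  apply hw M hM
  have h3 : w M hM + u * bar (w M hM) =
      (v + u * bar v) - (v - w M hM) - u * (bar v - bar (w M hM)) := by ring
  rw [h3]
  exact M.sub_mem (M.sub_mem hmem h1) (M.mul_mem_left _ h2)

end Pool.Agent.MP_8b8716_co_QG
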