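import Mathlib
import Pool.Agent.Lib.MP_8b8716_co_QG.Defs

set_option autoImplicit false

/-!
# MP_8b8716_co, project QG, module GRR: the ring `RR`
-/

noncomputable section

namespace Pool.Agent.MP_8b8716_co_QG

open Complex MeasureTheory Filter Topology Set
open NumberField IsDedekindDomain
open Pool.Agent.MP_8b8716_co_HN

section
variable {E : Subfield ℂ} [NumberField E] [Cj E]

theorem exists_mem_SS (I : Ideal (𝓞 E)) (h : ∀ P, Stab E P → ¬ I ≤ P) : ∃ s ∈ I, s ∈ SS E := by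
  by_cases hI : I = ⊥
  · refine ⟨0, I.zero_mem, fun P hP _ => h P hP ?_⟩
    rw [hI]
    exact bot_le
  · have hI' : I ∈ nonZeroDivisors (Ideal (𝓞 E)) := mem_nonZeroDivisors_of_ne_zero hI
    set n := Fintype.card (ClassGroup (𝓞 E)) with hn
    have hn0 : n ≠ 0 := Fintype.card_ne_zero
    have h1 : ClassGroup.mk0 ((⟨I, hI'⟩ : nonZeroDivisors (Ideal (𝓞 E))) ^ n) = 1 := by
      rw [map_pow]
      exact pow_card_eq_one
    have h2 : (I ^ n).IsPrincipal := (ClassGroup.mk0_eq_one_iff _).1 h1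
    obtain ⟨s, hs⟩ := h2.principal
    have hs1 : s ∈ I ^ n := by
      rw [hs]
      exact Submodule.mem_span_singleton_self s
    refine ⟨s, Ideal.pow_le_self hn0 hs1, fun P hP hsP => h P hP ?_⟩
    have hle : I ^ n ≤ P := by
      rw [hs]
      exact (Ideal.span_singleton_le_iff_mem P).2 hsP
    exact hP.1.isPrime.le_of_pow_le hle

theorem exists_denom (P : Ideal (𝓞 E)) (hP : P.IsMaximal) (hP' : ¬ Stab E P) :
    ∃ s ∈ P, s ∈ SS E := by
  refine exists_mem_SS P fun P' hP'' hle => ?_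
  have h1 : P = P' := hP.eq_of_le hP''.1.ne_top hle
  exact hP' (h1 ▸ hP'')

theorem norm_one_mem_RR {c : E} (hc : ‖(c : ℂ)‖ = 1) : c ∈ RR E := by
  -- the ideal of denominators
  let d : Ideal (𝓞 E) :=
    { carrier := {s | ∃ t : 𝓞 E, io E s * c = io E t}
      add_mem' := by
        rintro x y ⟨t, ht⟩ ⟨t', ht'⟩
        exact ⟨t + t', by rw [map_add, map_add, add_mul, ht, ht']⟩
      zero_mem' := ⟨0, by simp⟩
      smul_mem' := by
        rintro x y ⟨t, ht⟩
        exact ⟨x * t, by rw [smul_eq_mul, map_mul, map_mul, mul_assoc, ht]⟩ }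
  have hcc : c * cj E c = 1 := by
    apply Subtype.ext
    rw [Subfield.coe_mul, coe_cj, Complex.mul_conj, Complex.normSq_eq_norm_sq, hc]
    norm_num
  have hd : ∀ P, Stab E P → ¬ d ≤ P := by
    intro P hP hle
    have hP0 : P ≠ ⊥ :=
      Ring.ne_bot_of_isMaximal_of_not_isField hP.1 (RingOfIntegers.not_isField E)
    let v : HeightOneSpectrum (𝓞 E) := ⟨P, hP.1.isPrime, hP0⟩
    obtain ⟨n, s, h1⟩ := v.exists_primeCompl_mul_eq_or_mul_eq (K := E) c
    have hs : (s : 𝓞 E) ∉ P := s.2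
    rcases h1 with h1 | h1
    · exact hs (hle ⟨n, by rw [mul_comm]; exact h1⟩)
    · -- `c n = s`
      have h2 : io E s * cj E c = io E n := by
        have h3 : c * io E n = io E s := h1
        rw [← h3]
        linear_combination (io E n) * hcc
      have h4 := congrArg (cj E) h2
      rw [map_mul, cj_cj, ← io_cO, ← io_cO] at h4
      have h5 : cO E s ∈ P := hle ⟨_, h4⟩
      have h6 := hP.2 _ h5
      rw [cO_cO] at h6
      exact hs h6
  obtain ⟨s, ⟨t, ht⟩, hs⟩ := exists_mem_SS d hd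
  exact ⟨s, hs, t, ht⟩

theorem five_inv_mem_RR (hI : I ∈ E) : (5 : E)⁻¹ ∈ RR E := by
  have hint : IsIntegral ℤ (⟨I, hI⟩ : E) := by
    refine ⟨Polynomial.X ^ 2 + 1, ?_, ?_⟩
    · exact Polynomial.monic_X_pow_add_C (1 : ℤ) two_ne_zero
    · simp only [Polynomial.eval₂_add, Polynomial.eval₂_pow, Polynomial.eval₂_X,
        Polynomial.eval₂_one]
      apply Subtype.ext
      simp
  set j : 𝓞 E := ⟨⟨I, hI⟩, hint⟩ with hj
  have hj2 : (2 + j) * (2 - j) = 5 := by
    apply io_injective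
    have h1 : io E j = ⟨I, hI⟩ := rfl
    have h2 : (⟨I, hI⟩ : E) ^ 2 = -1 := Subtype.ext (by simp)
    simp only [map_mul, map_add, map_sub, h1, map_ofNat]
    linear_combination -h2
  have hcj : cO E j = -j := by
    apply io_injective
    apply Subtype.ext
    rw [io_cO, coe_cj, map_neg]
    have h1 : io E j = ⟨I, hI⟩ := rfl
    rw [h1]
    simp
  have h5 : (5 : 𝓞 E) ∈ SS E := by
    intro P hP h
    have hboth : 2 + j ∈ P ∧ 2 - j ∈ P := by
      rw [← hj2] at h
      rcases hP.1.isPrime.mem_or_mem h with h1 | h1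
      · refine ⟨h1, ?_⟩
        have h2 := hP.2 _ h1
        rwa [map_add, map_ofNat, hcj, ← sub_eq_add_neg] at h2
      · refine ⟨?_, h1⟩
        have h2 := hP.2 _ h1
        rwa [map_sub, map_ofNat, hcj, sub_neg_eq_add] at h2
    have h4 : (4 : 𝓞 E) ∈ P := by
      have := P.add_mem hboth.1 hboth.2
      have e : (2 + j) + (2 - j) = 4 := by ring
      rwa [e] at this
    have h5' : (5 : 𝓞 E) ∈ P := by rw [← hj2]; exact P.mul_mem_right _ hboth.1
    have h1 : (1 : 𝓞 E) ∈ P := by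
      have := P.sub_mem h5' h4
      have e : (5 : 𝓞 E) - 4 = 1 := by ring
      rwa [e] at this
    exact hP.1.ne_top ((Ideal.eq_top_iff_one P).2 h1)
  refine ⟨5, h5, 1, ?_⟩
  rw [map_ofNat, map_one]
  exact mul_inv_cancel₀ (by norm_num)

theorem stab_of_le {m : ℕ} (hm : 0 < m) (P : Ideal (𝓞 E)) (hP : P.IsMaximal)
    (h : ∀ a : 𝓞 E, (∃ r ∈ RR E, io E a = m * r) → a ∈ P) : Stab E P := by
  by_contra hst
  have hm0 : (m : E) ≠ 0 := by exact_mod_cast hm.ne'
  obtain ⟨s, hsP, hs⟩ := exists_denom P hP hst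
  by_cases hs0 : s = 0
  · have h1 : (1 : 𝓞 E) ∈ P := by
      refine h 1 ⟨(m : E)⁻¹, ⟨s, hs, 0, by rw [hs0]; simp⟩, ?_⟩
      rw [map_one, mul_inv_cancel₀ hm0]
    exact hP.ne_top ((Ideal.eq_top_iff_one P).2 h1)
  · have hP0 : P ≠ ⊥ :=
      Ring.ne_bot_of_isMaximal_of_not_isField hP (RingOfIntegers.not_isField E)
    have hPp : Prime P := Ideal.prime_of_isPrime hP0 hP.isPrime
    have hm1 : Ideal.span {(m : 𝓞 E)} ≠ 0 := by
      rw [Ne, Ideal.zero_eq_bot, Ideal.span_singleton_eq_bot]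
      exact_mod_cast hm.ne'
    obtain ⟨j, J, hJ, hmJ⟩ := WfDvdMonoid.max_power_factor hm1 hPp.irreducible
    rw [Ideal.dvd_iff_le] at hJ
    obtain ⟨b, hbJ, hbP⟩ := SetLike.not_le_iff_exists.1 hJ
    have h1 : s ^ j * b ∈ Ideal.span {(m : 𝓞 E)} := by
      rw [hmJ]
      exact Ideal.mul_mem_mul (Ideal.pow_mem_pow hsP j) hbJ
    obtain ⟨c, hc⟩ := Ideal.mem_span_singleton'.1 h1
    have hs1 : io E (s ^ j) ≠ 0 := by
      intro h2
      have h3 : s ^ j = 0 := by
        apply io_injective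
        rw [h2, map_zero]
      exact pow_ne_zero j hs0 h3
    refine hbP (h b ⟨io E c / io E (s ^ j), ⟨s ^ j, (SS E).pow_mem hs j, c, ?_⟩, ?_⟩)
    · field_simp
    · have h2 := congrArg (io E) hc
      rw [map_mul, map_mul, map_natCast] at h2
      rw [mul_div_assoc', eq_div_iff hs1]
      linear_combination -h2

theorem coprime_SS {m : ℕ} (hm : 0 < m) {s : 𝓞 E} (hs : s ∈ SS E) :
    ∃ s' a : 𝓞 E, s * s' + a = 1 ∧ ∃ r ∈ RR E, io E a = m * r := by
  let J : Ideal (𝓞 E) :=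
    { carrier := {a | ∃ r ∈ RR E, io E a = m * r}
      add_mem' := by
        rintro x y ⟨r, hr, h⟩ ⟨r', hr', h'⟩
        exact ⟨r + r', (RR E).add_mem hr hr', by rw [map_add, h, h', mul_add]⟩
      zero_mem' := ⟨0, (RR E).zero_mem, by simp⟩
      smul_mem' := by
        rintro x y ⟨r, hr, h⟩
        exact ⟨io E x * r, (RR E).mul_mem (iR E x).2 hr, by
          rw [smul_eq_mul, map_mul, h]; ring⟩ }
  have htop : Ideal.span {s} ⊔ J = ⊤ := by
    by_contra hne
    obtain ⟨P, hP, hle⟩ := Ideal.exists_le_maximal _ hne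
    have hst : Stab E P := stab_of_le hm P hP fun a ha =>
      hle (Ideal.mem_sup_right (show a ∈ J from ha))
    exact hs P hst (hle (Ideal.mem_sup_left (Ideal.mem_span_singleton_self s)))
  have h1 : (1 : 𝓞 E) ∈ Ideal.span {s} ⊔ J := by
    rw [htop]
    trivial
  obtain ⟨x, hx, a, ha, hxa⟩ := Submodule.mem_sup.1 h1
  obtain ⟨s', hs'⟩ := Ideal.mem_span_singleton.1 hx
  exact ⟨s', a, by rw [← hs']; exact hxa, ha⟩

end

end Pool.Agent.MP_8b8716_co_QG
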