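import Mathlib
import Pool.Agent.Lib.MP_8b8716_co_HN.Basic
import Pool.Agent.Lib.MP_8b8716_co_QG.Defs
import Pool.Agent.Lib.MP_8b8716_co_QG.GHil
import Pool.Agent.Lib.MP_8b8716_co_QG.GRR
import Pool.Agent.Lib.MP_8b8716_co_QG.GAM
import Pool.Agent.Lib.MP_8b8716_co_QG.GCo

set_option autoImplicit false
set_option linter.unusedSectionVars false

/-!
# MP_8b8716_co, project QG: weak approximation by numbers of absolute value one
-/

noncomputable section

namespace Pool.Agent.MP_8b8716_co_QG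

open Complex MeasureTheory Filter Topology Set
open NumberField
open Pool.Agent.MP_8b8716_co_HN

section
variable {E : Subfield ℂ} [NumberField E] [Cj E]

theorem GAp.mul_cj {c : E} (hc : ‖(c : ℂ)‖ = 1) : c * cj E c = 1 := by
  apply Subtype.ext
  change (c : ℂ) * (starRingEnd ℂ) (c : ℂ) = 1
  rw [Complex.mul_conj, Complex.normSq_eq_norm_sq, hc]
  simp

/-- a Gaussian integer `b` with `c0 * conj b = b` -/
theorem GAp.exists_b (hI : I ∈ E) {c0 : E} (h0 : (c0 : ℂ) ∈ KG) (h1 : ‖(c0 : ℂ)‖ = 1) :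
    ∃ b : 𝓞 E, b ≠ 0 ∧ c0 * cj E (io E b) = io E b := by
  have hint : IsIntegral ℤ (⟨I, hI⟩ : E) := by
    refine ⟨Polynomial.X ^ 2 + 1, by monicity!, ?_⟩
    have h2 : (⟨I, hI⟩ : E) ^ 2 + 1 = 0 := by
      apply Subtype.ext
      change I ^ 2 + 1 = 0
      rw [I_sq]
      ring
    simpa using h2
  by_cases hm : c0 = -1
  · refine ⟨⟨⟨I, hI⟩, hint⟩, ?_, ?_⟩
    · intro h
      have h2 : (⟨I, hI⟩ : E) = 0 := congrArg (io E) h |>.trans (map_zero _)
      have h3 : I = 0 := congrArg Subtype.val h2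
      exact I_ne_zero h3
    · apply Subtype.ext
      change (c0 : ℂ) * (starRingEnd ℂ) I = I
      rw [hm, conj_I]
      change (-1 : ℂ) * -I = I
      ring
  · obtain ⟨x, y, hxy⟩ := h0
    have hx : ((x.den : ℤ) : ℂ) * (x : ℂ) = ((x.num : ℤ) : ℂ) := by
      exact_mod_cast (by rw [mul_comm]; exact Rat.mul_den_eq_num x : (x.den : ℚ) * x = x.num)
    have hy : ((y.den : ℤ) : ℂ) * (y : ℂ) = ((y.num : ℤ) : ℂ) := by
      exact_mod_cast (by rw [mul_comm]; exact Rat.mul_den_eq_num y : (y.den : ℚ) * y = y.num)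
    set N : ℤ := x.den * y.den with hN
    have hN0 : N ≠ 0 := by
      rw [hN]
      exact mul_ne_zero (by exact_mod_cast x.den_ne_zero) (by exact_mod_cast y.den_ne_zero)
    have hb : (N : E) * (1 + c0) = ((N + y.den * x.num : ℤ) : E) +
        ((x.den * y.num : ℤ) : E) * ⟨I, hI⟩ := by
      apply Subtype.ext
      push_cast
      change ((N : ℤ) : ℂ) * (1 + (c0 : ℂ)) = (((N : ℤ) : ℂ) + ((y.den : ℤ) : ℂ) * ((x.num : ℤ) : ℂ))
        + (((x.den : ℤ) : ℂ) * ((y.num : ℤ) : ℂ)) * I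
      rw [← hx, ← hy, hxy, hN]
      push_cast
      ring
    have hbi : IsIntegral ℤ ((N : E) * (1 + c0)) := by
      rw [hb]
      refine IsIntegral.add ?_ (IsIntegral.mul ?_ hint)
      · exact isIntegral_algebraMap (x := (N + y.den * x.num : ℤ))
      · exact isIntegral_algebraMap (x := (x.den * y.num : ℤ))
    refine ⟨⟨(N : E) * (1 + c0), hbi⟩, ?_, ?_⟩
    · intro h
      have h2 : (N : E) * (1 + c0) = 0 := congrArg (io E) h |>.trans (map_zero _)
      rcases mul_eq_zero.1 h2 with h3 | h3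
      · exact hN0 (by exact_mod_cast h3)
      · exact hm (by rw [← sub_eq_zero]; rw [← h3]; ring)
    · change c0 * cj E ((N : E) * (1 + c0)) = (N : E) * (1 + c0)
      rw [map_mul, map_intCast, map_add, map_one]
      have h2 := GAp.mul_cj h1
      linear_combination (N : E) * h2

theorem unit_class {m : ℕ} {c : E} (hc : ‖(c : ℂ)‖ = 1) (h : c ∈ RR E) :
    cl E m ⟨c, h⟩ * barA E m (cl E m ⟨c, h⟩) = 1 := by
  rw [barA_cl, ← map_mul]
  have h1 : (⟨c, h⟩ : RR E) * cR E ⟨c, h⟩ = 1 := by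
    apply Subtype.ext
    exact GAp.mul_cj hc
  rw [h1, map_one]

theorem approx (hI : I ∈ E) {Q : Set ℕ} (hB : BB E Q) {m : ℕ} (hm : 0 < m) (u : AM E m)
    (hu : u * barA E m u = 1) {c0 : E} (h0 : (c0 : ℂ) ∈ KG) (h1 : ‖(c0 : ℂ)‖ = 1) {δ : ℝ}
    (hδ : 0 < δ) : ∃ c : E, ‖(c : ℂ)‖ = 1 ∧ nrm E (c - c0) < δ ∧
      ∃ h : c ∈ RR E, cl E m ⟨c, h⟩ = u := by
  have := AM_finite (E := E) hm
  obtain ⟨v, hv⟩ := hil_unit (barA E m) barA_barA (fun M _ a ha => AM_hid hm M a ha)
    (fun M hM => (AM_max hB hm M hM).1) u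
  set w : AM E m := v + u * barA E m v with hw
  have huw : u * barA E m w = w := by
    rw [hw, map_add, map_mul, barA_barA, mul_add, ← mul_assoc, hu, one_mul, add_comm]
  obtain ⟨w0, hw0⟩ := AM_surj hm w
  obtain ⟨b, hb0, hb⟩ := GAp.exists_b hI h0 h1
  have hm0 : (m : E) ≠ 0 := by exact_mod_cast hm.ne'
  have hib : io E b ≠ 0 := fun h => hb0 (io_injective E (h.trans (map_zero _).symm))
  have hcb : cj E (io E b) ≠ 0 := by
    intro h
    have h2 := congrArg (cj E) h
    rw [cj_cj, map_zero] at h2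
    exact hib h2
  let W : ℕ → 𝓞 E := fun n => w0 + (m * n : ℕ) * b
  have hWio : ∀ n, io E (W n) = io E w0 + ((m * n : ℕ) : E) * io E b := by
    intro n
    change io E (w0 + (m * n : ℕ) * b) = _
    rw [map_add, map_mul, map_natCast]
  have hWcj : ∀ n, cj E (io E (W n)) = cj E (io E w0) + ((m * n : ℕ) : E) * cj E (io E b) := by
    intro n
    rw [hWio, map_add, map_mul, map_natCast]
  have hWne : ∀ᶠ n in atTop, io E (W n) ≠ 0 := by
    by_cases hex : ∃ n0, io E (W n0) = 0
    · obtain ⟨n0, hn0⟩ := hex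
      filter_upwards [eventually_gt_atTop n0] with n hn h
      have h2 : (m : E) * ((n : E) - n0) * io E b = 0 := by
        rw [hWio] at hn0 h
        push_cast at hn0 h
        linear_combination h - hn0
      have h3 : (n : E) - n0 ≠ 0 := by
        rw [sub_ne_zero]
        exact_mod_cast hn.ne'
      exact mul_ne_zero (mul_ne_zero hm0 h3) hib h2
    · push Not at hex
      exact Eventually.of_forall hex
  set y : E := cj E (io E w0) / cj E (io E b) with hy
  set d : E := (io E w0 - c0 * cj E (io E w0)) / cj E (io E b) with hd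
  have hlim : Tendsto (fun n : ℕ => nrm E (d * (y + ((m * n : ℕ) : E))⁻¹)) atTop (𝓝 0) :=
    (inv_tendsto y d).comp
      (tendsto_atTop_mono (fun n => Nat.le_mul_of_pos_left n hm) tendsto_id)
  have hsmall : ∀ᶠ n : ℕ in atTop, nrm E (d * (y + ((m * n : ℕ) : E))⁻¹) < δ :=
    hlim.eventually (gt_mem_nhds hδ)
  obtain ⟨n, hn1, hn2⟩ := (hWne.and hsmall).exists
  have hcW : cj E (io E (W n)) ≠ 0 := by
    intro h
    have h2 := congrArg (cj E) h
    rw [cj_cj, map_zero] at h2
    exact hn1 h2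
  set c : E := io E (W n) / cj E (io E (W n)) with hc
  have hcn : ‖(c : ℂ)‖ = 1 := by
    have h2 : (c : ℂ) = ((io E (W n) : E) : ℂ) / (starRingEnd ℂ) ((io E (W n) : E) : ℂ) := by
      rw [hc]
      rfl
    have h3 : ((io E (W n) : E) : ℂ) ≠ 0 := fun h => hn1 (Subtype.ext h)
    rw [h2, norm_div, RCLike.norm_conj, div_self]
    exact norm_ne_zero_iff.2 h3
  have hcR := norm_one_mem_RR hcn
  refine ⟨c, hcn, ?_, hcR, ?_⟩
  · have h2 : c - c0 = d * (y + ((m * n : ℕ) : E))⁻¹ := by
      have h3 : y + ((m * n : ℕ) : E) = cj E (io E (W n)) / cj E (io E b) := by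
        rw [hWcj, hy]
        field_simp
      rw [h3, hc, hd, inv_div, sub_eq_iff_eq_add]
      field_simp
      rw [hWio]
      simp only [map_add, map_mul, map_natCast]
      linear_combination (-((m * n : ℕ) : E)) * hb
    rw [h2]
    exact hn2
  · have hWcl : cl E m (iR E (W n)) = w := by
      have h2 : iR E (W n) = iR E w0 + (m : RR E) * ((n : RR E) * iR E b) := by
        change iR E (w0 + (m * n : ℕ) * b) = _
        rw [map_add, map_mul, map_natCast]
        push_cast
        ring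
      have h3 : cl E m ((m : RR E)) = 0 :=
        Ideal.Quotient.eq_zero_iff_mem.2 (Ideal.mem_span_singleton_self _)
      rw [h2, map_add, map_mul, h3, zero_mul, add_zero, hw0]
    have h2 : (⟨c, hcR⟩ : RR E) * cR E (iR E (W n)) = iR E (W n) := by
      apply Subtype.ext
      change c * cj E (io E (W n)) = io E (W n)
      rw [hc]
      field_simp
    have h3 := congrArg (cl E m) h2
    rw [map_mul, ← barA_cl, hWcl] at h3
    have h4 : IsUnit (barA E m w) := hv.map (barA E m)
    rw [← h4.mul_left_inj, h3, huw]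

end

end Pool.Agent.MP_8b8716_co_QG
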