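import Mathlib
import Pool.Agent.Lib.MP_8b8716_co_HN.Basic
import Pool.Agent.Lib.MP_8b8716_co_QG.Defs
import Pool.Agent.Lib.MP_8b8716_co_QG.GRR
import Pool.Agent.Lib.MP_8b8716_co_QG.GCo

set_option autoImplicit false
set_option linter.unusedVariables false

/-!
# MP_8b8716_co, project QG: facts on `SM`
-/

noncomputable section

namespace Pool.Agent.MP_8b8716_co_QG

open Complex MeasureTheory Filter Topology Set
open NumberField
open Pool.Agent.MP_8b8716_co_HN

section
variable {E : Subfield ℂ} [NumberField E] [Cj E]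

theorem SM_mono {x : E → Circle} {m m' : ℕ} (h : m ∣ m') (hx : x ∈ SM E m) : x ∈ SM E m' := by
  obtain ⟨k, rfl⟩ := h
  obtain ⟨t, ht⟩ := hx
  refine ⟨t, fun r hr => ?_⟩
  have e : ((m * k : ℕ) : E) * r = (m : E) * ((k : E) * r) := by push_cast; ring
  rw [e]
  exact ht _ ((RR E).mul_mem (natCast_mem _ k) hr)

theorem measurableSet_SM (m : ℕ) : MeasurableSet (SM E m) := by
  have h1 : SM E m = ⋃ C : ℕ, {x : E → Circle | ∃ t : Ix E → ℝ, (∀ j, |t j| ≤ (C : ℝ)) ∧
      ∀ z ∈ (fun r => (m : E) * r) '' (RR E : Set E), x z = et E t z} := by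
    ext x
    simp only [SM, mem_ofPred_eq, mem_iUnion]
    constructor
    · rintro ⟨t, ht⟩
      obtain ⟨C, hC⟩ := exists_nat_ge (∑ j, |t j|)
      refine ⟨C, t, fun j => ?_, ?_⟩
      · exact (Finset.single_le_sum (fun i _ => abs_nonneg (t i)) (Finset.mem_univ j)).trans hC
      · rintro _ ⟨r, hr, rfl⟩
        exact ht r hr
    · rintro ⟨C, t, -, ht⟩
      exact ⟨t, fun r hr => ht _ ⟨r, hr, rfl⟩⟩
  rw [h1]
  have hct : Countable E := by
    refine Function.Injective.countable (f := fun z : E => co E z) fun z w hzw => ?_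
    have hzw' : co E z = co E w := hzw
    rw [← sum_co z, ← sum_co w, hzw']
  exact MeasurableSet.iUnion fun C => (isClosed_et _ _).measurableSet

namespace GSM

theorem om_five_mem (hI : I ∈ E) (j : Ix E) (N : ℕ) : om E j / 5 ^ N ∈ RR E := by
  obtain ⟨a, ha⟩ := om_int (E := E) j
  have h1 : om E j ∈ RR E := by
    rw [← ha]
    exact (iR E a).2
  rw [div_eq_mul_inv, ← inv_pow]
  exact (RR E).mul_mem h1 ((RR E).pow_mem (five_inv_mem_RR hI) N)

omit [NumberField E] [Cj E] in
theorem char_nsmul {x : E → Circle} (hx : IsChar x) {z : E} (hz : x z = 1) (n : ℤ) :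
    x ((n : E) * z) = 1 := by
  rw [hx.map_intMul, hz, one_zpow]

omit [NumberField E] [Cj E] in
theorem char_sum {x : E → Circle} (hx : IsChar x) {ι : Type*} (s : Finset ι) (f : ι → E)
    (h : ∀ i ∈ s, x (f i) = 1) : x (∑ i ∈ s, f i) = 1 := by
  classical
  induction s using Finset.induction_on with
  | empty => rw [Finset.sum_empty, hx.map_zero]
  | insert a s ha ih =>
    rw [Finset.sum_insert ha, hx, h a (Finset.mem_insert_self a s),
      ih fun i hi => h i (Finset.mem_insert_of_mem hi), one_mul]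

end GSM

theorem SM_freq (hI : I ∈ E) {x : E → Circle} {m m' : ℕ} (hm : 0 < m) (hm' : 0 < m')
    {t t' : Ix E → ℝ} (h : ∀ r ∈ RR E, x (m * r) = et E t (m * r))
    (h' : ∀ r ∈ RR E, x (m' * r) = et E t' (m' * r)) : t = t' := by
  refine et_unique (Nat.mul_pos hm hm') fun N j => ?_
  have h1 := GSM.om_five_mem hI j N
  have e1 : ((m * m' : ℕ) : E) * om E j / 5 ^ N = (m : E) * ((m' : E) * (om E j / 5 ^ N)) := by
    push_cast; ring
  have e2 : ((m * m' : ℕ) : E) * om E j / 5 ^ N = (m' : E) * ((m : E) * (om E j / 5 ^ N)) := by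
    push_cast; ring
  have h2 := h _ ((RR E).mul_mem (natCast_mem _ m') h1)
  have h3 := h' _ ((RR E).mul_mem (natCast_mem _ m) h1)
  rw [← e1] at h2
  rw [← e2] at h3
  rw [← h2, h3]

theorem mem_SM_of (hI : I ∈ E) {x : E → Circle} (hx : IsChar x) {m0 m N : ℕ} (hm0 : 0 < m0)
    (hm : 0 < m) {t : Ix E → ℝ} (h : ∀ r ∈ RR E, x (m0 * r) = et E t (m0 * r))
    (h1 : ∀ j : Ix E, x (m * om E j / 5 ^ N) = et E t (m * om E j / 5 ^ N)) :
    ∀ r ∈ RR E, x (m * r) = et E t (m * r) := by
  set τ : E → Circle := x / et E t with hτ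
  have hτc : IsChar τ := hx.div (isChar_et t)
  have hτm : ∀ r ∈ RR E, τ ((m0 : E) * r) = 1 := by
    intro r hr
    rw [hτ, Pi.div_apply, h r hr, div_self']
  have hτ1 : ∀ j : Ix E, τ (m * om E j / 5 ^ N) = 1 := by
    intro j
    rw [hτ, Pi.div_apply, h1 j, div_self']
  have hτ2 : ∀ a : 𝓞 E, τ ((m : E) * io E a) = 1 := by
    intro a
    have e : (m : E) * io E a = ∑ j, (co E (io E a) j : E) * ((m : E) * om E j) := by
      conv_lhs => rw [← sum_co (io E a), Finset.mul_sum]
      exact Finset.sum_congr rfl fun j _ => by ring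
    rw [e]
    refine GSM.char_sum hτc _ _ fun j _ => ?_
    obtain ⟨n, hn⟩ := int_co a j
    have h5 : (5 : E) ^ N ≠ 0 := pow_ne_zero N (by norm_num)
    have e2 : (co E (io E a) j : E) * ((m : E) * om E j) =
        ((n * 5 ^ N : ℤ) : E) * ((m : E) * om E j / 5 ^ N) := by
      rw [hn]
      push_cast
      field_simp
    rw [e2]
    exact GSM.char_nsmul hτc (hτ1 j) _
  intro r hr
  obtain ⟨s, hs, a, hsa⟩ := id hr
  obtain ⟨s', α, hα, r', hr', hαr⟩ := coprime_SS hm0 hs
  have hone : io E s * io E s' + io E α = 1 := by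
    rw [← map_mul, ← map_add, hα, map_one]
  have e : (m : E) * r = (m : E) * io E (a * s') + (m0 : E) * ((m : E) * (r * r')) := by
    calc (m : E) * r = (m : E) * r * (io E s * io E s' + io E α) := by rw [hone, mul_one]
      _ = (m : E) * ((io E s * r) * io E s') + (m : E) * r * io E α := by ring
      _ = _ := by rw [hsa, hαr, map_mul]; ring
  have h3 : τ ((m : E) * r) = 1 := by
    rw [e, hτc, hτ2, hτm _ ((RR E).mul_mem (natCast_mem _ m) ((RR E).mul_mem hr hr')), one_mul]
  rw [hτ, Pi.div_apply, div_eq_one] at h3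
  exact h3

end

end Pool.Agent.MP_8b8716_co_QG
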