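import Mathlib
import Pool.Agent.Lib.MP_8b8716_co_HN.Basic
import Pool.Agent.Lib.MP_8b8716_co_QG.Defs
import Pool.Agent.Lib.MP_8b8716_co_QG.GRR
import Pool.Agent.Lib.MP_8b8716_co_QG.GCo
import Pool.Agent.Lib.MP_8b8716_co_QG.GSM

set_option autoImplicit false

/-!
# MP_8b8716_co, project QG, module GAv: averages of characters over small boxes
-/

noncomputable section

namespace Pool.Agent.MP_8b8716_co_QG

open Complex MeasureTheory Filter Topology Set
open NumberField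
open Pool.Agent.MP_8b8716_co_HN

section
variable {E : Subfield ℂ} [NumberField E] [Cj E]

/-- powers of a root of unity have bounded sums -/
theorem GAv.norm_geom_le {m : ℕ} (hm : 0 < m) {z : ℂ} (hz : ‖z‖ = 1) (h : z ^ m = 1) (h1 : z ≠ 1)
    (N : ℕ) : ‖∑ j ∈ Finset.range N, z ^ j‖ ≤ 2 * m := by
  have hz1 : z - 1 ≠ 0 := sub_ne_zero.2 h1
  have hpos : 0 < ‖z - 1‖ := norm_pos_iff.2 hz1
  have hpow : ∀ j : ℕ, ‖1 - z ^ j‖ ≤ j * ‖z - 1‖ := by
    intro j
    rw [← mul_neg_geom_sum, norm_mul, norm_sub_rev 1 z, mul_comm]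
    refine mul_le_mul_of_nonneg_right ?_ hpos.le
    refine (norm_sum_le _ _).trans (le_of_eq ?_)
    simp [hz]
  have hm0 : (0:ℝ) < m := by exact_mod_cast hm
  have h2 : (m : ℝ) ≤ (m : ℝ) * ((m : ℝ) * ‖z - 1‖) := by
    have h3 : ∑ j ∈ Finset.range m, z ^ j = 0 := by
      rw [geom_sum_eq h1, h, sub_self, zero_div]
    have h4 : (m : ℂ) = ∑ j ∈ Finset.range m, (1 - z ^ j) := by
      rw [Finset.sum_sub_distrib, h3, sub_zero]
      simp
    have h5 : (m : ℝ) = ‖(m : ℂ)‖ := (Complex.norm_natCast m).symm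
    calc (m : ℝ) = ‖∑ j ∈ Finset.range m, (1 - z ^ j)‖ := by rw [h5, ← h4]
      _ ≤ ∑ j ∈ Finset.range m, ‖1 - z ^ j‖ := norm_sum_le _ _
      _ ≤ ∑ j ∈ Finset.range m, (m : ℝ) * ‖z - 1‖ := by
          refine Finset.sum_le_sum fun j hj => (hpow j).trans ?_
          refine mul_le_mul_of_nonneg_right ?_ hpos.le
          exact_mod_cast (Finset.mem_range.1 hj).le
      _ = (m : ℝ) * ((m : ℝ) * ‖z - 1‖) := by
          rw [Finset.sum_const, Finset.card_range, nsmul_eq_mul]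
  have h3 : 1 ≤ (m : ℝ) * ‖z - 1‖ := by
    by_contra h4
    have h5 : (m : ℝ) * ((m : ℝ) * ‖z - 1‖) < m * 1 := mul_lt_mul_of_pos_left (not_le.1 h4) hm0
    linarith
  rw [geom_sum_eq h1, norm_div, div_le_iff₀ hpos]
  have h4 : ‖z ^ N - 1‖ ≤ 2 := by
    refine (norm_sub_le _ _).trans ?_
    rw [norm_pow, hz, one_pow, norm_one]
    norm_num
  calc ‖z ^ N - 1‖ ≤ 2 := h4
    _ ≤ 2 * ((m : ℝ) * ‖z - 1‖) := by linarith
    _ = 2 * m * ‖z - 1‖ := by ring

theorem GAv.norm_geom_le' {z : ℂ} (hz : ‖z‖ = 1) (N : ℕ) :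
    ‖∑ j ∈ Finset.range (N + 1), z ^ j‖ ≤ N + 1 := by
  refine (norm_sum_le _ _).trans (le_of_eq ?_)
  simp [hz]

omit [NumberField E] [Cj E] in
theorem GAv.measurable_ev (u : E) : Measurable fun x : E → Circle => (x u : ℂ) := by
  have h : Continuous fun z : Circle => (z : ℂ) := continuous_subtype_val
  exact h.measurable.comp (measurable_pi_apply u)

omit [NumberField E] [Cj E] in
theorem GAv.integrable_ev (σ : Measure (E → Circle)) [IsFiniteMeasure σ] (u : E) :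
    Integrable (fun x : E → Circle => (x u : ℂ)) σ :=
  Integrable.of_bound (GAv.measurable_ev u).aestronglyMeasurable 1
    (Eventually.of_forall fun x => by rw [Circle.norm_coe])

omit [Cj E] in
theorem GAv.card_sq (N : ℕ) : (sq E N).card = (N + 1) ^ Fintype.card (Ix E) := by
  unfold sq
  rw [Fintype.card_piFinset]
  simp

/-- the norm of the normalization -/
theorem GAv.norm_inv_pow (N n : ℕ) : ‖((N + 1 : ℂ) ^ n)⁻¹‖ = (((N:ℝ) + 1) ^ n)⁻¹ := by
  have h3 : ((N + 1 : ℂ) ^ n)⁻¹ = (((((N:ℝ) + 1) ^ n)⁻¹ : ℝ) : ℂ) := by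
    push_cast
    ring
  rw [h3, Complex.norm_real, Real.norm_of_nonneg (by positivity)]

omit [Cj E] in
/-- averages over the box -/
theorem GAv.norm_avg_le {N : ℕ} {f : (Ix E → ℕ) → ℂ} {c : ℝ} (h : ∀ p ∈ sq E N, ‖f p‖ ≤ c) :
    ‖((N + 1 : ℂ) ^ Fintype.card (Ix E))⁻¹ * ∑ p ∈ sq E N, f p‖ ≤ c := by
  have h0 : (0:ℝ) < ((N:ℝ) + 1) ^ Fintype.card (Ix E) := by positivity
  have h1 : ‖∑ p ∈ sq E N, f p‖ ≤ ((N:ℝ) + 1) ^ Fintype.card (Ix E) * c := by
    refine (norm_sum_le _ _).trans ((Finset.sum_le_sum h).trans (le_of_eq ?_))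
    rw [Finset.sum_const, GAv.card_sq, nsmul_eq_mul]
    push_cast
    ring
  rw [norm_mul, GAv.norm_inv_pow, inv_mul_le_iff₀ h0]
  exact h1

/-- the part of `x` which is not continuous -/
def GAv.tau (t : Ix E → ℝ) (x : E → Circle) : E → Circle := fun z => x z * (et E t z)⁻¹

theorem GAv.isChar_tau {t : Ix E → ℝ} {x : E → Circle} (hx : IsChar x) :
    IsChar (GAv.tau t x) := by
  intro a b
  show x (a + b) * (et E t (a + b))⁻¹ = x a * (et E t a)⁻¹ * (x b * (et E t b)⁻¹)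
  rw [hx a b, isChar_et t a b, mul_inv]
  exact mul_mul_mul_comm _ _ _ _

omit [Cj E] in
theorem GAv.eq_tau (t : Ix E → ℝ) (x : E → Circle) (z : E) :
    x z = et E t z * GAv.tau t x z := by
  unfold GAv.tau
  rw [mul_comm, inv_mul_cancel_right]

omit [Cj E] in
theorem GAv.tau_eq_one_iff {t : Ix E → ℝ} {x : E → Circle} {z : E} :
    GAv.tau t x z = 1 ↔ x z = et E t z := by
  unfold GAv.tau
  exact mul_inv_eq_one

omit [NumberField E] [Cj E] in
/-- characters and finite sums -/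
theorem GAv.map_sum {x : E → Circle} (hx : IsChar x) {ι : Type*} (s : Finset ι) (f : ι → E) :
    x (∑ j ∈ s, f j) = ∏ j ∈ s, x (f j) := by
  classical
  induction s using Finset.induction_on with
  | empty => simpa using hx.map_zero
  | insert a s ha ih => rw [Finset.sum_insert ha, hx, ih, Finset.prod_insert ha]

theorem GAv.coe_prod {ι : Type*} (s : Finset ι) (f : ι → Circle) :
    ((∏ j ∈ s, f j : Circle) : ℂ) = ∏ j ∈ s, (f j : ℂ) := by
  classical
  induction s using Finset.induction_on with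
  | empty => simp
  | insert a s ha ih => rw [Finset.prod_insert ha, Circle.coe_mul, ih, Finset.prod_insert ha]

/-- the characters of the box -/
theorem GAv.tau_bx {t : Ix E → ℝ} {x : E → Circle} (hx : IsChar x) (m N : ℕ) (p : Ix E → ℕ) :
    GAv.tau t x (bx E m N p) = ∏ j, GAv.tau t x (m * om E j / 5 ^ N) ^ p j := by
  have h1 : bx E m N p = ∑ j, (p j : E) * (m * om E j / 5 ^ N) := by
    unfold bx
    rw [Finset.mul_sum, Finset.sum_div]
    refine Finset.sum_congr rfl fun j _ => ?_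
    ring
  rw [h1, GAv.map_sum (GAv.isChar_tau hx)]
  refine Finset.prod_congr rfl fun j _ => ?_
  rw [(GAv.isChar_tau hx).map_natMul]

/-- the average of `x` is close to the average of `τ` -/
theorem GAv.av_sub_le {t : Ix E → ℝ} {C : ℝ} (hC0 : 0 ≤ C)
    (hC : ∀ z : E, ‖(et E t z : ℂ) - 1‖ ≤ C * nrm E z) {x : E → Circle} (hx : IsChar x)
    (m N : ℕ) :
    ‖av E m N x - ((N + 1 : ℂ) ^ Fintype.card (Ix E))⁻¹ *
      ∏ j, ∑ i ∈ Finset.range (N + 1), (GAv.tau t x (m * om E j / 5 ^ N) : ℂ) ^ i‖ ≤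
      C * (m * Fintype.card (Ix E) * N / 5 ^ N) := by
  have h1 : ∏ j, ∑ i ∈ Finset.range (N + 1), (GAv.tau t x (m * om E j / 5 ^ N) : ℂ) ^ i =
      ∑ p ∈ sq E N, (GAv.tau t x (bx E m N p) : ℂ) := by
    unfold sq
    rw [Finset.prod_univ_sum]
    refine Finset.sum_congr rfl fun p _ => ?_
    rw [GAv.tau_bx hx]
    rw [GAv.coe_prod]
    exact Finset.prod_congr rfl fun j _ => (Circle.coe_pow _ _).symm
  rw [h1]
  unfold av
  rw [← mul_sub, ← Finset.sum_sub_distrib]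
  refine GAv.norm_avg_le fun p hp => ?_
  have h2 : (x (bx E m N p) : ℂ) - (GAv.tau t x (bx E m N p) : ℂ) =
      ((et E t (bx E m N p) : ℂ) - 1) * (GAv.tau t x (bx E m N p) : ℂ) := by
    have h3 := congrArg (fun z : Circle => (z : ℂ)) (GAv.eq_tau t x (bx E m N p))
    simp only [Circle.coe_mul] at h3
    rw [h3]
    ring
  rw [h2, norm_mul, Circle.norm_coe, mul_one]
  exact (hC _).trans (mul_le_mul_of_nonneg_left (norm_bx_le m N hp) hC0)

theorem GAv.tendsto_err (c : ℝ) (m n : ℕ) :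
    Tendsto (fun N : ℕ => c * (m * n * N / 5 ^ N : ℝ)) atTop (𝓝 0) := by
  have h1 : Tendsto (fun N : ℕ => (N : ℝ) * (1 / 5 : ℝ) ^ N) atTop (𝓝 0) :=
    tendsto_self_mul_const_pow_of_lt_one (by norm_num) (by norm_num)
  have h2 := h1.const_mul (c * (m * n))
  rw [mul_zero] at h2
  refine h2.congr fun N => ?_
  rw [one_div, inv_pow]
  ring

/-- the points `om j / 5 ^ N` are in `RR` -/
theorem GAv.om_div_mem (hI : I ∈ E) (N : ℕ) (j : Ix E) : om E j / 5 ^ N ∈ RR E := by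
  obtain ⟨a, ha⟩ := om_int (E := E) j
  have h1 : om E j ∈ RR E := ha ▸ (iR E a).2
  rw [div_eq_mul_inv, ← inv_pow]
  exact (RR E).mul_mem h1 ((RR E).pow_mem (five_inv_mem_RR hI) N)

theorem av_tendsto_one (hI : I ∈ E) {m : ℕ} (hm : 0 < m) {x : E → Circle} (hx : IsChar x)
    (h : x ∈ SM E m) : Tendsto (fun N => av E m N x) atTop (𝓝 1) := by
  obtain ⟨t, ht⟩ := h
  obtain ⟨C, hC0, hC⟩ := norm_et_sub_one_le t
  rw [tendsto_iff_norm_sub_tendsto_zero]
  refine squeeze_zero (fun N => norm_nonneg _) (fun N => ?_)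
    (GAv.tendsto_err C m (Fintype.card (Ix E)))
  have h1 := GAv.av_sub_le hC0 hC hx m N
  have hα : ∀ j : Ix E, GAv.tau t x (m * om E j / 5 ^ N) = 1 := by
    intro j
    rw [GAv.tau_eq_one_iff, mul_div_assoc]
    exact ht _ (GAv.om_div_mem hI N j)
  have h2 : ((N + 1 : ℂ) ^ Fintype.card (Ix E))⁻¹ *
      ∏ j : Ix E, ∑ i ∈ Finset.range (N + 1), (GAv.tau t x (m * om E j / 5 ^ N) : ℂ) ^ i = 1 := by
    have h3 : (N + 1 : ℂ) ≠ 0 := by exact_mod_cast Nat.succ_ne_zero N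
    have h4 : ∀ j : Ix E, ∑ i ∈ Finset.range (N + 1),
        (GAv.tau t x (m * om E j / 5 ^ N) : ℂ) ^ i = N + 1 := by
      intro j
      rw [hα]
      simp
    rw [Finset.prod_congr rfl fun j _ => h4 j, Finset.prod_const, Finset.card_univ]
    exact inv_mul_cancel₀ (pow_ne_zero _ h3)
  rw [h2] at h1
  exact h1

theorem av_tendsto_zero (hI : I ∈ E) {m : ℕ} (hm : 0 < m) {x : E → Circle} (hx : IsChar x)
    (hs : ∃ m' : ℕ, 0 < m' ∧ x ∈ SM E m') (h : x ∉ SM E m) :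
    Tendsto (fun N => av E m N x) atTop (𝓝 0) := by
  obtain ⟨m', hm', t, ht⟩ := hs
  obtain ⟨C, hC0, hC⟩ := norm_et_sub_one_le t
  rw [tendsto_zero_iff_norm_tendsto_zero]
  have hlim : Tendsto (fun N : ℕ => C * (m * Fintype.card (Ix E) * N / 5 ^ N) +
      2 * m' * (1 / ((N : ℝ) + 1))) atTop (𝓝 0) := by
    have h1 := GAv.tendsto_err C m (Fintype.card (Ix E))
    have h2 := (tendsto_one_div_add_atTop_nhds_zero_nat (𝕜 := ℝ)).const_mul (2 * (m' : ℝ))
    have h3 := h1.add h2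
    simpa using h3
  refine squeeze_zero (fun N => norm_nonneg _) (fun N => ?_) hlim
  have h1 := GAv.av_sub_le hC0 hC hx m N
  have hne : ∃ j : Ix E, GAv.tau t x (m * om E j / 5 ^ N) ≠ 1 := by
    by_contra hcon
    push Not at hcon
    apply h
    exact ⟨t, mem_SM_of hI hx hm' hm ht fun j => GAv.tau_eq_one_iff.1 (hcon j)⟩
  obtain ⟨j0, hj0⟩ := hne
  have hpow : GAv.tau t x (m * om E j0 / 5 ^ N) ^ m' = 1 := by
    rw [← (GAv.isChar_tau hx).map_natMul, GAv.tau_eq_one_iff, mul_div_assoc]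
    exact ht _ ((RR E).mul_mem (natCast_mem (RR E) m) (GAv.om_div_mem hI N j0))
  have hpow' : (GAv.tau t x (m * om E j0 / 5 ^ N) : ℂ) ^ m' = 1 := by
    have := congrArg (fun z : Circle => (z : ℂ)) hpow
    simpa using this
  have hne' : (GAv.tau t x (m * om E j0 / 5 ^ N) : ℂ) ≠ 1 := fun h4 =>
    hj0 (Circle.ext (by simpa using h4))
  have h5 : (0:ℝ) < (N:ℝ) + 1 := by positivity
  have h2 : ‖((N + 1 : ℂ) ^ Fintype.card (Ix E))⁻¹ *
      ∏ j, ∑ i ∈ Finset.range (N + 1), (GAv.tau t x (m * om E j / 5 ^ N) : ℂ) ^ i‖ ≤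
      2 * m' * (1 / ((N : ℝ) + 1)) := by
    have h6 : ‖((N + 1 : ℂ) ^ Fintype.card (Ix E))⁻¹ *
        ∏ j, ∑ i ∈ Finset.range (N + 1), (GAv.tau t x (m * om E j / 5 ^ N) : ℂ) ^ i‖ =
        ∏ j : Ix E, ((N : ℝ) + 1)⁻¹ *
          ‖∑ i ∈ Finset.range (N + 1), (GAv.tau t x (m * om E j / 5 ^ N) : ℂ) ^ i‖ := by
      rw [norm_mul, GAv.norm_inv_pow, norm_prod, Finset.prod_mul_distrib, Finset.prod_const,
        Finset.card_univ, inv_pow]
    rw [h6, ← Finset.mul_prod_erase _ _ (Finset.mem_univ j0)]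
    have h7 : ((N : ℝ) + 1)⁻¹ *
        ‖∑ i ∈ Finset.range (N + 1), (GAv.tau t x (m * om E j0 / 5 ^ N) : ℂ) ^ i‖ ≤
        2 * m' * (1 / ((N : ℝ) + 1)) := by
      rw [one_div, mul_comm]
      exact mul_le_mul_of_nonneg_right
        (GAv.norm_geom_le hm' (Circle.norm_coe _) hpow' hne' _) (by positivity)
    have h8 : ∏ j ∈ Finset.univ.erase j0, ((N : ℝ) + 1)⁻¹ *
        ‖∑ i ∈ Finset.range (N + 1), (GAv.tau t x (m * om E j / 5 ^ N) : ℂ) ^ i‖ ≤ 1 := by
      refine Finset.prod_le_one (fun j _ => by positivity) fun j _ => ?_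
      rw [inv_mul_le_iff₀ h5, mul_one]
      exact GAv.norm_geom_le' (Circle.norm_coe _) N
    calc _ ≤ (2 * m' * (1 / ((N : ℝ) + 1))) * 1 :=
          mul_le_mul h7 h8 (Finset.prod_nonneg fun j _ => by positivity) (by positivity)
      _ = _ := mul_one _
  have h3 : av E m N x = (av E m N x - ((N + 1 : ℂ) ^ Fintype.card (Ix E))⁻¹ *
      ∏ j, ∑ i ∈ Finset.range (N + 1), (GAv.tau t x (m * om E j / 5 ^ N) : ℂ) ^ i) +
      ((N + 1 : ℂ) ^ Fintype.card (Ix E))⁻¹ *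
      ∏ j, ∑ i ∈ Finset.range (N + 1), (GAv.tau t x (m * om E j / 5 ^ N) : ℂ) ^ i := by ring
  rw [h3]
  exact (norm_add_le _ _).trans (add_le_add h1 h2)

theorem norm_av_le (m N : ℕ) (x : E → Circle) : ‖av E m N x‖ ≤ 1 :=
  GAv.norm_avg_le fun p _ => (Circle.norm_coe _).le

theorem av_off {Om : Set (E → Circle)} {σ : Measure (E → Circle)} (hσ : Nice E Om σ) {m : ℕ}
    (hm : 0 < m) : Tendsto (fun N => ∫ x in Omᶜ, ‖av E m N x‖ ^ 2 ∂σ) atTop (𝓝 0) := by
  haveI := hσ.fin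
  have hchr : ∀ᵐ x ∂(σ.restrict Omᶜ), IsChar x := ae_restrict_of_ae hσ.chr
  -- the integrals
  have hint : ∀ N : ℕ, ((∫ x in Omᶜ, ‖av E m N x‖ ^ 2 ∂σ : ℝ) : ℂ) =
      ((N + 1 : ℂ) ^ Fintype.card (Ix E))⁻¹ * (((σ.restrict Omᶜ) univ).toReal : ℂ) := by
    intro N
    rw [← integral_complex_ofReal]
    have h1 : ∀ᵐ x ∂(σ.restrict Omᶜ), (((‖av E m N x‖ ^ 2 : ℝ)) : ℂ) =
        ((N + 1 : ℂ) ^ Fintype.card (Ix E))⁻¹ * ((N + 1 : ℂ) ^ Fintype.card (Ix E))⁻¹ *
          ∑ p ∈ sq E N, ∑ p' ∈ sq E N, (x (bx E m N p - bx E m N p') : ℂ) := by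
      filter_upwards [hchr] with x hx
      have h2 : (((‖av E m N x‖ ^ 2 : ℝ)) : ℂ) =
          av E m N x * (starRingEnd ℂ) (av E m N x) := by
        rw [RCLike.mul_conj]
        push_cast
        rfl
      have h3 : (starRingEnd ℂ) (((N + 1 : ℂ) ^ Fintype.card (Ix E))⁻¹) =
          ((N + 1 : ℂ) ^ Fintype.card (Ix E))⁻¹ := by
        rw [map_inv₀, map_pow, map_add, map_one, Complex.conj_natCast]
      rw [h2]
      unfold av
      rw [map_mul, h3, map_sum]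
      have h4 : ∑ p ∈ sq E N, ∑ p' ∈ sq E N, (x (bx E m N p - bx E m N p') : ℂ) =
          (∑ p ∈ sq E N, (x (bx E m N p) : ℂ)) *
            ∑ p ∈ sq E N, (starRingEnd ℂ) (x (bx E m N p) : ℂ) := by
        rw [Finset.sum_mul_sum]
        refine Finset.sum_congr rfl fun p _ => Finset.sum_congr rfl fun p' _ => ?_
        rw [hx.map_sub, Circle.coe_div, div_eq_mul_inv, ← Circle.coe_inv, Circle.coe_inv_eq_conj]
      rw [h4]
      ring
    rw [integral_congr_ae h1, integral_const_mul, integral_finsetSum]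
    · have h2 : ∀ p ∈ sq E N,
          ∫ x in Omᶜ, ∑ p' ∈ sq E N, (x (bx E m N p - bx E m N p') : ℂ) ∂σ =
          (((σ.restrict Omᶜ) univ).toReal : ℂ) := by
        intro p hp
        rw [integral_finsetSum _ fun p' _ => GAv.integrable_ev _ _,
          Finset.sum_eq_single_of_mem p hp]
        · have h3 : ∀ᵐ x ∂(σ.restrict Omᶜ), (x (bx E m N p - bx E m N p) : ℂ) = 1 := by
            filter_upwards [hchr] with x hx
            rw [sub_self, hx.map_zero, Circle.coe_one]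
          rw [integral_congr_ae h3, integral_const]
          simp [Measure.real]
        · intro p' _ hne
          exact hσ.zero _ (sub_ne_zero.2 fun h4 => hne (bx_injective hm N h4).symm)
      rw [Finset.sum_congr rfl h2, Finset.sum_const, GAv.card_sq, nsmul_eq_mul]
      have h3 : (N + 1 : ℂ) ≠ 0 := by exact_mod_cast Nat.succ_ne_zero N
      have h4 := pow_ne_zero (Fintype.card (Ix E)) h3
      push_cast
      rw [mul_assoc, inv_mul_cancel_left₀ h4]
    · intro p _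
      exact integrable_finset_sum _ fun p' _ => GAv.integrable_ev _ _
  have hreal : ∀ N : ℕ, ∫ x in Omᶜ, ‖av E m N x‖ ^ 2 ∂σ =
      (1 / ((N : ℝ) + 1)) ^ Fintype.card (Ix E) * ((σ.restrict Omᶜ) univ).toReal := by
    intro N
    have h1 := hint N
    have h2 : ((N + 1 : ℂ) ^ Fintype.card (Ix E))⁻¹ * (((σ.restrict Omᶜ) univ).toReal : ℂ) =
        (((1 / ((N : ℝ) + 1)) ^ Fintype.card (Ix E) * ((σ.restrict Omᶜ) univ).toReal : ℝ) : ℂ) := by
      push_cast
      rw [one_div, inv_pow]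
    rw [h2] at h1
    exact_mod_cast h1
  simp only [hreal]
  haveI hne : Nonempty (Ix E) := by
    by_contra hcon
    rw [not_nonempty_iff] at hcon
    have h1 := sum_co (E := E) 1
    rw [Finset.univ_eq_empty, Finset.sum_empty] at h1
    exact zero_ne_one h1
  have h1 := ((tendsto_one_div_add_atTop_nhds_zero_nat (𝕜 := ℝ)).pow
    (Fintype.card (Ix E))).mul_const ((σ.restrict Omᶜ) univ).toReal
  rw [zero_pow (Fintype.card_pos.ne'), zero_mul] at h1
  exact h1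

end

end Pool.Agent.MP_8b8716_co_QG
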