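import Mathlib
import Pool.Agent.Lib.MP_8b8716_co_QG.GSM
import Pool.Agent.Lib.MP_8b8716_co_QG.GAv

/-!
# MP_8b8716_co, project QG, module GCorrLim: the limit of the correlations
-/

set_option autoImplicit false

noncomputable section

namespace Pool.Agent.MP_8b8716_co_QG

open Complex MeasureTheory Filter Topology Set
open NumberField
open Pool.Agent.MP_8b8716_co_HN

section
variable {E : Subfield ℂ} [NumberField E] [Cj E]

namespace GCorrLim

omit [NumberField E] [Cj E] in
theorem measurable_coe (w : E) : Measurable fun y : E → Circle => (y w : ℂ) := by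
  have h : Continuous fun c : Circle => (c : ℂ) := by fun_prop
  exact h.measurable.comp (measurable_pi_apply w)

omit [Cj E] in
theorem measurable_av (m N : ℕ) : Measurable (av E m N) := by
  unfold av
  exact (Finset.measurable_sum _ fun p _ => measurable_coe _).const_mul _

/-- the integrand -/
def ig (E : Subfield ℂ) [NumberField E] (z : E) (m m' : ℕ) (p : ℕ × ℕ) (y : E → Circle) : ℂ :=
  (y z : ℂ) * av E m p.1 y * (starRingEnd ℂ) (av E m' p.2 y)

omit [Cj E] in
theorem measurable_ig (z : E) (m m' : ℕ) (p : ℕ × ℕ) : Measurable (ig E z m m' p) := by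
  unfold ig
  exact ((measurable_coe z).mul (measurable_av m p.1)).mul
    (Complex.continuous_conj.measurable.comp (measurable_av m' p.2))

omit [Cj E] in
theorem norm_ig (z : E) (m m' : ℕ) (p : ℕ × ℕ) (y : E → Circle) :
    ‖ig E z m m' p y‖ = ‖av E m p.1 y‖ * ‖av E m' p.2 y‖ := by
  unfold ig
  rw [norm_mul, norm_mul, Circle.norm_coe, one_mul, RCLike.norm_conj]

theorem norm_ig_le (z : E) (m m' : ℕ) (p : ℕ × ℕ) (y : E → Circle) : ‖ig E z m m' p y‖ ≤ 1 := by
  rw [norm_ig]
  exact mul_le_one₀ (norm_av_le _ _ _) (norm_nonneg _) (norm_av_le _ _ _)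

omit [Cj E] in
theorem norm_ig_le' (z : E) (m m' : ℕ) (p : ℕ × ℕ) (y : E → Circle) :
    ‖ig E z m m' p y‖ ≤ ‖av E m p.1 y‖ ^ 2 + ‖av E m' p.2 y‖ ^ 2 := by
  rw [norm_ig]
  nlinarith [sq_nonneg (‖av E m p.1 y‖ - ‖av E m' p.2 y‖), norm_nonneg (av E m p.1 y),
    norm_nonneg (av E m' p.2 y),
    mul_nonneg (norm_nonneg (av E m p.1 y)) (norm_nonneg (av E m' p.2 y))]

theorem integrable_ig {σ : Measure (E → Circle)} [IsFiniteMeasure σ] (z : E) (m m' : ℕ)
    (p : ℕ × ℕ) : Integrable (ig E z m m' p) σ :=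
  (integrable_const (1 : ℝ)).mono' (measurable_ig z m m' p).aestronglyMeasurable
    (Eventually.of_forall fun y => norm_ig_le z m m' p y)

theorem integrable_sq {σ : Measure (E → Circle)} [IsFiniteMeasure σ] (m N : ℕ) :
    Integrable (fun y => ‖av E m N y‖ ^ 2) σ :=
  (integrable_const (1 : ℝ)).mono' ((measurable_av m N).norm.pow_const 2).aestronglyMeasurable
    (Eventually.of_forall fun y => by
      rw [Real.norm_of_nonneg (by positivity)]
      exact pow_le_one₀ (norm_nonneg _) (norm_av_le _ _ _))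

theorem off {Om : Set (E → Circle)} {σ : Measure (E → Circle)} (hσ : Nice E Om σ) {m m' : ℕ}
    (hm : 0 < m) (hm' : 0 < m') (z : E) :
    Tendsto (fun p : ℕ × ℕ => ∫ y in Omᶜ, ig E z m m' p y ∂σ) (atTop ×ˢ atTop) (𝓝 0) := by
  have := hσ.fin
  have h1 : Tendsto (fun p : ℕ × ℕ => (∫ y in Omᶜ, ‖av E m p.1 y‖ ^ 2 ∂σ) +
      ∫ y in Omᶜ, ‖av E m' p.2 y‖ ^ 2 ∂σ) (atTop ×ˢ atTop) (𝓝 0) := by
    have := ((av_off hσ hm).comp (tendsto_fst (f := atTop) (g := (atTop : Filter ℕ)))).add
      ((av_off hσ hm').comp (tendsto_snd (f := (atTop : Filter ℕ)) (g := atTop)))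
    simpa using this
  refine squeeze_zero_norm (fun p => ?_) h1
  calc ‖∫ y in Omᶜ, ig E z m m' p y ∂σ‖
      ≤ ∫ y in Omᶜ, (‖av E m p.1 y‖ ^ 2 + ‖av E m' p.2 y‖ ^ 2) ∂σ :=
        norm_integral_le_of_norm_le ((integrable_sq m p.1).add (integrable_sq m' p.2))
          (Eventually.of_forall fun y => norm_ig_le' z m m' p y)
    _ = _ := integral_add (integrable_sq m p.1) (integrable_sq m' p.2)

theorem on (hI : I ∈ E) {Om : Set (E → Circle)} {σ : Measure (E → Circle)} (hσ : Nice E Om σ)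
    {m m' : ℕ} (hm : 0 < m) (hm' : 0 < m') (z : E) :
    Tendsto (fun p : ℕ × ℕ => ∫ y in Om, ig E z m m' p y ∂σ) (atTop ×ˢ atTop)
      (𝓝 (∫ y in Om ∩ SM E m ∩ SM E m', (y z : ℂ) ∂σ)) := by
  have := hσ.fin
  have hS : MeasurableSet (SM E m ∩ SM E m') := (measurableSet_SM m).inter (measurableSet_SM m')
  rw [inter_assoc, ← setIntegral_indicator hS]
  refine tendsto_integral_filter_of_dominated_convergence (fun _ => (1 : ℝ))
    (Eventually.of_forall fun p => (measurable_ig z m m' p).aestronglyMeasurable)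
    (Eventually.of_forall fun p => Eventually.of_forall fun y => norm_ig_le z m m' p y)
    (integrable_const _) ?_
  rw [ae_restrict_iff' hσ.meas]
  filter_upwards [hσ.chr, hσ.str] with y hy hs hA
  have key : ∀ {l : ℕ}, 0 < l → Tendsto (fun N => av E l N y) atTop
      (𝓝 (by classical exact if y ∈ SM E l then (1 : ℂ) else 0)) := by
    intro l hl
    by_cases h : y ∈ SM E l
    · simp only [h, if_true]
      exact av_tendsto_one hI hl hy h
    · simp only [h, if_false]
      exact av_tendsto_zero hI hl hy (hs hA) h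
  have h1 := (key hm).comp (tendsto_fst (f := atTop) (g := (atTop : Filter ℕ)))
  have h2 := (key hm').comp (tendsto_snd (f := (atTop : Filter ℕ)) (g := atTop))
  have h3 := (h1.const_mul (y z : ℂ)).mul ((Complex.continuous_conj.tendsto _).comp h2)
  refine Tendsto.congr' (Eventually.of_forall fun p => rfl) (h3.trans (le_of_eq ?_))
  congr 1
  by_cases ha : y ∈ SM E m <;> by_cases hb : y ∈ SM E m' <;> simp [ha, hb, indicator]

end GCorrLim

theorem corr_lim (hI : I ∈ E) {Om : Set (E → Circle)} {σ : Measure (E → Circle)}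
    (hσ : Nice E Om σ) {m m' : ℕ} (hm : 0 < m) (hm' : 0 < m') (z : E) :
    Tendsto (fun p : ℕ × ℕ =>
        ∫ x, (x z : ℂ) * av E m p.1 x * (starRingEnd ℂ) (av E m' p.2 x) ∂σ)
      (atTop ×ˢ atTop) (𝓝 (∫ x in Om ∩ SM E m ∩ SM E m', (x z : ℂ) ∂σ)) := by
  have := hσ.fin
  have h := (GCorrLim.on hI hσ hm hm' z).add (GCorrLim.off hσ hm hm' z)
  rw [add_zero] at h
  refine h.congr fun p => ?_
  exact integral_add_compl hσ.meas (GCorrLim.integrable_ig z m m' p)

end

end Pool.Agent.MP_8b8716_co_QG
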