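import Mathlib

set_option autoImplicit false

/-!
# MP_8b8716_co, project QG: finite fields with an involution
-/

noncomputable section

namespace Pool.Agent.MP_8b8716_co_QG

open Finset

section
variable {K : Type} [Field K] (bar : K →+* K)

/-- the fixed field of the involution -/
def fx : Subfield K := bar.eqLocusField (RingHom.id K)

theorem mem_fx {a : K} : a ∈ fx bar ↔ bar a = a := Iff.rfl

variable (hbar : ∀ a, bar (bar a) = a)

include hbar

theorem trace_mem (a : K) : a + bar a ∈ fx bar := by
  rw [mem_fx, map_add, hbar, add_comm]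

theorem norm_mem (a : K) : a * bar a ∈ fx bar := by
  rw [mem_fx, map_mul, hbar, mul_comm]

theorem bar_ne_zero {a : K} (ha : a ≠ 0) : bar a ≠ 0 := by
  intro h
  apply ha
  rw [← hbar a, h, map_zero]

/-- `K` is two dimensional over the fixed field -/
theorem bijective_pair {a0 : K} (ha0 : bar a0 ≠ a0) :
    Function.Bijective (fun p : fx bar × fx bar => (p.1 : K) + p.2 * a0) := by
  have hd : a0 - bar a0 ≠ 0 := fun h => ha0 (sub_eq_zero.1 h).symm
  have hd' : bar a0 - a0 ≠ 0 := fun h => ha0 (sub_eq_zero.1 h)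
  constructor
  · rintro ⟨⟨x, hx⟩, ⟨y, hy⟩⟩ ⟨⟨x', hx'⟩, ⟨y', hy'⟩⟩ h
    rw [mem_fx] at hx hy hx' hy'
    simp only at h
    have h2 : bar (x + y * a0) = bar (x' + y' * a0) := by rw [h]
    rw [map_add, map_add, map_mul, map_mul, hx, hy, hx', hy'] at h2
    have h3 : (y - y') * (a0 - bar a0) = 0 := by linear_combination h - h2
    have h4 : y = y' := by
      rcases mul_eq_zero.1 h3 with h4 | h4
      · exact sub_eq_zero.1 h4
      · exact absurd h4 hd
    subst h4
    have h5 : x = x' := by linear_combination h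
    subst h5
    rfl
  · intro x
    have hβ : bar ((x - bar x) / (a0 - bar a0)) = (x - bar x) / (a0 - bar a0) := by
      rw [map_div₀, map_sub, map_sub, hbar, hbar, div_eq_div_iff hd' hd]
      ring
    have hα : bar (x - (x - bar x) / (a0 - bar a0) * a0) =
        x - (x - bar x) / (a0 - bar a0) * a0 := by
      rw [map_sub, map_mul, hβ]
      field_simp
      ring
    exact ⟨(⟨_, hα⟩, ⟨_, hβ⟩), by simp⟩

/-- Hilbert 90 -/
theorem hilbert_field (hne : ∃ a, bar a ≠ a) {u : K} (hu : u * bar u = 1) :
    ∃ w, w ≠ 0 ∧ w = u * bar w := by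
  by_cases h : 1 + u = 0
  · obtain ⟨a0, ha0⟩ := hne
    refine ⟨a0 - bar a0, fun h => ha0 (sub_eq_zero.1 h).symm, ?_⟩
    have h1 : u = -1 := by linear_combination h
    rw [h1, map_sub, hbar]
    ring
  · refine ⟨1 + u, h, ?_⟩
    rw [map_add, map_one]
    linear_combination -hu

end

section
variable {K : Type} [Field K] [Fintype K] [DecidableEq K] (bar : K →+* K)
  (hbar : ∀ a, bar (bar a) = a) (hne : ∃ a, bar a ≠ a)

instance instFintypeFx : Fintype (fx bar) := Fintype.ofFinite _

include hbar hne

omit [DecidableEq K] in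
theorem card_eq_fx : Fintype.card K = Fintype.card (fx bar) ^ 2 := by
  obtain ⟨a0, ha0⟩ := hne
  rw [← Fintype.card_congr (Equiv.ofBijective _ (bijective_pair bar hbar ha0)),
    Fintype.card_prod, sq]

theorem card_U (U : Finset K) (hU : ∀ u, u ∈ U ↔ u * bar u = 1) :
    U.card = Fintype.card (fx bar) + 1 := by
  classical
  set n := Fintype.card (fx bar) with hn
  have hn2 : 1 < n := Fintype.one_lt_card
  -- the fibres of `w ↦ w / bar w`
  have h1 : ∀ u ∈ U, ((univ.erase (0 : K)).filter fun w => w / bar w = u).card = n - 1 := by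
    intro u hu
    obtain ⟨w0, hw0, hw⟩ := hilbert_field bar hbar hne ((hU u).1 hu)
    have hb0 : bar w0 ≠ 0 := bar_ne_zero bar hbar hw0
    have h2 : ((univ.erase (0 : fx bar)).image fun a : fx bar => w0 * (a : K)) =
        (univ.erase (0 : K)).filter fun w => w / bar w = u := by
      ext w
      rw [Finset.mem_image, Finset.mem_filter, Finset.mem_erase]
      constructor
      · rintro ⟨⟨a, ha⟩, ha0, rfl⟩
        rw [Finset.mem_erase] at ha0
        have ha1 : a ≠ 0 := fun h => ha0.1 (Subtype.ext h)
        rw [mem_fx] at ha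
        refine ⟨⟨mul_ne_zero hw0 ha1, Finset.mem_univ _⟩, ?_⟩
        rw [map_mul, ha, mul_div_mul_right _ _ ha1, div_eq_iff hb0]
        exact hw
      · rintro ⟨⟨hw1, -⟩, hwu⟩
        have hb1 : bar w ≠ 0 := bar_ne_zero bar hbar hw1
        rw [div_eq_iff hb1] at hwu
        have ha : bar (w / w0) = w / w0 := by
          rw [map_div₀, div_eq_div_iff hb0 hw0]
          linear_combination bar w * hw - bar w0 * hwu
        refine ⟨⟨w / w0, ha⟩, ?_, ?_⟩
        · rw [Finset.mem_erase]
          refine ⟨fun h => ?_, Finset.mem_univ _⟩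
          have h3 : w / w0 = 0 := congrArg Subtype.val h
          rw [div_eq_zero_iff] at h3
          rcases h3 with h3 | h3
          · exact hw1 h3
          · exact hw0 h3
        · field_simp
    rw [← h2, Finset.card_image_of_injective, Finset.card_erase_of_mem (Finset.mem_univ _),
      Finset.card_univ]
    intro a b hab
    exact Subtype.ext (mul_left_cancel₀ hw0 hab)
  have h2 : (univ.erase (0 : K)).card = ∑ u ∈ U,
      ((univ.erase (0 : K)).filter fun w => w / bar w = u).card := by
    refine Finset.card_eq_sum_card_fiberwise (f := fun w : K => w / bar w) ?_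
    intro w hw
    have hw0 : w ≠ 0 := (Finset.mem_erase.1 (Finset.mem_coe.1 hw)).1
    have hb0 : bar w ≠ 0 := bar_ne_zero bar hbar hw0
    rw [Finset.mem_coe, hU, map_div₀, hbar]
    field_simp
  rw [Finset.sum_congr rfl h1, Finset.sum_const, smul_eq_mul,
    Finset.card_erase_of_mem (Finset.mem_univ _), Finset.card_univ, card_eq_fx bar hbar hne,
    ← hn] at h2
  obtain ⟨m, hm⟩ : ∃ m, n = m + 2 := ⟨n - 2, by omega⟩
  rw [hm] at h2 ⊢
  have h3 : (m + 2) ^ 2 - 1 = (m + 3) * (m + 1) := by
    have : (m + 2) ^ 2 = (m + 3) * (m + 1) + 1 := by ring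
    omega
  have h4 : m + 2 - 1 = m + 1 := by omega
  rw [h3, h4] at h2
  have h5 : m + 3 = U.card := Nat.eq_of_mul_eq_mul_right (by omega) h2
  omega

end

end Pool.Agent.MP_8b8716_co_QG
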