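import Mathlib
import Pool.Agent.Lib.MP_8b8716_co_QF.GapB
import Pool.Agent.Lib.MP_8b8716_co_QG.Defs
import Pool.Agent.Lib.MP_8b8716_co_QG.GFld

set_option autoImplicit false
set_option linter.unusedSectionVars false

/-!
# MP_8b8716_co, project QG, module GField: the fourth moment in a finite field with an involution
-/

noncomputable section

namespace Pool.Agent.MP_8b8716_co_QG

open Finset
open Pool.Agent.MP_8b8716_co_QF (rep fourth_moment)

section
variable {K : Type} [Field K] [Fintype K] [DecidableEq K] (bar : K →+* K)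
  (hbar : ∀ a, bar (bar a) = a) (hne : ∃ a, bar a ≠ a)

omit [Fintype K] in
/-- a nonzero element is in at most two ways the sum of two elements of norm one -/
theorem rep_le_two (U : Finset K) (hU : ∀ u, u ∈ U ↔ u * bar u = 1) {w : K} (hw : w ≠ 0) :
    rep U w ≤ 2 := by
  unfold rep
  have hprod : ∀ a b : K, a * bar a = 1 → b * bar b = 1 → a + b = w → a * b * bar w = w := by
    intro a b ha hb hab
    rw [← hab, map_add]
    linear_combination b * ha + a * hb
  rcases ((U ×ˢ U).filter fun p => p.1 + p.2 = w).eq_empty_or_nonempty with h0 | ⟨⟨a, b⟩, hab⟩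
  · rw [h0]; simp
  · rw [Finset.mem_filter, Finset.mem_product, hU, hU] at hab
    obtain ⟨⟨ha, hb⟩, hs⟩ := hab
    simp only at ha hb hs
    refine le_trans (Finset.card_le_card (t := {(a, b), (b, a)}) ?_) Finset.card_le_two
    rintro ⟨c, d⟩ hcd
    rw [Finset.mem_filter, Finset.mem_product, hU, hU] at hcd
    obtain ⟨⟨hc, hd⟩, hs'⟩ := hcd
    simp only at hc hd hs'
    have h1 := hprod a b ha hb hs
    have h2 := hprod c d hc hd hs'
    have hbw : bar w ≠ 0 := by
      intro h
      rw [h, mul_zero] at h1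
      exact hw h1.symm
    have h3 : a * b = c * d := mul_right_cancel₀ hbw (h1.trans h2.symm)
    have h4 : (c - a) * (c - b) = 0 := by linear_combination h3 + c * hs' - c * hs
    rw [Finset.mem_insert, Finset.mem_singleton]
    rcases mul_eq_zero.1 h4 with h5 | h5
    · left
      have hca : c = a := sub_eq_zero.1 h5
      have hdb : d = b := by
        rw [hca, ← hs] at hs'
        exact add_left_cancel hs'
      rw [hca, hdb]
    · right
      have hca : c = b := sub_eq_zero.1 h5
      have hdb : d = a := by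
        rw [hca, ← hs, add_comm a b] at hs'
        exact add_left_cancel hs'
      rw [hca, hdb]

include hbar hne

/-- linear functionals vanish at few elements of norm one -/
theorem few_units (U : Finset K)
    (hU : ∀ u, u ∈ U ↔ u * bar u = 1) (s : K) (hs : s ≠ 0) (χ : AddChar K ℂ) (hχ : χ ≠ 1) :
    (U.filter fun u => ∀ a : K, bar a = a → χ (u * (a * s)) = 1).card ≤ 2 := by
  classical
  rcases (U.filter fun u => ∀ a : K, bar a = a → χ (u * (a * s)) = 1).eq_empty_or_nonempty
    with h0 | ⟨u, hu⟩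
  · rw [h0]; simp
  · refine le_trans (Finset.card_le_card (t := {u, -u}) ?_) Finset.card_le_two
    intro v hv
    rw [Finset.mem_insert, Finset.mem_singleton]
    rw [Finset.mem_filter, hU] at hu hv
    obtain ⟨hu1, hu2⟩ := hu
    obtain ⟨hv1, hv2⟩ := hv
    have hu0 : u ≠ 0 := by
      intro h; rw [h, zero_mul] at hu1; exact zero_ne_one hu1
    have hb0 : bar u ≠ 0 := bar_ne_zero bar hbar hu0
    by_cases h : bar (v / u) = v / u
    · have h1 : (v / u) * (v / u) = 1 := by
        nth_rewrite 2 [← h]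
        rw [map_div₀, div_mul_div_comm, hu1, hv1, div_one]
      have h2 : (v - u) * (v + u) = 0 := by
        field_simp at h1
        linear_combination h1
      rcases mul_eq_zero.1 h2 with h3 | h3
      · left; linear_combination h3
      · right; linear_combination h3
    · exfalso
      apply hχ
      ext x
      rw [AddChar.one_apply]
      obtain ⟨⟨⟨α, hα⟩, ⟨β, hβ⟩⟩, hx⟩ := (bijective_pair bar hbar h).2 (x / (u * s))
      simp only at hx
      rw [mem_fx] at hα hβ
      have h1 : x = u * (α * s) + v * (β * s) := by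
        field_simp at hx
        linear_combination -hx
      rw [h1, AddChar.map_add_eq_mul, hu2 α hα, hv2 β hβ, one_mul]

end

/-- the spectral gap by the fourth moment -/
theorem gapAt_moment {Q : Set ℕ} {lam : ℝ} (h0 : 0 ≤ lam)
    (hQ : ∀ q ∈ Q, 2 ≤ lam ^ 4 * (q + 1)) : GapAt Q lam := by
  refine ⟨h0, ?_⟩
  intro K _ _ _ bar hbar hne hcard U hU
  obtain ⟨q, hq, hcard⟩ := hcard
  have hq2 := hQ q hq
  have hfx := card_eq_fx bar hbar hne
  have hqn : Fintype.card (fx bar) = q := by
    have h1 : Fintype.card (fx bar) ^ 2 = q ^ 2 := by rw [← hfx, hcard]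
    exact Nat.pow_left_injective (n := 2) two_ne_zero h1
  have hUc := card_U bar hbar hne U hU
  rw [hqn] at hUc
  have hq1 : 2 ≤ q := by
    rw [← hqn]
    exact Fintype.one_lt_card
  have hq1' : (2 : ℝ) ≤ q := by exact_mod_cast hq1
  have hUc' : (U.card : ℝ) = q + 1 := by rw [hUc]; push_cast; rfl
  have hn0 : (0 : ℝ) < (q : ℝ) + 1 := by linarith
  have hn3 : 2 * ((q : ℝ) + 1) ^ 3 ≤ (lam * (q + 1)) ^ 4 := by
    calc 2 * ((q : ℝ) + 1) ^ 3 ≤ lam ^ 4 * (q + 1) * (q + 1) ^ 3 := by gcongr
      _ = (lam * (q + 1)) ^ 4 := by ring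
  have hln : 0 ≤ lam * ((q : ℝ) + 1) := mul_nonneg h0 hn0.le
  refine ⟨?_, ?_⟩
  · rw [hUc']
    by_contra hcon
    push Not at hcon
    have h1 : (lam * ((q : ℝ) + 1)) ^ 4 < 2 ^ 4 := by
      gcongr
    have h2 : (3 : ℝ) ^ 3 ≤ ((q : ℝ) + 1) ^ 3 := by
      gcongr
      linarith
    norm_num at h1 h2
    linarith
  · intro χ hχ
    have hχ0 : χ ≠ 0 := hχ
    have hU0 : (0 : K) ∉ U := by
      rw [hU, zero_mul]
      exact zero_ne_one
    have hmul : ∀ c ∈ U, ∀ d ∈ U, c * d ∈ U := by
      intro c hc d hd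
      rw [hU] at *
      rw [map_mul]
      linear_combination (d * bar d) * hc + hd
    have hm := fourth_moment U (by omega) hU0 hmul (fun w hw => rep_le_two bar U hU hw) χ hχ0
    rw [hcard, hUc'] at hm
    push_cast at hm
    rw [hUc']
    have h1 : ((q : ℝ) + 1) * ‖∑ c ∈ U, χ c‖ ^ 4 ≤ ((q : ℝ) + 1) * (2 * ((q : ℝ) + 1) ^ 3) := by
      nlinarith [sq_nonneg ((q : ℝ)), pow_nonneg (by linarith : (0 : ℝ) ≤ q) 3,
        pow_nonneg (by linarith : (0 : ℝ) ≤ q) 4]
    have h2 : ‖∑ c ∈ U, χ c‖ ^ 4 ≤ (lam * ((q : ℝ) + 1)) ^ 4 :=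
      (le_of_mul_le_mul_left h1 hn0).trans hn3
    exact (pow_le_pow_iff_left₀ (norm_nonneg _) hln (by norm_num)).1 h2

end Pool.Agent.MP_8b8716_co_QG
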