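import Mathlib
import Pool.Agent.Lib.MP_8b8716_co_QG.Defs
import Pool.Agent.Lib.MP_8b8716_co_HN.Fld

set_option autoImplicit false

/-!
# MP_8b8716_co, project QG, module GHyp: the field `E = L(i)`
-/

noncomputable section

namespace Pool.Agent.MP_8b8716_co_QG

open NumberField
open Pool.Agent.MP_8b8716_co_HN

namespace GHyp

variable (L : Subfield ℝ)

/-- the inclusion of `L` in `L(i)` -/
def emb : L →+* fldPlane L :=
  (Complex.ofRealHom.comp L.subtype).codRestrict (fldPlane L).toSubring fun x =>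
    ofReal_mem_fldPlane.2 x.2

theorem coe_emb (x : L) : ((emb L x : fldPlane L) : ℂ) = ((x : ℝ) : ℂ) := rfl

theorem I_mem : Complex.I ∈ fldPlane L := by
  rw [mem_fldPlane, Complex.I_re, Complex.I_im]
  exact ⟨L.zero_mem, L.one_mem⟩

/-- the number `i` -/
def ii : fldPlane L := ⟨Complex.I, I_mem L⟩

theorem ii_sq : ii L * ii L = -1 := Subtype.ext Complex.I_mul_I

instance instCj : Cj (fldPlane L) where
  mem z hz := by
    rw [mem_fldPlane] at hz ⊢
    rw [Complex.conj_re, Complex.conj_im]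
    exact ⟨hz.1, L.neg_mem hz.2⟩

theorem cj_emb (x : L) : cj (fldPlane L) (emb L x) = emb L x := by
  apply Subtype.ext
  rw [coe_cj, coe_emb, Complex.conj_ofReal]

theorem cj_ii : cj (fldPlane L) (ii L) = -ii L := by
  apply Subtype.ext
  rw [coe_cj]
  exact Complex.conj_I

theorem exists_emb_add (z : fldPlane L) : ∃ x y : L, z = emb L x + emb L y * ii L := by
  have hz := mem_fldPlane.1 z.2
  refine ⟨⟨_, hz.1⟩, ⟨_, hz.2⟩, Subtype.ext ?_⟩
  exact (Complex.re_add_im _).symm

/-- a real element of `L(i)` is in `L` -/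
theorem exists_emb {z : fldPlane L} (h : cj (fldPlane L) z = z) : ∃ x : L, emb L x = z := by
  have hz := mem_fldPlane.1 z.2
  refine ⟨⟨_, hz.1⟩, Subtype.ext ?_⟩
  have h2 : (starRingEnd ℂ) (z : ℂ) = z := by
    rw [← coe_cj, h]
  exact Complex.conj_eq_iff_re.1 h2

instance instNF [NumberField L] : NumberField (fldPlane L) where
  to_charZero := inferInstance
  to_finiteDimensional := by
    let f : (L × L) →ₗ[ℚ] fldPlane L :=
      { toFun := fun p => emb L p.1 + emb L p.2 * ii L
        map_add' := by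
          intro p q
          simp only [Prod.fst_add, Prod.snd_add, map_add]
          ring
        map_smul' := by
          intro c p
          have h (x : L) : emb L (c • x) = c • emb L x := by
            rw [Algebra.smul_def, Algebra.smul_def, map_mul, eq_ratCast, eq_ratCast, map_ratCast]
          simp only [Prod.smul_fst, Prod.smul_snd, h, RingHom.id_apply, smul_add, smul_mul_assoc] }
    apply Module.Finite.of_surjective f
    intro z
    obtain ⟨x, y, h⟩ := exists_emb_add L z
    exact ⟨(x, y), h.symm⟩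

theorem euc [NumberField L] : Euc (fldPlane L) := by
  have halg : ∀ z ∈ fldPlane L, IsAlgebraic ℚ z := by
    intro z hz
    have h : IsAlgebraic ℚ (⟨z, hz⟩ : fldPlane L) := Algebra.IsAlgebraic.isAlgebraic _
    exact (isAlgebraic_algebraMap_iff (A := ℂ) (algebraMap (fldPlane L) ℂ).injective).2 h
  refine ⟨I_mem L, fun z hz => ofReal_mem_fldPlane.2 hz.1, halg, ?_⟩
  have hc : ({z : ℂ | IsAlgebraic ℚ z}).Countable := Algebraic.countable ℚ ℂ
  exact (hc.mono (s₁ := (fldPlane L : Set ℂ)) halg).to_subtype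

/-- the inclusion of the rings of integers -/
def eO : 𝓞 L →+* 𝓞 (fldPlane L) := RingOfIntegers.mapRingHom (emb L)

theorem io_eO (x : 𝓞 L) : io (fldPlane L) (eO L x) = emb L (x : L) := rfl

theorem cO_eO (x : 𝓞 L) : cO (fldPlane L) (eO L x) = eO L x := by
  apply io_injective
  rw [io_cO, io_eO, cj_emb]

theorem exists_eO {z : 𝓞 (fldPlane L)} (h : cO (fldPlane L) z = z) : ∃ x : 𝓞 L, eO L x = z := by
  have h1 : cj (fldPlane L) (io (fldPlane L) z) = io (fldPlane L) z := by
    rw [← io_cO, h]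
  obtain ⟨x, hx⟩ := exists_emb L h1
  have hi : IsIntegral ℤ x := by
    have h2 : IsIntegral ℤ (emb L x) := by
      rw [hx]
      exact RingOfIntegers.isIntegral_coe z
    exact (isIntegral_algHom_iff ((emb L).toIntAlgHom) (emb L).injective).1 h2
  refine ⟨⟨x, hi⟩, ?_⟩
  apply io_injective
  rw [io_eO]
  exact hx

/-- the number `i` as an algebraic integer -/
def iO : 𝓞 (fldPlane L) := ⟨ii L, by
  refine ⟨Polynomial.X ^ 2 + 1, ?_, ?_⟩
  · monicity!
  · rw [Polynomial.eval₂_add, Polynomial.eval₂_X_pow, Polynomial.eval₂_one, pow_two, ii_sq]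
    ring⟩

theorem io_iO : io (fldPlane L) (iO L) = ii L := rfl

theorem iO_sq : iO L * iO L = -1 := by
  apply io_injective
  rw [map_mul, io_iO, ii_sq, map_neg, map_one]

theorem cO_iO : cO (fldPlane L) (iO L) = -iO L := by
  apply io_injective
  rw [io_cO, io_iO, cj_ii, map_neg, io_iO]

/-- half-integral elements -/
theorem exists_half {s a b : 𝓞 L} (h : s * (a ^ 2 + 1) = 4 * b) :
    ∃ Y : 𝓞 (fldPlane L), 2 * Y = eO L (s * a) + eO L s * iO L ∧
      Y * cO (fldPlane L) Y = eO L (s * b) ∧ Y - cO (fldPlane L) Y = eO L s * iO L := by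
  set E := fldPlane L
  have h2 : (2 : E) ≠ 0 := two_ne_zero
  set y : E := emb L (s : L) * (emb L (a : L) + ii L) / 2 with hy
  have hL : (s : L) * ((a : L) ^ 2 + 1) = 4 * (b : L) := by
    have := congrArg (algebraMap (𝓞 L) L) h
    rwa [map_mul, map_add, map_pow, map_one, map_mul, map_ofNat] at this
  have hE : emb L (s : L) * (emb L (a : L) ^ 2 + 1) = 4 * emb L (b : L) := by
    have := congrArg (emb L) hL
    rwa [map_mul, map_add, map_pow, map_one, map_mul, map_ofNat] at this
  have h2y : 2 * y = emb L (s : L) * (emb L (a : L) + ii L) := by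
    rw [hy, mul_div_cancel₀ _ h2]
  have hq : y ^ 2 - emb L (s : L) * emb L (a : L) * y + emb L (s : L) * emb L (b : L) = 0 := by
    have h3 : 4 * (y ^ 2 - emb L (s : L) * emb L (a : L) * y + emb L (s : L) * emb L (b : L)) =
        (2 * y) ^ 2 - 2 * (emb L (s : L) * emb L (a : L)) * (2 * y) +
          emb L (s : L) * (4 * emb L (b : L)) := by ring
    rw [← hE, h2y] at h3
    have h4 : (4 : E) ≠ 0 := by
      have : (4 : E) = 2 * 2 := by norm_num
      rw [this]
      exact mul_ne_zero h2 h2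
    apply mul_left_cancel₀ h4
    rw [h3, mul_zero]
    linear_combination (emb L (s : L)) ^ 2 * ii_sq L
  have hint : IsIntegral ℤ y := by
    have hint2 : IsIntegral (𝓞 E) y := by
      refine ⟨Polynomial.X ^ 2 - Polynomial.C (eO L (s * a)) * Polynomial.X +
        Polynomial.C (eO L (s * b)), ?_, ?_⟩
      · monicity!
      · rw [Polynomial.eval₂_add, Polynomial.eval₂_sub, Polynomial.eval₂_X_pow,
          Polynomial.eval₂_mul, Polynomial.eval₂_C, Polynomial.eval₂_C, Polynomial.eval₂_X]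
        have e1 : algebraMap (𝓞 E) E (eO L (s * a)) = emb L (s : L) * emb L (a : L) := by
          rw [← map_mul]
          rfl
        have e2 : algebraMap (𝓞 E) E (eO L (s * b)) = emb L (s : L) * emb L (b : L) := by
          rw [← map_mul]
          rfl
        rw [e1, e2, hq]
    exact isIntegral_trans (A := 𝓞 E) y hint2
  have hcj : cj E y = emb L (s : L) * (emb L (a : L) - ii L) / 2 := by
    rw [hy, map_div₀, map_mul, map_add, cj_emb, cj_emb, cj_ii, map_ofNat, sub_eq_add_neg]
  have hY : io E (⟨y, hint⟩ : 𝓞 E) = y := rfl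
  have ea : io E (eO L (s * a)) = emb L (s : L) * emb L (a : L) := by
    rw [← map_mul]
    rfl
  have eb : io E (eO L (s * b)) = emb L (s : L) * emb L (b : L) := by
    rw [← map_mul]
    rfl
  refine ⟨⟨y, hint⟩, ?_, ?_, ?_⟩
  · apply io_injective
    rw [map_mul (io (fldPlane L)), map_add (io (fldPlane L)), ea, map_mul (io (fldPlane L)),
      map_ofNat, hY, io_eO, io_iO, h2y]
    ring
  · apply io_injective
    rw [map_mul (io (fldPlane L)), io_cO, hY, eb, hcj, hy]
    have h4 : emb L (s : L) * (emb L (a : L) + ii L) / 2 *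
        (emb L (s : L) * (emb L (a : L) - ii L) / 2) =
        emb L (s : L) * (emb L (s : L) * (emb L (a : L) ^ 2 + 1)) / 4 := by
      linear_combination (-(emb L (s : L)) ^ 2 / 4) * ii_sq L
    rw [h4, hE]
    ring
  · apply io_injective
    rw [map_sub, map_mul (io (fldPlane L)), io_cO, hY, io_eO, io_iO, hcj, hy]
    ring

theorem iO_mul_mem {P : Ideal (𝓞 (fldPlane L))} {z : 𝓞 (fldPlane L)} (h : z * iO L ∈ P) :
    z ∈ P := by
  have h1 : z * iO L * (-iO L) ∈ P := P.mul_mem_right _ h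
  have h2 : z * iO L * (-iO L) = z := by
    linear_combination (-z) * iO_sq L
  rwa [h2] at h1

/-- the ring of integers of `L(i)` is generated by a half-integral element -/
theorem exists_eO_add {Y : 𝓞 (fldPlane L)} (h3 : Y - cO (fldPlane L) Y = iO L) (z : 𝓞 (fldPlane L)) :
    ∃ x y : 𝓞 L, z = eO L x + eO L y * Y := by
  have hy : cO (fldPlane L) (-iO L * (z - cO (fldPlane L) z)) =
      -iO L * (z - cO (fldPlane L) z) := by
    rw [map_mul, map_neg, map_sub, cO_iO, cO_cO]
    ring
  obtain ⟨y, hy'⟩ := exists_eO L hy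
  have hx : cO (fldPlane L) (z - eO L y * Y) = z - eO L y * Y := by
    rw [map_sub, map_mul, cO_eO]
    have h4 : cO (fldPlane L) Y = Y - iO L := by rw [← h3]; ring
    rw [h4, hy']
    linear_combination (-(z - cO (fldPlane L) z)) * iO_sq L
  obtain ⟨x, hx'⟩ := exists_eO L hx
  exact ⟨x, y, by rw [hx']; ring⟩

/-- the residue field of a stable ideal -/
theorem card_eq {Y : 𝓞 (fldPlane L)} (h3 : Y - cO (fldPlane L) Y = iO L)
    {P : Ideal (𝓞 (fldPlane L))} (hP : Stab (fldPlane L) P) :
    Nat.card (𝓞 (fldPlane L) ⧸ P) = Nat.card (𝓞 L ⧸ P.comap (eO L)) ^ 2 := by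
  set φ : 𝓞 L ⧸ P.comap (eO L) →+* 𝓞 (fldPlane L) ⧸ P := Ideal.quotientMap P (eO L) le_rfl with hφ
  have hφm (x : 𝓞 L) : φ (Ideal.Quotient.mk _ x) = Ideal.Quotient.mk P (eO L x) :=
    Ideal.quotientMap_mk
  let f : ((𝓞 L ⧸ P.comap (eO L)) × (𝓞 L ⧸ P.comap (eO L))) →+ 𝓞 (fldPlane L) ⧸ P :=
    { toFun := fun p => φ p.1 + φ p.2 * Ideal.Quotient.mk P Y
      map_zero' := by simp
      map_add' := by
        intro p q
        simp only [Prod.fst_add, Prod.snd_add, map_add]
        ring }
  have hf (p) : f p = φ p.1 + φ p.2 * Ideal.Quotient.mk P Y := rfl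
  have hinj : Function.Injective f := by
    rw [injective_iff_map_eq_zero]
    rintro ⟨x, y⟩ hxy
    obtain ⟨x, rfl⟩ := Ideal.Quotient.mk_surjective x
    obtain ⟨y, rfl⟩ := Ideal.Quotient.mk_surjective y
    rw [hf, hφm, hφm, ← map_mul, ← map_add, Ideal.Quotient.eq_zero_iff_mem] at hxy
    have h4 := hP.2 _ hxy
    rw [map_add, map_mul, cO_eO, cO_eO] at h4
    have h5 := P.sub_mem hxy h4
    have h6 : eO L x + eO L y * Y - (eO L x + eO L y * cO (fldPlane L) Y) = eO L y * iO L := by
      rw [← h3]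
      ring
    rw [h6] at h5
    have h7 := iO_mul_mem L h5
    have h8 : eO L x ∈ P := by
      have := P.sub_mem hxy (P.mul_mem_right Y h7)
      rwa [add_sub_cancel_right] at this
    rw [Prod.mk_eq_zero, Ideal.Quotient.eq_zero_iff_mem, Ideal.Quotient.eq_zero_iff_mem]
    exact ⟨h8, h7⟩
  have hsurj : Function.Surjective f := by
    intro z
    obtain ⟨z, rfl⟩ := Ideal.Quotient.mk_surjective z
    obtain ⟨x, y, rfl⟩ := exists_eO_add L h3 z
    refine ⟨(Ideal.Quotient.mk _ x, Ideal.Quotient.mk _ y), ?_⟩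
    rw [hf, hφm, hφm, ← map_mul, ← map_add]
  rw [← Nat.card_congr (Equiv.ofBijective f ⟨hinj, hsurj⟩), Nat.card_prod, pow_two]

theorem bb [NumberField L] {Q : Set ℕ} (h : Cond Q (𝓞 L)) : BB (fldPlane L) Q := by
  intro P hP
  obtain ⟨⟨a, b, hab⟩, hc⟩ := h
  obtain ⟨Y, h1, h2, h3⟩ := exists_half L (s := 1) (a := a) (b := b) (by rw [one_mul, hab])
  rw [one_mul, map_one, one_mul] at h1
  rw [map_one, one_mul] at h3
  have hne : (1 : 𝓞 (fldPlane L)) ∉ P := fun h => hP.1.ne_top ((Ideal.eq_top_iff_one P).2 h)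
  have hcard := card_eq L h3 hP
  refine ⟨⟨_, ?_, hcard⟩, Y, ?_⟩
  · by_contra hQ
    have hP0 : P ≠ ⊥ := Ring.ne_bot_of_isMaximal_of_not_isField hP.1
      (RingOfIntegers.not_isField (fldPlane L))
    have : Finite (𝓞 (fldPlane L) ⧸ P) := Ideal.finiteQuotientOfFreeOfNeBot P hP0
    have hinj : Function.Injective (Ideal.quotientMap P (eO L) (le_refl (P.comap (eO L)))) :=
      Ideal.quotientMap_injective
    have hfin : Finite (𝓞 L ⧸ P.comap (eO L)) := Finite.of_injective _ hinj
    have := hP.1.isPrime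
    have hpp : (P.comap (eO L)).IsPrime := Ideal.comap_isPrime (eO L) P
    have hmax : (P.comap (eO L)).IsMaximal :=
      Ideal.Quotient.maximal_of_isField _ (Finite.isField_of_domain _)
    obtain ⟨a', s, hs, b', hb', he⟩ := hc _ hmax hfin hQ
    obtain ⟨Z, _, g2, g3⟩ := exists_half L he
    have g4 : Z * cO (fldPlane L) Z ∈ P := by
      rw [g2, map_mul]
      exact P.mul_mem_left _ hb'
    have g5 : Z ∈ P ∧ cO (fldPlane L) Z ∈ P := by
      rcases hP.1.isPrime.mem_or_mem g4 with g | g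
      · exact ⟨g, hP.2 _ g⟩
      · have := hP.2 _ g
        rw [cO_cO] at this
        exact ⟨this, g⟩
    have g6 := P.sub_mem g5.1 g5.2
    rw [g3] at g6
    exact hs (iO_mul_mem L g6)
  · intro h4
    have h5 : cO (fldPlane L) Y - Y = (-1) * iO L := by
      rw [← h3]
      ring
    rw [h5] at h4
    have h6 := iO_mul_mem L h4
    exact hne (by simpa using P.neg_mem h6)

end GHyp

theorem exists_field {L : Subfield ℝ} [NumberField L] {Q : Set ℕ} (h : Cond Q (𝓞 L)) :
    ∃ E : Subfield ℂ, ∃ (_ : NumberField E) (_ : Cj E), Euc E ∧ BB E Q ∧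
      ∀ z ∈ E, z.re ∈ L ∧ z.im ∈ L :=
  ⟨fldPlane L, GHyp.instNF L, GHyp.instCj L, GHyp.euc L, GHyp.bb L h, fun _ hz => hz⟩

end Pool.Agent.MP_8b8716_co_QG
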