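import Mathlib
import Pool.Agent.Lib.MP_8b8716_co_QF.GapA
import Pool.Agent.Lib.MP_8b8716_co_QG.Defs

set_option autoImplicit false

/-!
# MP_8b8716_co, project QG: the mixing inequality
-/

noncomputable section

namespace Pool.Agent.MP_8b8716_co_QG

open NumberField
open Pool.Agent.MP_8b8716_co_HN

theorem mixing {lam : ℝ} (h0 : 0 ≤ lam) {A : Type*} [AddCommGroup A] [Fintype A] [DecidableEq A]
    (U : Finset A) (hU : U.Nonempty) (hgap : ∀ χ : AddChar A ℂ, χ ≠ 1 → ‖∑ u ∈ U, χ u‖ ≤ lam * U.card)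
    (f g : A → ℝ) (hf : ∀ h, 0 ≤ f h ∧ f h ≤ 1) (hg : ∀ h, 0 ≤ g h ∧ g h ≤ 1) :
    FF lam (mean f) (mean g) ≤ cross U f g := by
  have hA : (0 : ℝ) < Fintype.card A := by
    have : Nonempty A := ⟨0⟩
    exact_mod_cast Fintype.card_pos
  have hUc : (0 : ℝ) < (U.card : ℝ) := by exact_mod_cast hU.card_pos
  have h := Pool.Agent.MP_8b8716_co_QF.mixing_group U lam h0
    (fun ψ hψ => hgap ψ fun h1 => hψ (h1.trans AddChar.one_eq_zero)) f g hf hg
    (mean f) (mean g) rfl rfl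
  unfold FF cross
  rw [le_div_iff₀ (mul_pos hA hUc)]
  linarith

end Pool.Agent.MP_8b8716_co_QG
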