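import Mathlib
import Pool.Agent.Lib.MP_8b8716_co_HN.Basic
import Pool.Agent.Lib.MP_8b8716_co_QG.Defs
import Pool.Agent.Lib.MP_8b8716_co_QG.GCo
import Pool.Agent.Lib.MP_8b8716_co_QG.GSM

set_option autoImplicit false

/-!
# MP_8b8716_co, project QG: the functions `ψ ^ m`
-/

noncomputable section

namespace Pool.Agent.MP_8b8716_co_QG

open Complex MeasureTheory Filter Topology Set
open NumberField
open Pool.Agent.MP_8b8716_co_HN

section psi

variable {E : Subfield ℂ} [NumberField E] [Cj E]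

/-! ### Evaluations -/

omit [NumberField E] [Cj E] in
private theorem gpsi_meas (c : E) : Measurable fun y : E → Circle => (y c : ℂ) := by
  have h2 : Measurable fun u : Circle => (u : ℂ) :=
    (by fun_prop : Continuous fun u : Circle => (u : ℂ)).measurable
  exact h2.comp (measurable_pi_apply c)

omit [NumberField E] [Cj E] in
private theorem gpsi_int (σ : Measure (E → Circle)) [IsFiniteMeasure σ] (c : E) :
    Integrable (fun y : E → Circle => (y c : ℂ)) σ :=
  Integrable.of_bound (gpsi_meas c).aestronglyMeasurable 1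
    (Eventually.of_forall fun y => (Circle.norm_coe (y c)).le)

theorem psi_unit {Om : Set (E → Circle)} {σ : Measure (E → Circle)} (hσ : Nice E Om σ) {m : ℕ}
    {c : E} (hc : c ≠ 0) (h0 : ∫ x, (x c : ℂ) ∂σ = 0) :
    ‖∫ x in Om ∩ SM E m, (x c : ℂ) ∂σ‖ ≤ (σ (Om \ SM E m)).toReal := by
  have := hσ.fin
  have h1 := integral_add_compl hσ.meas (gpsi_int σ c)
  rw [h0, hσ.zero c hc, add_zero] at h1
  have h2 := integral_inter_add_sdiff (measurableSet_SM m)
    ((gpsi_int σ c).integrableOn (s := Om))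
  rw [h1] at h2
  have h3 : ∫ y in Om ∩ SM E m, (y c : ℂ) ∂σ = -∫ y in Om \ SM E m, (y c : ℂ) ∂σ :=
    eq_neg_of_add_eq_zero_left h2
  rw [h3, norm_neg]
  have h4 := norm_setIntegral_le_of_norm_le_const (μ := σ) (s := Om \ SM E m) (C := 1)
    (f := fun y : E → Circle => (y c : ℂ)) (measure_lt_top _ _)
    (fun y _ => (Circle.norm_coe (y c)).le)
  rw [one_mul] at h4
  exact h4

/-! ### The tail -/

theorem psi_tail {Om : Set (E → Circle)} {k : ℕ} {σ : Fin k → Measure (E → Circle)}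
    (hσ : ∀ i, Nice E Om (σ i)) {ε : ℝ} (hε : 0 < ε) :
    ∃ m : ℕ, 0 < m ∧ ∀ i, (σ i (Om \ SM E m)).toReal < ε := by
  have h1 : ∀ i, ∀ᶠ n : ℕ in atTop, (σ i (Om \ SM E n.factorial)).toReal < ε := by
    intro i
    have := (hσ i).fin
    have hanti : Antitone fun n : ℕ => Om \ SM E n.factorial := by
      intro m n hmn y hy
      exact ⟨hy.1, fun h => hy.2 (SM_mono (Nat.factorial_dvd_factorial hmn) h)⟩
    have h2 := tendsto_measure_iInter_atTop (μ := σ i)
      (fun n : ℕ => ((hσ i).meas.diff (measurableSet_SM n.factorial)).nullMeasurableSet)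
      hanti ⟨0, measure_ne_top _ _⟩
    have h3 : σ i (⋂ n : ℕ, Om \ SM E n.factorial) = 0 := by
      rw [← nonpos_iff_eq_zero]
      refine le_trans (measure_mono ?_) (ae_iff.1 (hσ i).str).le
      intro y hy
      rw [Set.mem_iInter] at hy
      intro h4
      obtain ⟨m, hm, hm1⟩ := h4 (hy 0).1
      exact (hy m).2 (SM_mono (Nat.dvd_factorial hm le_rfl) hm1)
    rw [h3] at h2
    have h5 : Tendsto (fun n : ℕ => (σ i (Om \ SM E n.factorial)).toReal) atTop (𝓝 0) := by
      have := (ENNReal.tendsto_toReal ENNReal.zero_ne_top).comp h2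
      rw [ENNReal.toReal_zero] at this
      exact this
    exact h5.eventually (gt_mem_nhds hε)
  obtain ⟨n, hn⟩ := (eventually_all.2 h1).exists
  exact ⟨_, n.factorial_pos, hn⟩

/-! ### Continuity -/

theorem psi_cont {Om : Set (E → Circle)} {σ : Measure (E → Circle)} (hσ : Nice E Om σ) {m : ℕ}
    {ε : ℝ} (hε : 0 < ε) : ∃ δ > 0, ∀ z : E, ∀ v ∈ RR E, nrm E (m * v) < δ →
      ‖(∫ x in Om ∩ SM E m, (x (z + m * v) : ℂ) ∂σ) -
        ∫ x in Om ∩ SM E m, (x z : ℂ) ∂σ‖ < ε := by
  have hfin := hσ.fin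
  set S : Set (E → Circle) := Om ∩ SM E m with hS
  have hSm : MeasurableSet S := hσ.meas.inter (measurableSet_SM m)
  have key : ∀ z v : E, ‖(∫ y in S, (y (z + m * v) : ℂ) ∂σ) - ∫ y in S, (y z : ℂ) ∂σ‖ ≤
      ∫ y in S, ‖(y (m * v) : ℂ) - 1‖ ∂σ := by
    intro z v
    rw [← integral_sub (gpsi_int _ _) (gpsi_int _ _)]
    refine (norm_integral_le_integral_norm _).trans (le_of_eq ?_)
    refine integral_congr_ae ?_
    have h1 : ∀ᵐ y ∂(σ.restrict S), IsChar y := ae_restrict_of_ae hσ.chr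
    filter_upwards [h1] with y hy
    rw [hy, Circle.coe_mul]
    have h2 : (y z : ℂ) * (y (m * v) : ℂ) - y z = y z * ((y (m * v) : ℂ) - 1) := by ring
    rw [h2, norm_mul, Circle.norm_coe, one_mul]
  by_contra hcon
  push Not at hcon
  have h1 : ∀ n : ℕ, ∃ z : E, ∃ v ∈ RR E, nrm E (m * v) < 1 / (n + 1 : ℝ) ∧
      ε ≤ ‖(∫ y in S, (y (z + m * v) : ℂ) ∂σ) - ∫ y in S, (y z : ℂ) ∂σ‖ := by
    intro n
    exact hcon (1 / (n + 1 : ℝ)) (by positivity)
  choose z v hv hv1 hv2 using h1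
  have h2 : Tendsto (fun n : ℕ => ∫ y in S, ‖(y (m * v n) : ℂ) - 1‖ ∂σ) atTop
      (𝓝 (∫ y in S, (0 : ℝ) ∂σ)) := by
    refine tendsto_integral_of_dominated_convergence (fun _ => 2) ?_ (integrable_const _) ?_ ?_
    · intro n
      exact (((gpsi_meas _).sub_const 1).norm).aestronglyMeasurable
    · intro n
      refine Eventually.of_forall fun y => ?_
      rw [norm_norm]
      refine (norm_sub_le _ _).trans ?_
      rw [Circle.norm_coe, norm_one]
      norm_num
    · rw [ae_restrict_iff' hSm]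
      refine Eventually.of_forall fun y hy => ?_
      obtain ⟨t, ht⟩ := hy.2
      obtain ⟨C, hC, hC1⟩ := norm_et_sub_one_le t
      have h3 : ∀ n, ‖(y (m * v n) : ℂ) - 1‖ ≤ C * (1 / (n + 1 : ℝ)) := by
        intro n
        rw [ht _ (hv n)]
        exact (hC1 _).trans (mul_le_mul_of_nonneg_left (hv1 n).le hC)
      have h5 : Tendsto (fun n : ℕ => C * (1 / (n + 1 : ℝ))) atTop (𝓝 0) := by
        have := (tendsto_one_div_add_atTop_nhds_zero_nat (𝕜 := ℝ)).const_mul C
        rwa [mul_zero] at this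
      exact squeeze_zero (fun n => norm_nonneg _) h3 h5
  rw [integral_zero] at h2
  have h3 : ε ≤ 0 := ge_of_tendsto' h2 fun n => (hv2 n).trans (key _ _)
  linarith

end psi

end Pool.Agent.MP_8b8716_co_QG
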