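import Mathlib
import Pool.Agent.Lib.MP_8b8716_co_QG.Defs
import Pool.Agent.Lib.MP_8b8716_co_QG.GHil
import Pool.Agent.Lib.MP_8b8716_co_QG.GField

set_option autoImplicit false
set_option linter.unusedSectionVars false

/-!
# MP_8b8716_co, project QG, module GRing: the spectral gap in a finite ring with an involution
-/

noncomputable section

namespace Pool.Agent.MP_8b8716_co_QG

open Finset

namespace GRing

/-! ### Additive characters of a quotient -/

/-- the character induced on the image of a surjective ring homomorphism -/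
def desc {A B : Type} [CommRing A] [CommRing B] (π : A →+* B) (hπ : Function.Surjective π)
    (χ : AddChar A ℂ) (h : ∀ a, π a = 0 → χ a = 1) : AddChar B ℂ where
  toFun b := χ (Function.surjInv hπ b)
  map_zero_eq_one' := h _ (Function.surjInv_eq hπ 0)
  map_add_eq_mul' x y := by
    have h1 : χ (Function.surjInv hπ (x + y) - (Function.surjInv hπ x + Function.surjInv hπ y)) = 1 := by
      apply h
      rw [map_sub, map_add, Function.surjInv_eq hπ, Function.surjInv_eq hπ, Function.surjInv_eq hπ,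
        sub_self]
    have h2 : Function.surjInv hπ (x + y) =
        (Function.surjInv hπ (x + y) - (Function.surjInv hπ x + Function.surjInv hπ y)) +
          (Function.surjInv hπ x + Function.surjInv hπ y) := by ring
    rw [h2, AddChar.map_add_eq_mul, h1, one_mul, AddChar.map_add_eq_mul]

theorem desc_apply {A B : Type} [CommRing A] [CommRing B] (π : A →+* B)
    (hπ : Function.Surjective π) (χ : AddChar A ℂ) (h : ∀ a, π a = 0 → χ a = 1) (a : A) :
    desc π hπ χ h (π a) = χ a := by
  show χ (Function.surjInv hπ (π a)) = χ a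
  have h1 : χ (Function.surjInv hπ (π a) - a) = 1 := by
    apply h
    rw [map_sub, Function.surjInv_eq hπ, sub_self]
  have h2 : Function.surjInv hπ (π a) = (Function.surjInv hπ (π a) - a) + a := by ring
  rw [h2, AddChar.map_add_eq_mul, h1, one_mul]

/-- the character `x ↦ χ (c x)` -/
def mulChar {A : Type} [CommRing A] (χ : AddChar A ℂ) (c : A) : AddChar A ℂ where
  toFun x := χ (c * x)
  map_zero_eq_one' := by rw [mul_zero, AddChar.map_zero_eq_one]
  map_add_eq_mul' x y := by rw [mul_add, AddChar.map_add_eq_mul]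

theorem mulChar_apply {A : Type} [CommRing A] (χ : AddChar A ℂ) (c x : A) :
    mulChar χ c x = χ (c * x) := rfl

/-! ### Lifting elements of norm one -/

section lift

variable {A : Type} [CommRing A] [Finite A] (bar : A →+* A) (hbar : ∀ a, bar (bar a) = a)
  (hid : ∀ I : Ideal A, ∀ a ∈ I, bar a ∈ I)
  (hne : ∀ M : Ideal A, M.IsMaximal → ∃ a, bar a - a ∉ M)

include hbar hid hne in
theorem lift_one (I : Ideal A) {u : A} (h : u * bar u - 1 ∈ I) :
    ∃ u', u' * bar u' = 1 ∧ u' - u ∈ I := by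
  obtain ⟨v, hv⟩ := hil_unit bar hbar (fun M _ => hid M) hne u
  set w := v + u * bar v with hw
  have hbw : IsUnit (bar w) := hv.map bar
  obtain ⟨x, hx⟩ := hbw
  obtain ⟨y, hy⟩ := hv
  have hx1 : bar w * (x⁻¹ : Aˣ) = 1 := by rw [← hx]; exact x.mul_inv
  have hy1 : w * (y⁻¹ : Aˣ) = 1 := by rw [← hy]; exact y.mul_inv
  have hbx : w * bar ((x⁻¹ : Aˣ) : A) = 1 := by
    have := congrArg bar hx1
    rwa [map_mul, hbar, map_one] at this
  refine ⟨w * (x⁻¹ : Aˣ), ?_, ?_⟩
  · rw [map_mul]
    calc w * ((x⁻¹ : Aˣ) : A) * (bar w * bar ((x⁻¹ : Aˣ) : A))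
        = (bar w * ((x⁻¹ : Aˣ) : A)) * (w * bar ((x⁻¹ : Aˣ) : A)) := by ring
      _ = 1 := by rw [hx1, hbx, one_mul]
  · have h1 : w * ((x⁻¹ : Aˣ) : A) - u = -((u * bar u - 1) * (v * ((x⁻¹ : Aˣ) : A))) := by
      have h2 : bar w = bar v + bar u * v := by rw [hw, map_add, map_mul, hbar]
      have h3 : w - u * bar w = -((u * bar u - 1) * v) := by rw [h2, hw]; ring
      calc w * ((x⁻¹ : Aˣ) : A) - u
          = w * ((x⁻¹ : Aˣ) : A) - u * (bar w * ((x⁻¹ : Aˣ) : A)) := by rw [hx1, mul_one]
        _ = (w - u * bar w) * ((x⁻¹ : Aˣ) : A) := by ring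
        _ = -((u * bar u - 1) * (v * ((x⁻¹ : Aˣ) : A))) := by rw [h3]; ring
    rw [h1]
    exact I.neg_mem (I.mul_mem_right _ h)

end lift

/-! ### The fibres of the reduction -/

section fib

variable {A B : Type} [CommRing A] [Fintype A] [DecidableEq A] [CommRing B] [Fintype B]
  [DecidableEq B] (bar : A →+* A) (hbar : ∀ a, bar (bar a) = a)
  (hid : ∀ I : Ideal A, ∀ a ∈ I, bar a ∈ I)
  (hne : ∀ M : Ideal A, M.IsMaximal → ∃ a, bar a - a ∉ M)
  (barB : B →+* B) (π : A →+* B) (hπ : Function.Surjective π) (hc : ∀ a, barB (π a) = π (bar a))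
  (U : Finset A) (hU : ∀ u, u ∈ U ↔ u * bar u = 1) (V : Finset B)
  (hV : ∀ v, v ∈ V ↔ v * barB v = 1)

include hc hU hV in
theorem map_mem {u : A} (hu : u ∈ U) : π u ∈ V := by
  rw [hV, hc, ← map_mul, (hU u).1 hu, map_one]

include hbar hid hne hπ hc hU hV in
theorem fib_card : ∃ κ : ℕ, ∀ v ∈ V, (U.filter fun u => π u = v).card = κ := by
  refine ⟨(U.filter fun u => π u = 1).card, fun v hv => ?_⟩
  obtain ⟨b, rfl⟩ := hπ v
  rw [hV, hc, ← map_mul] at hv
  have h1 : b * bar b - 1 ∈ RingHom.ker π := by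
    rw [RingHom.mem_ker, map_sub, hv, map_one, sub_self]
  obtain ⟨u', hu1, hu2⟩ := lift_one bar hbar hid hne _ h1
  have hu3 : π u' = π b := by
    rw [RingHom.mem_ker, map_sub] at hu2
    exact sub_eq_zero.1 hu2
  symm
  refine Finset.card_bij (fun h _ => u' * h) ?_ ?_ ?_
  · intro h hh
    rw [Finset.mem_filter, hU] at hh ⊢
    refine ⟨?_, ?_⟩
    · rw [map_mul]
      calc u' * h * (bar u' * bar h) = (u' * bar u') * (h * bar h) := by ring
        _ = 1 := by rw [hu1, hh.1, one_mul]
    · rw [map_mul, hh.2, mul_one, hu3]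
  · intro h hh h' hh' he
    have : bar u' * (u' * h) = bar u' * (u' * h') := congrArg (fun z => bar u' * z) he
    rwa [← mul_assoc, ← mul_assoc, mul_comm (bar u') u', hu1, one_mul, one_mul] at this
  · intro u hu
    rw [Finset.mem_filter, hU] at hu
    refine ⟨bar u' * u, ?_, ?_⟩
    · rw [Finset.mem_filter, hU]
      refine ⟨?_, ?_⟩
      · rw [map_mul, hbar]
        calc bar u' * u * (u' * bar u) = (u' * bar u') * (u * bar u) := by ring
          _ = 1 := by rw [hu1, hu.1, one_mul]
      · rw [map_mul, hu.2, ← hu3, ← map_mul, mul_comm, hu1, map_one]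
    · rw [← mul_assoc, hu1, one_mul]

include hbar hid hne hπ hc hU hV in
theorem fib_sum : ∃ κ : ℕ, U.card = κ * V.card ∧
    (∀ F : B → ℂ, ∑ u ∈ U, F (π u) = κ * ∑ v ∈ V, F v) ∧
    (∀ S : Finset B, (U.filter fun u => π u ∈ S).card ≤ κ * S.card) := by
  obtain ⟨κ, hκ⟩ := fib_card bar hbar hid hne barB π hπ hc U hU V hV
  have hm : ∀ u ∈ U, π u ∈ V := fun u hu => map_mem bar barB π hc U hU V hV hu
  refine ⟨κ, ?_, ?_, ?_⟩
  · rw [Finset.card_eq_sum_card_fiberwise (f := π) (t := V) (fun u hu => hm u hu),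
      Finset.sum_congr rfl hκ, Finset.sum_const, smul_eq_mul, mul_comm]
  · intro F
    rw [← Finset.sum_fiberwise_of_maps_to (g := π) (t := V) hm, Finset.mul_sum]
    refine Finset.sum_congr rfl fun v hv => ?_
    rw [Finset.sum_congr rfl (g := fun _ => F v)
      (fun u hu => by rw [(Finset.mem_filter.1 hu).2]), Finset.sum_const, hκ v hv, nsmul_eq_mul]
  · intro S
    have h1 : (U.filter fun u => π u ∈ S) ⊆
        (S ∩ V).biUnion fun v => U.filter fun u => π u = v := by
      intro u hu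
      rw [Finset.mem_filter] at hu
      rw [Finset.mem_biUnion]
      exact ⟨π u, Finset.mem_inter.2 ⟨hu.2, hm u hu.1⟩, Finset.mem_filter.2 ⟨hu.1, rfl⟩⟩
    calc (U.filter fun u => π u ∈ S).card
        ≤ ((S ∩ V).biUnion fun v => U.filter fun u => π u = v).card := Finset.card_le_card h1
      _ ≤ ∑ v ∈ S ∩ V, (U.filter fun u => π u = v).card := Finset.card_biUnion_le
      _ = ∑ v ∈ S ∩ V, κ := Finset.sum_congr rfl fun v hv => hκ v (Finset.mem_inter.1 hv).2
      _ = (S ∩ V).card * κ := by rw [Finset.sum_const, smul_eq_mul]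
      _ ≤ κ * S.card := by
          rw [mul_comm]
          exact Nat.mul_le_mul_left _ (Finset.card_le_card Finset.inter_subset_left)

end fib

/-! ### Residue fields -/

theorem exists_field {Q : Set ℕ} {A : Type} [CommRing A] [Fintype A]
    (bar : A →+* A) (hbar : ∀ a, bar (bar a) = a)
    (hid : ∀ I : Ideal A, ∀ a ∈ I, bar a ∈ I)
    (hmax : ∀ M : Ideal A, M.IsMaximal →
      (∃ a, bar a - a ∉ M) ∧ ∃ q ∈ Q, Nat.card (A ⧸ M) = q ^ 2)
    (M : Ideal A) (hM : M.IsMaximal) :
    ∃ (K : Type) (_ : Field K) (_ : Fintype K) (_ : DecidableEq K) (barK : K →+* K)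
      (π : A →+* K), Function.Surjective π ∧ (∀ a, π a = 0 ↔ a ∈ M) ∧
      (∀ a, barK (π a) = π (bar a)) ∧ (∀ x, barK (barK x) = x) ∧ (∃ x, barK x ≠ x) ∧
      ∃ q ∈ Q, Fintype.card K = q ^ 2 := by
  classical
  obtain ⟨⟨a, ha⟩, q, hq, hcard⟩ := hmax M hM
  have hfin : Finite (A ⧸ M) := inferInstance
  let fK : Field (A ⧸ M) := Ideal.Quotient.field M
  let ftK : Fintype (A ⧸ M) := Fintype.ofFinite _
  let dK : DecidableEq (A ⧸ M) := Classical.decEq _
  refine ⟨A ⧸ M, fK, ftK, dK, Ideal.quotientMap M bar (fun a ha => hid M a ha),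
    Ideal.Quotient.mk M, Ideal.Quotient.mk_surjective,
    fun a => Ideal.Quotient.eq_zero_iff_mem, fun a => rfl, ?_, ?_, q, hq, ?_⟩
  · intro x
    obtain ⟨x, rfl⟩ := Ideal.Quotient.mk_surjective x
    show Ideal.Quotient.mk M (bar (bar x)) = Ideal.Quotient.mk M x
    rw [hbar]
  · refine ⟨Ideal.Quotient.mk M a, fun h => ha ?_⟩
    exact Ideal.Quotient.eq.1 h
  · rw [← hcard, Nat.card_eq_fintype_card]

/-! ### Minimal ideals -/

theorem exists_minimal {A : Type} [CommRing A] [Finite A] [Nontrivial A] :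
    ∃ s1 : A, s1 ≠ 0 ∧ ∀ x : A, x * s1 ≠ 0 → ∃ c, s1 = c * (x * s1) := by
  classical
  have : Finite (Ideal A) := Finite.of_injective (fun J : Ideal A => (J : Set A))
    SetLike.coe_injective
  obtain h | ⟨s, hs, -⟩ := IsAtomic.eq_bot_or_exists_atom_le (⊤ : Ideal A)
  · exact absurd h top_ne_bot
  · obtain ⟨s1, h1, h2⟩ := Submodule.exists_mem_ne_zero_of_ne_bot hs.1
    refine ⟨s1, h2, fun x hx => ?_⟩
    have h3 : Ideal.span {x * s1} ≤ s := by
      rw [Ideal.span_singleton_le_iff_mem]
      exact s.mul_mem_left _ h1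
    have h4 : Ideal.span {x * s1} ≠ ⊥ := by
      rwa [Ne, Ideal.span_singleton_eq_bot]
    have h5 : Ideal.span {x * s1} = s := (hs.le_iff.1 h3).resolve_left h4
    rw [← h5, Ideal.mem_span_singleton'] at h1
    obtain ⟨c, hc⟩ := h1
    exact ⟨c, hc.symm⟩

/-- the annihilator of an element -/
def ann {A : Type} [CommRing A] (s : A) : Ideal A where
  carrier := {a | a * s = 0}
  add_mem' := by
    intro a b ha hb
    simp only [Set.mem_ofPred_eq] at ha hb ⊢
    rw [add_mul, ha, hb, add_zero]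
  zero_mem' := by simp
  smul_mem' := by
    intro c a ha
    simp only [Set.mem_ofPred_eq, smul_eq_mul] at ha ⊢
    rw [mul_assoc, ha, mul_zero]

theorem mem_ann {A : Type} [CommRing A] (s a : A) : a ∈ ann s ↔ a * s = 0 := Iff.rfl

theorem ann_max {A : Type} [CommRing A] {s1 : A} (h0 : s1 ≠ 0)
    (h : ∀ x : A, x * s1 ≠ 0 → ∃ c, s1 = c * (x * s1)) : (ann s1).IsMaximal := by
  rw [Ideal.isMaximal_iff]
  refine ⟨?_, ?_⟩
  · rw [mem_ann, one_mul]; exact h0
  · intro J x hJ hx hxJ
    rw [mem_ann] at hx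
    obtain ⟨c, hc⟩ := h x hx
    have h1 : 1 - c * x ∈ J := by
      apply hJ
      rw [mem_ann]
      calc (1 - c * x) * s1 = s1 - c * (x * s1) := by ring
        _ = 0 := by rw [← hc, sub_self]
    have h2 : (1 : A) = (1 - c * x) + c * x := by ring
    rw [h2]
    exact J.add_mem h1 (J.mul_mem_left _ hxJ)

/-! ### The nilpotent case -/

theorem norm_sum_le_of_translate {A : Type} [CommRing A] [Fintype A] [DecidableEq A]
    (U T : Finset A) (hT0 : (0 : A) ∈ T) (hTadd : ∀ a ∈ T, ∀ b ∈ T, a + b ∈ T)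
    (hTneg : ∀ a ∈ T, -a ∈ T)
    (hUT : ∀ t ∈ T, ∀ u ∈ U, u * (1 + t) ∈ U) (hTT : ∀ t ∈ T, ∀ t' ∈ T, t * t' = 0)
    (χ : AddChar A ℂ) :
    ‖∑ u ∈ U, χ u‖ ≤ (U.filter fun u => ∀ t ∈ T, χ (u * t) = 1).card := by
  classical
  have hTc : (0 : ℝ) < T.card := by
    exact_mod_cast Finset.card_pos.2 ⟨0, hT0⟩
  have h1 : ∀ t ∈ T, ∑ u ∈ U, χ u = ∑ u ∈ U, χ (u * (1 + t)) := by
    intro t ht
    symm
    refine Finset.sum_bij' (fun u _ => u * (1 + t)) (fun u _ => u * (1 - t)) ?_ ?_ ?_ ?_ ?_
    · intro u hu; exact hUT t ht u hu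
    · intro u hu
      have := hUT (-t) (hTneg t ht) u hu
      rwa [← sub_eq_add_neg] at this
    · intro u hu
      have := hTT t ht t ht
      linear_combination (-u) * this
    · intro u hu
      have := hTT t ht t ht
      linear_combination (-u) * this
    · intro u hu; rfl
  have h2 : (T.card : ℂ) * ∑ u ∈ U, χ u = ∑ u ∈ U, χ u * ∑ t ∈ T, χ (u * t) := by
    calc (T.card : ℂ) * ∑ u ∈ U, χ u = ∑ t ∈ T, ∑ u ∈ U, χ u := by
          rw [Finset.sum_const, nsmul_eq_mul]
      _ = ∑ t ∈ T, ∑ u ∈ U, χ (u * (1 + t)) := Finset.sum_congr rfl h1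
      _ = ∑ u ∈ U, ∑ t ∈ T, χ (u * (1 + t)) := Finset.sum_comm
      _ = ∑ u ∈ U, χ u * ∑ t ∈ T, χ (u * t) := by
          refine Finset.sum_congr rfl fun u _ => ?_
          rw [Finset.mul_sum]
          refine Finset.sum_congr rfl fun t _ => ?_
          rw [mul_add, mul_one, AddChar.map_add_eq_mul]
  have h3 : ∀ u ∈ U, ¬ (∀ t ∈ T, χ (u * t) = 1) → ∑ t ∈ T, χ (u * t) = 0 := by
    intro u _ hu
    push Not at hu
    obtain ⟨t0, ht0, hne⟩ := hu
    have h4 : ∑ t ∈ T, χ (u * t) = χ (u * t0) * ∑ t ∈ T, χ (u * t) := by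
      conv_lhs =>
        rw [← Finset.sum_bij' (s := T) (t := T) (f := fun t => χ (u * (t + t0)))
          (g := fun t => χ (u * t)) (fun t _ => t + t0) (fun t _ => t + -t0)
          (fun t ht => hTadd t ht t0 ht0) (fun t ht => hTadd t ht (-t0) (hTneg t0 ht0))
          (fun t _ => by ring) (fun t _ => by ring) (fun t _ => rfl)]
      rw [Finset.mul_sum]
      refine Finset.sum_congr rfl fun t _ => ?_
      rw [mul_add, AddChar.map_add_eq_mul, mul_comm]
    have h5 : (1 - χ (u * t0)) * ∑ t ∈ T, χ (u * t) = 0 := by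
      rw [sub_mul, one_mul, ← h4, sub_self]
    rcases mul_eq_zero.1 h5 with h | h
    · exact absurd (sub_eq_zero.1 h).symm hne
    · exact h
  have h4 : ∀ u ∈ U, ‖χ u * ∑ t ∈ T, χ (u * t)‖ ≤
      if (∀ t ∈ T, χ (u * t) = 1) then (T.card : ℝ) else 0 := by
    intro u hu
    split_ifs with h
    · rw [norm_mul, AddChar.norm_apply, one_mul]
      refine (norm_sum_le _ _).trans ?_
      simp [AddChar.norm_apply]
    · rw [h3 u hu h, mul_zero, norm_zero]
  have h5 : (T.card : ℝ) * ‖∑ u ∈ U, χ u‖ ≤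
      T.card * (U.filter fun u => ∀ t ∈ T, χ (u * t) = 1).card := by
    calc (T.card : ℝ) * ‖∑ u ∈ U, χ u‖ = ‖(T.card : ℂ) * ∑ u ∈ U, χ u‖ := by
          rw [norm_mul, Complex.norm_natCast]
      _ = ‖∑ u ∈ U, χ u * ∑ t ∈ T, χ (u * t)‖ := by rw [h2]
      _ ≤ ∑ u ∈ U, ‖χ u * ∑ t ∈ T, χ (u * t)‖ := norm_sum_le _ _
      _ ≤ ∑ u ∈ U, if (∀ t ∈ T, χ (u * t) = 1) then (T.card : ℝ) else 0 :=
          Finset.sum_le_sum h4
      _ = T.card * (U.filter fun u => ∀ t ∈ T, χ (u * t) = 1).card := by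
          rw [← Finset.sum_filter, Finset.sum_const, nsmul_eq_mul, mul_comm]
  exact le_of_mul_le_mul_left h5 hTc

/-! ### The case of a faithful character -/

theorem gap_faithful {Q : Set ℕ} {lam : ℝ} (hg : GapAt Q lam) {A : Type} [CommRing A] [Fintype A]
    [DecidableEq A] (bar : A →+* A) (hbar : ∀ a, bar (bar a) = a)
    (hid : ∀ I : Ideal A, ∀ a ∈ I, bar a ∈ I)
    (hmax : ∀ M : Ideal A, M.IsMaximal →
      (∃ a, bar a - a ∉ M) ∧ ∃ q ∈ Q, Nat.card (A ⧸ M) = q ^ 2)
    (U : Finset A) (hU : ∀ u, u ∈ U ↔ u * bar u = 1) (χ : AddChar A ℂ) (hχ : χ ≠ 1)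
    (hf : ∀ a : A, a ≠ 0 → ∃ x, χ (a * x) ≠ 1) :
    ‖∑ u ∈ U, χ u‖ ≤ lam * U.card := by
  classical
  have hnt : Nontrivial A := by
    by_contra h
    rw [not_nontrivial_iff_subsingleton] at h
    apply hχ
    ext a
    rw [Subsingleton.elim a 0, AddChar.map_zero_eq_one, AddChar.one_apply]
  obtain ⟨s1, hs0, hs⟩ := exists_minimal (A := A)
  have hM := ann_max hs0 hs
  obtain ⟨hne, -⟩ := hmax _ hM
  obtain ⟨K, _, _, _, barK, π, hπ, hker, hc, hbK, hneK, q, hq, hcard⟩ :=
    exists_field bar hbar hid hmax (ann s1) hM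
  let V : Finset K := Finset.univ.filter fun v => v * barK v = 1
  have hV : ∀ v, v ∈ V ↔ v * barK v = 1 := fun v => by simp [V]
  obtain ⟨h2, hgap⟩ := hg.2 K barK hbK hneK ⟨q, hq, hcard⟩ V hV
  have hV0 : (0 : ℝ) < V.card := by
    exact_mod_cast Finset.card_pos.2 ⟨1, (hV 1).2 (by rw [map_one, one_mul])⟩
  have hker' : ∀ a, π a = 0 ↔ a * s1 = 0 := fun a => (hker a).trans (mem_ann _ _)
  -- the ideal generated by `s1` is stable
  have hst : ∃ c, bar s1 = c * s1 := by
    have := hid (Ideal.span {s1}) s1 (Ideal.mem_span_singleton_self s1)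
    rw [Ideal.mem_span_singleton'] at this
    obtain ⟨c, hc⟩ := this
    exact ⟨c, hc.symm⟩
  obtain ⟨c0, hc0⟩ := hst
  by_cases hsq : s1 * s1 = 0
  · -- the nilpotent case
    let T : Finset A := Finset.univ.filter fun t => (∃ c, t = c * s1) ∧ t + bar t = 0
    have hT : ∀ t, t ∈ T ↔ (∃ c, t = c * s1) ∧ t + bar t = 0 := fun t => by simp [T]
    have hTT : ∀ t ∈ T, ∀ t' ∈ T, t * t' = 0 := by
      intro t ht t' ht'
      obtain ⟨⟨c, rfl⟩, -⟩ := (hT t).1 ht
      obtain ⟨⟨c', rfl⟩, -⟩ := (hT t').1 ht'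
      linear_combination (c * c') * hsq
    have hex : ∃ s0 ∈ T, s0 ≠ 0 := by
      by_contra hno
      push Not at hno
      obtain ⟨a, ha⟩ := hne
      have hmem : ∀ x : A, x * s1 - bar (x * s1) = 0 := by
        intro x
        apply hno
        rw [hT]
        refine ⟨⟨x - bar x * c0, ?_⟩, ?_⟩
        · rw [map_mul, hc0]; ring
        · rw [map_sub, hbar]; ring
      have h1 := hmem 1
      have h3 := hmem a
      rw [one_mul] at h1
      rw [map_mul] at h3
      apply ha
      rw [mem_ann]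
      linear_combination (-1 : A) * h3 + bar a * h1
    obtain ⟨s0, hs0T, hs00⟩ := hex
    obtain ⟨⟨c1, hc1⟩, hs0b⟩ := (hT s0).1 hs0T
    have hann : ∀ a, a * s1 = 0 ↔ a * s0 = 0 := by
      intro a
      constructor
      · intro h
        rw [hc1]
        linear_combination c1 * h
      · intro h
        rw [hc1] at hs00
        obtain ⟨c, hc⟩ := hs c1 hs00
        rw [← hc1] at hc
        rw [hc]
        linear_combination c * h
    have hle := norm_sum_le_of_translate U T ?_ ?_ ?_ ?_ hTT χ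
    · obtain ⟨κ, hκ1, -, hκ3⟩ := fib_sum bar hbar hid (fun M hM => (hmax M hM).1) barK π hπ hc U hU
        V hV
      have hd : ∀ a, π a = 0 → mulChar χ s0 a = 1 := by
        intro a ha
        rw [hker', hann] at ha
        rw [mulChar_apply, mul_comm, ha, AddChar.map_zero_eq_one]
      have hd1 : desc π hπ (mulChar χ s0) hd ≠ 1 := by
        intro h
        obtain ⟨x, hx⟩ := hf s0 hs00
        apply hx
        have := desc_apply π hπ (mulChar χ s0) hd x
        rw [h, AddChar.one_apply, mulChar_apply] at this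
        exact this.symm
      have hfew := few_units barK hbK hneK V hV 1 one_ne_zero _ hd1
      have hsub : (U.filter fun u => ∀ t ∈ T, χ (u * t) = 1) ⊆
          U.filter fun u => π u ∈ (V.filter fun v => ∀ a : K, barK a = a →
            desc π hπ (mulChar χ s0) hd (v * (a * 1)) = 1) := by
        intro u hu
        rw [Finset.mem_filter] at hu ⊢
        refine ⟨hu.1, Finset.mem_filter.2 ⟨map_mem bar barK π hc U hU V hV hu.1, ?_⟩⟩
        intro a ha
        obtain ⟨b, rfl⟩ := hπ a
        rw [mul_one, ← map_mul, desc_apply, mulChar_apply]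
        rw [hc] at ha
        have hb : (bar b - b) * s0 = 0 := by
          rw [← hann, ← hker', map_sub, ha, sub_self]
        have hbT : b * s0 ∈ T := by
          rw [hT]
          refine ⟨⟨b * c1, by rw [hc1]; ring⟩, ?_⟩
          rw [map_mul]
          linear_combination bar b * hs0b - hb
        have := hu.2 _ hbT
        rwa [show s0 * (u * b) = u * (b * s0) by ring]
      have hcard2 := Finset.card_le_card hsub
      have h6 : (U.filter fun u => ∀ t ∈ T, χ (u * t) = 1).card ≤ κ * 2 :=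
        hcard2.trans ((hκ3 _).trans (Nat.mul_le_mul_left _ hfew))
      calc ‖∑ u ∈ U, χ u‖ ≤ ((U.filter fun u => ∀ t ∈ T, χ (u * t) = 1).card : ℝ) := hle
        _ ≤ ((κ * 2 : ℕ) : ℝ) := by exact_mod_cast h6
        _ = κ * 2 := by push_cast; ring
        _ ≤ κ * (lam * V.card) := by gcongr
        _ = lam * U.card := by rw [hκ1]; push_cast; ring
    · rw [hT]; exact ⟨⟨0, by ring⟩, by rw [map_zero, add_zero]⟩
    · intro a ha b hb
      rw [hT] at ha hb ⊢
      obtain ⟨⟨c, hc⟩, ha2⟩ := ha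
      obtain ⟨⟨c', hc'⟩, hb2⟩ := hb
      refine ⟨⟨c + c', by rw [hc, hc']; ring⟩, ?_⟩
      rw [map_add]
      linear_combination ha2 + hb2
    · intro a ha
      rw [hT] at ha ⊢
      obtain ⟨⟨c, hc⟩, ha2⟩ := ha
      refine ⟨⟨-c, by rw [hc]; ring⟩, ?_⟩
      rw [map_neg]
      linear_combination -ha2
    · intro t ht u hu
      rw [hU] at hu ⊢
      have h1 := hTT t ht t ht
      have h3 := ((hT t).1 ht).2
      rw [map_mul, map_add, map_one]
      have h4 : bar t = -t := by linear_combination h3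
      rw [h4]
      linear_combination (1 - t * t) * hu - h1
  · -- the idempotent case
    obtain ⟨c, hcs⟩ := hs s1 hsq
    obtain ⟨e, he⟩ : ∃ e, e = c * s1 := ⟨_, rfl⟩
    have hes : e * s1 = s1 := by rw [he]; linear_combination -hcs
    have hee : e * e = e := by
      linear_combination e * he + c * hes - he
    have he0 : e ≠ 0 := by
      intro h
      rw [h, zero_mul] at hes
      exact hs0 hes.symm
    have hbe : bar e = e := by
      have h1 : e * bar e = bar e := by
        have h0 : bar e = bar c * (c0 * s1) := by rw [he, map_mul, hc0]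
        linear_combination (e - 1) * h0 + (bar c * c0) * hes
      have h3 := congrArg bar h1
      rw [map_mul, hbar, mul_comm] at h3
      rw [← h1, h3]
    have hann : ∀ a, a * s1 = 0 ↔ a * e = 0 := by
      intro a
      constructor
      · intro h
        rw [he]
        linear_combination c * h
      · intro h
        linear_combination s1 * h - a * hes
    let lift : K → A := fun v => e * Function.surjInv hπ v + (1 - e)
    have hlift : ∀ v ∈ V, lift v * bar (lift v) = 1 := by
      intro v hv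
      have h1 : π (Function.surjInv hπ v * bar (Function.surjInv hπ v) - 1) = 0 := by
        rw [map_sub, map_mul, ← hc, Function.surjInv_eq hπ, map_one, (hV v).1 hv, sub_self]
      rw [hker', hann] at h1
      show (e * Function.surjInv hπ v + (1 - e)) * bar (e * Function.surjInv hπ v + (1 - e)) = 1
      rw [map_add, map_sub, map_mul, map_one, hbe]
      generalize Function.surjInv hπ v = b at *
      linear_combination h1 * e + (b * bar b - b - bar b + 1) * hee - (b * bar b - 1) * hee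
    have hkey : ∀ v ∈ V, ∑ u ∈ U, χ u = ∑ u ∈ U, χ (u * lift v) := by
      intro v hv
      have hl := hlift v hv
      symm
      refine Finset.sum_bij' (fun u _ => u * lift v) (fun u _ => u * bar (lift v)) ?_ ?_ ?_ ?_ ?_
      · intro u hu
        rw [hU] at hu ⊢
        rw [map_mul]
        linear_combination (lift v * bar (lift v)) * hu + hl
      · intro u hu
        rw [hU] at hu ⊢
        rw [map_mul, hbar]
        linear_combination (lift v * bar (lift v)) * hu + hl
      · intro u hu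
        linear_combination u * hl
      · intro u hu
        linear_combination u * hl
      · intro u hu; rfl
    have h3 : (V.card : ℂ) * ∑ u ∈ U, χ u = ∑ u ∈ U, ∑ v ∈ V, χ (u * lift v) := by
      rw [Finset.sum_comm, ← nsmul_eq_mul, ← Finset.sum_const]
      exact Finset.sum_congr rfl hkey
    have h4 : ∀ u ∈ U, ‖∑ v ∈ V, χ (u * lift v)‖ ≤ lam * V.card := by
      intro u hu
      have hd : ∀ a, π a = 0 → mulChar χ (u * e) a = 1 := by
        intro a ha
        rw [hker', hann] at ha
        rw [mulChar_apply, show u * e * a = u * (a * e) by ring, ha, mul_zero,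
          AddChar.map_zero_eq_one]
      have hd1 : desc π hπ (mulChar χ (u * e)) hd ≠ 1 := by
        intro h
        have hue : u * e ≠ 0 := by
          intro h6
          apply he0
          have h7 := (hU u).1 hu
          linear_combination (bar u) * h6 - e * h7
        obtain ⟨x, hx⟩ := hf (u * e) hue
        apply hx
        have := desc_apply π hπ (mulChar χ (u * e)) hd x
        rw [h, AddChar.one_apply, mulChar_apply] at this
        exact this.symm
      have h5 : ∑ v ∈ V, χ (u * lift v) =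
          χ (u * (1 - e)) * ∑ v ∈ V, desc π hπ (mulChar χ (u * e)) hd v := by
        rw [Finset.mul_sum]
        refine Finset.sum_congr rfl fun v _ => ?_
        show χ (u * (e * Function.surjInv hπ v + (1 - e))) =
          χ (u * (1 - e)) * χ (u * e * Function.surjInv hπ v)
        rw [← AddChar.map_add_eq_mul]
        congr 1
        ring
      rw [h5, norm_mul, AddChar.norm_apply, one_mul]
      exact hgap _ hd1
    have h5 : (V.card : ℝ) * ‖∑ u ∈ U, χ u‖ ≤ V.card * (lam * U.card) := by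
      calc (V.card : ℝ) * ‖∑ u ∈ U, χ u‖ = ‖(V.card : ℂ) * ∑ u ∈ U, χ u‖ := by
            rw [norm_mul, Complex.norm_natCast]
        _ = ‖∑ u ∈ U, ∑ v ∈ V, χ (u * lift v)‖ := by rw [h3]
        _ ≤ ∑ u ∈ U, ‖∑ v ∈ V, χ (u * lift v)‖ := norm_sum_le _ _
        _ ≤ ∑ u ∈ U, lam * V.card := Finset.sum_le_sum h4
        _ = V.card * (lam * U.card) := by rw [Finset.sum_const, nsmul_eq_mul]; ring
    exact le_of_mul_le_mul_left h5 hV0

/-- the ideal of trivial multiples of a character -/
def triv {A : Type} [CommRing A] (χ : AddChar A ℂ) : Ideal A where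
  carrier := {a | ∀ x, χ (a * x) = 1}
  add_mem' := by
    intro a b ha hb x
    rw [add_mul, AddChar.map_add_eq_mul, ha, hb, one_mul]
  zero_mem' := by
    intro x
    rw [zero_mul, AddChar.map_zero_eq_one]
  smul_mem' := by
    intro c a ha x
    rw [smul_eq_mul, show c * a * x = a * (c * x) by ring]
    exact ha _

theorem mem_triv {A : Type} [CommRing A] (χ : AddChar A ℂ) (a : A) :
    a ∈ triv χ ↔ ∀ x, χ (a * x) = 1 := Iff.rfl

theorem gap_aux {Q : Set ℕ} {lam : ℝ} (hg : GapAt Q lam) : ∀ (n : ℕ) (A : Type) [CommRing A]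
    [Fintype A] [DecidableEq A] (bar : A →+* A), (∀ a, bar (bar a) = a) →
    (∀ I : Ideal A, ∀ a ∈ I, bar a ∈ I) →
    (∀ M : Ideal A, M.IsMaximal →
      (∃ a, bar a - a ∉ M) ∧ ∃ q ∈ Q, Nat.card (A ⧸ M) = q ^ 2) →
    ∀ (U : Finset A), (∀ u, u ∈ U ↔ u * bar u = 1) → ∀ (χ : AddChar A ℂ), χ ≠ 1 →
    Fintype.card A = n → ‖∑ u ∈ U, χ u‖ ≤ lam * U.card := by
  intro n
  induction n using Nat.strong_induction_on with
  | _ n ih =>
    intro A _ _ _ bar hbar hid hmax U hU χ hχ hn
    by_cases hI : triv χ = ⊥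
    · apply gap_faithful hg bar hbar hid hmax U hU χ hχ
      intro a ha
      by_contra h
      push Not at h
      have : a ∈ triv χ := h
      rw [hI, Ideal.mem_bot] at this
      exact ha this
    · classical
      set I := triv χ with hIdef
      have : Finite (A ⧸ I) := inferInstance
      let _ : Fintype (A ⧸ I) := Fintype.ofFinite _
      let π : A →+* A ⧸ I := Ideal.Quotient.mk I
      have hπ : Function.Surjective π := Ideal.Quotient.mk_surjective
      have hker : ∀ a, π a = 0 ↔ a ∈ I := fun a => Ideal.Quotient.eq_zero_iff_mem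
      let barB : A ⧸ I →+* A ⧸ I := Ideal.quotientMap I bar (fun a ha => hid I a ha)
      have hc : ∀ a, barB (π a) = π (bar a) := fun a => rfl
      have hd : ∀ a, π a = 0 → χ a = 1 := by
        intro a ha
        have := (hker a).1 ha 1
        rwa [mul_one] at this
      have hd1 : desc π hπ χ hd ≠ 1 := by
        intro h
        apply hχ
        ext a
        rw [← desc_apply π hπ χ hd a, h, AddChar.one_apply, AddChar.one_apply]
      let V : Finset (A ⧸ I) := Finset.univ.filter fun v => v * barB v = 1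
      have hV : ∀ v, v ∈ V ↔ v * barB v = 1 := fun v => by simp [V]
      have hlt : Fintype.card (A ⧸ I) < n := by
        rw [← hn]
        obtain ⟨x, hx, hx0⟩ := Submodule.exists_mem_ne_zero_of_ne_bot hI
        refine Fintype.card_lt_of_surjective_not_injective π hπ fun hinj => hx0 ?_
        apply hinj
        rw [map_zero]
        exact (hker x).2 hx
      have hB1 : ∀ x, barB (barB x) = x := by
        intro x
        obtain ⟨x, rfl⟩ := hπ x
        rw [hc, hc, hbar]
      have hB2 : ∀ J : Ideal (A ⧸ I), ∀ a ∈ J, barB a ∈ J := by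
        intro J a ha
        obtain ⟨a, rfl⟩ := hπ a
        rw [hc]
        exact hid (J.comap π) a ha
      have hB3 : ∀ M : Ideal (A ⧸ I), M.IsMaximal →
          (∃ a, barB a - a ∉ M) ∧ ∃ q ∈ Q, Nat.card ((A ⧸ I) ⧸ M) = q ^ 2 := by
        intro M hM
        have hM' : (M.comap π).IsMaximal := Ideal.comap_isMaximal_of_surjective π hπ
        obtain ⟨⟨a, ha⟩, q, hq, hcard⟩ := hmax _ hM'
        refine ⟨⟨π a, ?_⟩, q, hq, ?_⟩
        · rw [hc, ← map_sub]
          exact ha
        · rw [← hcard]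
          have hs : Function.Surjective ((Ideal.Quotient.mk M).comp π) :=
            Ideal.Quotient.mk_surjective.comp hπ
          have hk : RingHom.ker ((Ideal.Quotient.mk M).comp π) = M.comap π := by
            ext x
            rw [RingHom.mem_ker, RingHom.comp_apply, Ideal.Quotient.eq_zero_iff_mem,
              Ideal.mem_comap]
          rw [← hk]
          exact (Nat.card_congr (RingHom.quotientKerEquivOfSurjective hs).toEquiv).symm
      have hrec := ih _ hlt (A ⧸ I) barB hB1 hB2 hB3 V hV _ hd1 rfl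
      obtain ⟨κ, hκ1, hκ2, -⟩ := fib_sum bar hbar hid (fun M hM => (hmax M hM).1) barB π hπ hc U hU
        V hV
      have h1 : ∑ u ∈ U, χ u = κ * ∑ v ∈ V, desc π hπ χ hd v := by
        rw [← hκ2 (fun v => desc π hπ χ hd v)]
        exact Finset.sum_congr rfl fun u _ => (desc_apply π hπ χ hd u).symm
      rw [h1, norm_mul, Complex.norm_natCast]
      calc (κ : ℝ) * ‖∑ v ∈ V, desc π hπ χ hd v‖ ≤ κ * (lam * V.card) := by gcongr
        _ = lam * U.card := by rw [hκ1]; push_cast; ring

end GRing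

theorem gap_ring {Q : Set ℕ} {lam : ℝ} (hg : GapAt Q lam) {A : Type} [CommRing A] [Fintype A]
    [DecidableEq A] (bar : A →+* A) (hbar : ∀ a, bar (bar a) = a)
    (hid : ∀ I : Ideal A, ∀ a ∈ I, bar a ∈ I)
    (hmax : ∀ M : Ideal A, M.IsMaximal →
      (∃ a, bar a - a ∉ M) ∧ ∃ q ∈ Q, Nat.card (A ⧸ M) = q ^ 2)
    (U : Finset A) (hU : ∀ u, u ∈ U ↔ u * bar u = 1) (χ : AddChar A ℂ) (hχ : χ ≠ 1) :
    ‖∑ u ∈ U, χ u‖ ≤ lam * U.card :=
  GRing.gap_aux hg _ A bar hbar hid hmax U hU χ hχ rfl

end Pool.Agent.MP_8b8716_co_QG
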