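import Mathlib
import Pool.Agent.Lib.MP_8b8716_co_QG.Defs
import Pool.Agent.Lib.MP_8b8716_co_QG.GRR
import Pool.Agent.Lib.MP_8b8716_co_QG.GAM
import Pool.Agent.Lib.MP_8b8716_co_QG.GCo
import Pool.Agent.Lib.MP_8b8716_co_QG.GAp
import Pool.Agent.Lib.MP_8b8716_co_QG.GRing
import Pool.Agent.Lib.MP_8b8716_co_QG.GMix
import Pool.Agent.Lib.MP_8b8716_co_QG.GExLim
import Pool.Agent.Lib.MP_8b8716_co_QG.GLimC
import Pool.Agent.Lib.MP_8b8716_co_QG.GPsi
import Pool.Agent.Lib.MP_8b8716_co_QG.GMean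

set_option autoImplicit false

/-!
# MP_8b8716_co, project QG, module GKey: the mixing inequality for the limits
-/

noncomputable section

namespace Pool.Agent.MP_8b8716_co_QG

open Complex MeasureTheory Filter Topology Set
open NumberField
open Pool.Agent.MP_8b8716_co_HN

namespace GKey

section gen

variable {E : Subfield ℂ} {k : ℕ}

theorem shift_shift (b z : E) (ω : E → Fin k) : shift b (shift z ω) = shift (b + z) ω := by
  funext w
  simp only [shift]
  congr 1
  ring

theorem mp_shift {μ : Measure (E → Fin k)} (hμ : RandCol E k μ) (z : E) :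
    MeasurePreserving (shift z : (E → Fin k) → (E → Fin k)) μ μ := by
  have h := hμ.inv 1 z (by simp)
  have h2 : (fun (ω : E → Fin k) (w : E) => ω (1 * w + z)) = shift z := by
    funext ω w
    simp [shift]
  rwa [h2] at h

end gen

theorem abs_le_add_sq {x η : ℝ} (hη : 0 < η) : |x| ≤ η + x ^ 2 / η := by
  rcases le_or_gt |x| η with h | h
  · have : 0 ≤ x ^ 2 / η := by positivity
    linarith
  · have h1 : |x| ≤ x ^ 2 / η := by
      rw [le_div_iff₀ hη, ← sq_abs x]
      nlinarith [abs_nonneg x]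
    linarith

section PP

variable {lam : ℝ} (hl : 0 ≤ lam)

/-- the positive part of `FF` -/
def PP (lam a b : ℝ) : ℝ := max 0 (FF lam a b)

theorem PP_nonneg (lam a b : ℝ) : 0 ≤ PP lam a b := le_max_left _ _

include hl in
theorem FF_lip {a b a' b' : ℝ} (ha : 0 ≤ a ∧ a ≤ 1) (hb : 0 ≤ b ∧ b ≤ 1) (ha' : 0 ≤ a' ∧ a' ≤ 1)
    (hb' : 0 ≤ b' ∧ b' ≤ 1) :
    |FF lam a b - FF lam a' b'| ≤ (1 + lam) * (|a - a'| + |b - b'|) := by
  have h : FF lam a b - FF lam a' b' = (a - a') * (b - lam / 2 * (1 - a - a')) +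
      (b - b') * (a' - lam / 2 * (1 - b - b')) := by
    unfold FF
    ring
  rw [h]
  have e1 : |b - lam / 2 * (1 - a - a')| ≤ 1 + lam := by
    rw [abs_le]
    constructor <;> nlinarith [ha.1, ha.2, hb.1, hb.2, ha'.1, ha'.2,
      mul_nonneg hl ha.1, mul_nonneg hl ha'.1, mul_nonneg hl (sub_nonneg.2 ha.2),
      mul_nonneg hl (sub_nonneg.2 ha'.2)]
  have e2 : |a' - lam / 2 * (1 - b - b')| ≤ 1 + lam := by
    rw [abs_le]
    constructor <;> nlinarith [ha'.1, ha'.2, hb.1, hb.2, hb'.1, hb'.2,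
      mul_nonneg hl hb.1, mul_nonneg hl hb'.1, mul_nonneg hl (sub_nonneg.2 hb.2),
      mul_nonneg hl (sub_nonneg.2 hb'.2)]
  calc _ ≤ |(a - a') * (b - lam / 2 * (1 - a - a'))| + |(b - b') * (a' - lam / 2 * (1 - b - b'))| :=
        abs_add_le _ _
    _ = |a - a'| * |b - lam / 2 * (1 - a - a')| + |b - b'| * |a' - lam / 2 * (1 - b - b')| := by
        rw [abs_mul, abs_mul]
    _ ≤ |a - a'| * (1 + lam) + |b - b'| * (1 + lam) := by gcongr
    _ = _ := by ring

include hl in
theorem PP_lip {a b a' b' : ℝ} (ha : 0 ≤ a ∧ a ≤ 1) (hb : 0 ≤ b ∧ b ≤ 1) (ha' : 0 ≤ a' ∧ a' ≤ 1)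
    (hb' : 0 ≤ b' ∧ b' ≤ 1) :
    PP lam a b ≤ PP lam a' b' + (1 + lam) * (|a - a'| + |b - b'|) := by
  have h := FF_lip hl ha hb ha' hb'
  have h1 := (abs_le.1 h).2
  unfold PP
  have h2 : 0 ≤ (1 + lam) * (|a - a'| + |b - b'|) := by positivity
  rcases max_cases 0 (FF lam a b) with h3 | h3
  · rw [h3.1]
    have := le_max_left 0 (FF lam a' b')
    linarith
  · rw [h3.1]
    have := le_max_right 0 (FF lam a' b')
    linarith

theorem continuous_PP : Continuous fun p : ℝ × ℝ => PP lam p.1 p.2 := by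
  unfold PP FF
  fun_prop

include hl in
theorem PP_le {a b : ℝ} (ha : 0 ≤ a ∧ a ≤ 1) (hb : 0 ≤ b ∧ b ≤ 1) :
    PP lam a b ≤ 2 * (1 + lam) := by
  have h := PP_lip hl ha hb (a' := 0) (b' := 0) (by norm_num) (by norm_num)
  have h0 : PP lam 0 0 = 0 := by
    unfold PP FF
    norm_num
  rw [h0] at h
  have h1 : |a - 0| ≤ 1 := by rw [sub_zero, abs_of_nonneg ha.1]; exact ha.2
  have h2 : |b - 0| ≤ 1 := by rw [sub_zero, abs_of_nonneg hb.1]; exact hb.2
  nlinarith

end PP

theorem mean_mem {A : Type*} [Fintype A] [Nonempty A] {f : A → ℝ} (hf : ∀ h, 0 ≤ f h ∧ f h ≤ 1) :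
    0 ≤ mean f ∧ mean f ≤ 1 := by
  have hM : (0 : ℝ) < Fintype.card A := by
    exact_mod_cast Fintype.card_pos
  unfold mean
  constructor
  · exact div_nonneg (Finset.sum_nonneg fun h _ => (hf h).1) hM.le
  · rw [div_le_one hM]
    calc ∑ h, f h ≤ ∑ _h : A, (1 : ℝ) := Finset.sum_le_sum fun h _ => (hf h).2
      _ = Fintype.card A := by
        rw [Finset.sum_const, Finset.card_univ]
        simp

theorem mean_sub {A : Type*} [Fintype A] [AddCommGroup A] (f : A → ℝ) (u : A) :
    mean (fun h => f (h - u)) = mean f := by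
  unfold mean
  congr 1
  exact Fintype.sum_equiv (Equiv.subRight u) _ _ fun h => rfl

section cls

variable {E : Subfield ℂ} [NumberField E] [Cj E]

omit [NumberField E] in
theorem pow_five {m e : ℕ} (he' : ∃ r ∈ RR E, (5 : E) ^ e - 1 = m * r) (K : ℕ) :
    ∃ r ∈ RR E, (5 : E) ^ (e * K) - 1 = m * r := by
  obtain ⟨r, hr, h⟩ := he'
  have h5 : (5 : E) ∈ RR E := by
    have := (RR E).mul_mem ((RR E).add_mem (RR E).one_mem ((RR E).add_mem (RR E).one_mem
      ((RR E).add_mem (RR E).one_mem ((RR E).add_mem (RR E).one_mem (RR E).one_mem))))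
      (RR E).one_mem
    convert this using 1
    norm_num
  induction K with
  | zero => exact ⟨0, (RR E).zero_mem, by simp⟩
  | succ K ih =>
    obtain ⟨r', hr', h'⟩ := ih
    refine ⟨5 ^ (e * K) * r + r', (RR E).add_mem ((RR E).mul_mem ((RR E).pow_mem h5 _) hr) hr', ?_⟩
    rw [mul_add, mul_one, pow_add]
    linear_combination (5 : E) ^ (e * K) * h + h'

theorem zz_sub (hI : I ∈ E) {m e : ℕ} (he' : ∃ r ∈ RR E, (5 : E) ^ e - 1 = m * r) (K : ℕ)
    (a : 𝓞 E) : ∃ v ∈ RR E, io E a / 5 ^ (e * K) - io E a = m * v := by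
  obtain ⟨r, hr, h⟩ := pow_five he' K
  refine ⟨-(io E a * r * (5⁻¹) ^ (e * K)), (RR E).neg_mem ((RR E).mul_mem ((RR E).mul_mem
    (iR E a).2 hr) ((RR E).pow_mem (five_inv_mem_RR hI) _)), ?_⟩
  have h5 : (5 : E) ^ (e * K) ≠ 0 := pow_ne_zero _ (by norm_num)
  rw [inv_pow]
  field_simp
  linear_combination -(io E a) * h

/-- the class computation -/
theorem class_eq (hI : I ∈ E) {m e : ℕ} (he' : ∃ r ∈ RR E, (5 : E) ^ e - 1 = m * r)
    (lf : AM E m → 𝓞 E) (hlf : ∀ h, cl E m (iR E (lf h)) = h) (K : ℕ) {c c' : E}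
    (hc : c ∈ RR E) (hc' : c' ∈ RR E) {h u : AM E m} (hu : cl E m ⟨c', hc'⟩ = u) :
    ∃ v ∈ RR E, io E (lf (h + u - cl E m ⟨c, hc⟩)) / 5 ^ (e * K) + c -
      io E (lf h) / 5 ^ (e * K) = c' + m * v := by
  obtain ⟨v4, hv4, e4⟩ := zz_sub hI he' K (lf (h + u - cl E m ⟨c, hc⟩))
  obtain ⟨v5, hv5, e5⟩ := zz_sub hI he' K (lf h)
  have h1 : cl E m (iR E (lf (h + u - cl E m ⟨c, hc⟩)) + ⟨c, hc⟩ - iR E (lf h) - ⟨c', hc'⟩) =
      cl E m 0 := by
    rw [map_sub, map_sub, map_add, hlf, hlf, hu, map_zero]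
    ring
  obtain ⟨v, hv, e1⟩ := (cl_eq_iff _ _).1 h1
  have e2 : io E (lf (h + u - cl E m ⟨c, hc⟩)) + c - io E (lf h) - c' = m * v := by
    have e3 : ((iR E (lf (h + u - cl E m ⟨c, hc⟩)) + ⟨c, hc⟩ - iR E (lf h) - ⟨c', hc'⟩ : RR E) : E)
        - ((0 : RR E) : E) = io E (lf (h + u - cl E m ⟨c, hc⟩)) + c - io E (lf h) - c' := by
      push_cast
      rw [sub_zero]
      rfl
    rw [← e3]
    exact e1
  refine ⟨v4 - v5 + v, (RR E).add_mem ((RR E).sub_mem hv4 hv5) hv, ?_⟩
  linear_combination e4 - e5 + e2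

theorem zz_tendsto (e : ℕ) (he : 0 < e) (z : E) :
    Tendsto (fun K : ℕ => nrm E (z / 5 ^ (e * K))) atTop (𝓝 0) := by
  have h1 : ∀ K : ℕ, nrm E (z / 5 ^ (e * K)) = (1 / 5 ^ e : ℝ) ^ K * nrm E z := by
    intro K
    have h2 : z / 5 ^ (e * K) = (((1 / 5 ^ e : ℚ) ^ K : ℚ) : E) * z := by
      push_cast
      rw [div_pow, one_pow, ← pow_mul]
      field_simp
    rw [h2, nrm_smul, abs_of_nonneg (by positivity)]
    push_cast
    rfl
  simp_rw [h1]
  rw [← zero_mul (nrm E z)]
  refine (tendsto_pow_atTop_nhds_zero_of_lt_one (by positivity) ?_).mul_const _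
  rw [div_lt_one (by positivity)]
  exact one_lt_pow₀ (by norm_num) he.ne'

theorem corr_unit {Om : Set (E → Circle)} {k : ℕ} {μ : Measure (E → Fin k)}
    {σ : Fin k → Measure (E → Circle)} (hS : Spec E Om k μ σ) (i : Fin k) {c : E}
    (hc : ‖(c : ℂ)‖ = 1) : ∫ x, (x c : ℂ) ∂(σ i) = 0 := by
  rw [← hS.corr i c]
  have h : ∀ᵐ ω ∂μ, ind i (shift c ω) * ind i ω = 0 := by
    have h1 : ∀ᵐ ω ∂μ, ω c ≠ ω 0 := by
      have := hS.col.proper c 0 (by simpa using hc)
      rw [ae_iff]
      simpa using this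
    filter_upwards [h1] with ω hω
    simp only [ind, shift, zero_add]
    by_cases h2 : ω c = i
    · have h3 : ω 0 ≠ i := fun h3 => hω (h2.trans h3.symm)
      simp [h3]
    · simp [h2]
  rw [integral_congr_ae h]
  simp

end cls

end GKey

section

variable {E : Subfield ℂ} [NumberField E] [Cj E]

open GKey in
theorem key (hI : I ∈ E) {Q : Set ℕ} {lam : ℝ} (hg : GapAt Q lam) (hB : BB E Q)
    {Om : Set (E → Circle)} {k : ℕ} {μ : Measure (E → Fin k)}
    {σ : Fin k → Measure (E → Circle)} (hS : Spec E Om k μ σ) {i : Fin k}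
    {G1 : (E → Fin k) → ℝ} (hG1 : Lim E μ 1 i G1) {c : E} (h0 : (c : ℂ) ∈ KG)
    (hc : ‖(c : ℂ)‖ = 1) : ∀ᵐ ω ∂μ, FF lam (G1 (shift c ω)) (G1 ω) ≤ 0 := by
  classical
  have hl : 0 ≤ lam := hg.1
  have hl1 : 0 < 1 + lam := by linarith
  have := hS.col.prob
  have hmp := mp_shift hS.col
  have hG1' : ∀ ω, 0 ≤ G1 ω ∧ G1 ω ≤ 1 := fun ω => ⟨hG1.nonneg ω, hG1.le_one ω⟩
  -- integrability
  have hint : ∀ F1 F2 : (E → Fin k) → ℝ, Measurable F1 → Measurable F2 →
      (∀ ω, 0 ≤ F1 ω ∧ F1 ω ≤ 1) → (∀ ω, 0 ≤ F2 ω ∧ F2 ω ≤ 1) →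
      Integrable (fun ω => PP lam (F1 ω) (F2 ω)) μ := by
    intro F1 F2 m1 m2 b1 b2
    refine Integrable.of_bound (C := 2 * (1 + lam))
      ((continuous_PP.measurable.comp (m1.prodMk m2)).aestronglyMeasurable) ?_
    refine Eventually.of_forall fun ω => ?_
    rw [Real.norm_of_nonneg (PP_nonneg _ _ _)]
    exact PP_le hl (b1 ω) (b2 ω)
  have hintA : ∀ F1 F2 : (E → Fin k) → ℝ, Measurable F1 → Measurable F2 →
      (∀ ω, 0 ≤ F1 ω ∧ F1 ω ≤ 1) → (∀ ω, 0 ≤ F2 ω ∧ F2 ω ≤ 1) →
      Integrable (fun ω => (F1 ω - F2 ω) ^ 2) μ := by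
    intro F1 F2 m1 m2 b1 b2
    refine Integrable.of_bound (C := 1) (((m1.sub m2).pow_const 2).aestronglyMeasurable) ?_
    refine Eventually.of_forall fun ω => ?_
    rw [Real.norm_of_nonneg (sq_nonneg _)]
    nlinarith [b1 ω, b2 ω, (b1 ω).1, (b1 ω).2, (b2 ω).1, (b2 ω).2]
  have hintB : ∀ F1 F2 : (E → Fin k) → ℝ, Measurable F1 → Measurable F2 →
      (∀ ω, 0 ≤ F1 ω ∧ F1 ω ≤ 1) → (∀ ω, 0 ≤ F2 ω ∧ F2 ω ≤ 1) →
      Integrable (fun ω => |F1 ω - F2 ω|) μ := by
    intro F1 F2 m1 m2 b1 b2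
    refine Integrable.of_bound (C := 1) ((m1.sub m2).abs.aestronglyMeasurable) ?_
    refine Eventually.of_forall fun ω => ?_
    rw [Real.norm_of_nonneg (abs_nonneg _), abs_le]
    constructor <;> linarith [(b1 ω).1, (b1 ω).2, (b2 ω).1, (b2 ω).2]
  have iG : Integrable (fun ω => PP lam (G1 (shift c ω)) (G1 ω)) μ :=
    hint (fun ω => G1 (shift c ω)) G1 (hG1.meas.comp (hmp c).measurable) hG1.meas
      (fun ω => hG1' _) hG1'
  -- the main estimate
  have main : ∀ ε > 0, ∫ ω, PP lam (G1 (shift c ω)) (G1 ω) ∂μ ≤ 4 * ε := by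
    intro ε hε
    obtain ⟨M, hM, htail⟩ := psi_tail hS.nice hε
    have : Finite (AM E M) := AM_finite hM
    have : Fintype (AM E M) := Fintype.ofFinite _
    obtain ⟨G, hG⟩ := exists_lim hI hS hM i
    have hG' : ∀ ω, 0 ≤ G ω ∧ G ω ≤ 1 := fun ω => ⟨hG.nonneg ω, hG.le_one ω⟩
    choose lf hlf using fun h : AM E M => AM_surj hM h
    obtain ⟨e, he, he'⟩ := exists_pow_five (E := E) hI hM
    set zz : ℕ → AM E M → E := fun K h => io E (lf h) / 5 ^ (e * K) with hzz
    set A : ℕ → (E → Fin k) → ℝ := fun K ω => mean (fun h : AM E M => G (shift (zz K h) ω)) with hA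
    have hA1 : ∀ K ω, 0 ≤ A K ω ∧ A K ω ≤ 1 := fun K ω => mean_mem fun h => hG' _
    have hAm : ∀ K, Measurable (A K) := by
      intro K
      simp only [hA, mean]
      exact (Finset.measurable_sum _ fun h _ => hG.meas.comp (hmp _).measurable).div_const _
    have hlim := mean_lim hI hS hM lf hlf he he' hG hG1
    have hcR : c ∈ RR E := norm_one_mem_RR hc
    set u0 : AM E M := cl E M ⟨c, hcR⟩ with hu0
    obtain ⟨δ, hδ, hcont⟩ := psi_cont (hS.nice i) (m := M) hε
    set U : Finset (AM E M) := Finset.univ.filter fun u => u * barA E M u = 1 with hU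
    have hU' : ∀ u, u ∈ U ↔ u * barA E M u = 1 := fun u => by simp [hU]
    have hUne : U.Nonempty := ⟨1, (hU' 1).2 (by rw [map_one, one_mul])⟩
    have hgap : ∀ χ : AddChar (AM E M) ℂ, χ ≠ 1 → ‖∑ u ∈ U, χ u‖ ≤ lam * U.card := fun χ hχ =>
      gap_ring hg (barA E M) barA_barA (AM_hid hM) (AM_max hB hM) U hU' χ hχ
    -- the bound for one pair
    have hpair : ∀ K : ℕ, (∀ h, nrm E (zz K h) < δ / 4) → ∀ h : AM E M, ∀ u ∈ U,
        ∫ ω, G (shift (zz K (h + u - u0)) (shift c ω)) * G (shift (zz K h) ω) ∂μ ≤ 2 * ε := by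
      intro K hK h u hu
      obtain ⟨c', hc', hcc, hc'R, hcl⟩ := approx hI hB hM u ((hU' u).1 hu) h0 hc (half_pos hδ)
      obtain ⟨v, hv, hzv⟩ := class_eq hI he' lf hlf K hcR hc'R (h := h) hcl
      have hzv' : zz K (h + u - u0) + c - zz K h = c' + M * v := hzv
      have e1 : ∫ ω, G (shift (zz K (h + u - u0)) (shift c ω)) * G (shift (zz K h) ω) ∂μ =
          ∫ ω, G (shift (c' + M * v) ω) * G ω ∂μ := by
        have e2 : ∫ ω, G (shift (c' + M * v) ω) * G ω ∂μ =
            ∫ ω, (fun ω' => G (shift (c' + M * v) ω') * G ω') (shift (zz K h) ω) ∂μ := by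
          rw [← (hmp (zz K h)).map_eq]
          rw [integral_map (hmp _).measurable.aemeasurable]
          · rw [(hmp (zz K h)).map_eq]
          · exact ((hG.meas.comp (hmp _).measurable).mul hG.meas).aestronglyMeasurable
        rw [e2]
        refine integral_congr_ae (Eventually.of_forall fun ω => ?_)
        simp only [shift_shift]
        rw [← hzv']
        congr 3
        ring
      have e3 := lim_corr hI hS hM hM hG hG (c' + M * v)
      have e4 : Om ∩ SM E M ∩ SM E M = Om ∩ SM E M := by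
        rw [inter_assoc, inter_self]
      rw [e4] at e3
      have e5 := hcont c' v hv ?_
      · have e6 := psi_unit (m := M) (hS.nice i) (c := c') (by
          rintro rfl
          simp at hc') (corr_unit hS i hc')
        have e7 := htail i
        rw [e1]
        have e8 : ‖((∫ ω, G (shift (c' + M * v) ω) * G ω ∂μ : ℝ) : ℂ)‖ ≤ 2 * ε := by
          rw [e3]
          calc _ = ‖((∫ x in Om ∩ SM E M, (x (c' + M * v) : ℂ) ∂(σ i)) -
                ∫ x in Om ∩ SM E M, (x c' : ℂ) ∂(σ i)) +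
                  ∫ x in Om ∩ SM E M, (x c' : ℂ) ∂(σ i)‖ := by
                rw [sub_add_cancel]
            _ ≤ _ := (norm_add_le _ _).trans (by linarith)
        rw [Complex.norm_real] at e8
        exact (le_abs_self _).trans e8
      · have e6 : ((M : E) * v : E) = zz K (h + u - u0) + (-(c' - c) + -zz K h) := by
          linear_combination -hzv'
        rw [e6]
        have e7 := nrm_add_le (zz K (h + u - u0)) (-(c' - c) + -zz K h)
        have e8 := nrm_add_le (-(c' - c)) (-zz K h)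
        rw [nrm_neg, nrm_neg] at e8
        have e9 := hK (h + u - u0)
        have e10 := hK h
        linarith
    -- the integral of the positive part of `FF (A K ∘ shift c) (A K)`
    have hcross : ∀ K : ℕ, (∀ h, nrm E (zz K h) < δ / 4) →
        ∫ ω, PP lam (A K (shift c ω)) (A K ω) ∂μ ≤ 2 * ε := by
      intro K hK
      have h1 : ∀ ω, PP lam (A K (shift c ω)) (A K ω) ≤
          cross U (fun h : AM E M => G (shift (zz K (h - u0)) (shift c ω)))
            (fun h : AM E M => G (shift (zz K h) ω)) := by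
        intro ω
        have h2 := mixing hl U hUne hgap (fun h : AM E M => G (shift (zz K (h - u0)) (shift c ω)))
            (fun h : AM E M => G (shift (zz K h) ω)) (fun h => hG' _) (fun h => hG' _)
        rw [mean_sub (fun h : AM E M => G (shift (zz K h) (shift c ω))) u0] at h2
        refine max_le ?_ h2
        unfold cross
        refine div_nonneg (Finset.sum_nonneg fun h _ => Finset.sum_nonneg fun u _ => ?_)
          (by positivity)
        exact mul_nonneg (hG' _).1 (hG' _).1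
      have hgi : ∀ h u : AM E M, Integrable (fun ω => G (shift (zz K (h + u - u0)) (shift c ω)) *
          G (shift (zz K h) ω)) μ := by
        intro h u
        refine Integrable.of_bound (C := 1) ?_ (Eventually.of_forall fun ω => ?_)
        · exact (((hG.meas.comp (hmp _).measurable).comp (hmp _).measurable).mul
            (hG.meas.comp (hmp _).measurable)).aestronglyMeasurable
        · have a1 := hG' (shift (zz K (h + u - u0)) (shift c ω))
          have a2 := hG' (shift (zz K h) ω)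
          rw [Real.norm_of_nonneg (mul_nonneg a1.1 a2.1)]
          exact mul_le_one₀ a1.2 a2.1 a2.2
      calc ∫ ω, PP lam (A K (shift c ω)) (A K ω) ∂μ
          ≤ ∫ ω, cross U (fun h : AM E M => G (shift (zz K (h - u0)) (shift c ω)))
            (fun h : AM E M => G (shift (zz K h) ω)) ∂μ := by
            refine integral_mono (hint _ _ ((hAm K).comp (hmp c).measurable) (hAm K)
              (fun ω => hA1 K _) (hA1 K)) ?_ h1
            unfold cross
            exact (integrable_finsetSum _ fun h _ => integrable_finsetSum _ fun u _ =>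
              hgi h u).div_const _
        _ = (∑ h : AM E M, ∑ u ∈ U, ∫ ω, G (shift (zz K (h + u - u0)) (shift c ω)) *
              G (shift (zz K h) ω) ∂μ) / (Fintype.card (AM E M) * U.card) := by
            unfold cross
            rw [integral_div]
            congr 1
            rw [integral_finsetSum _ fun h _ => integrable_finsetSum _ fun u _ => hgi h u]
            refine Finset.sum_congr rfl fun h _ => ?_
            rw [integral_finsetSum _ fun u _ => hgi h u]
        _ ≤ 2 * ε := by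
            refine div_le_of_le_mul₀ (by positivity) (by positivity) ?_
            calc _ ≤ ∑ _h : AM E M, ∑ _u ∈ U, 2 * ε :=
                  Finset.sum_le_sum fun h _ => Finset.sum_le_sum fun u hu => hpair K hK h u hu
              _ = 2 * ε * (Fintype.card (AM E M) * U.card) := by
                rw [Finset.sum_const, Finset.sum_const, Finset.card_univ]
                simp only [nsmul_eq_mul]
                ring
    -- the limit K to infinity
    have hK1 : ∀ᶠ K : ℕ in atTop, ∀ h, nrm E (zz K h) < δ / 4 := by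
      rw [eventually_all]
      intro h
      exact (zz_tendsto e he (io E (lf h))).eventually (gt_mem_nhds (by positivity))
    set η : ℝ := ε / (2 * (1 + lam)) with hη
    have hη0 : 0 < η := by positivity
    have hηe : (1 + lam) * (2 * η + 2 * η) = 2 * ε := by
      rw [hη]
      field_simp
      ring
    have hK2 : ∀ᶠ K : ℕ in atTop, ∫ ω, (A K ω - G1 ω) ^ 2 ∂μ < η * η :=
      hlim.eventually (gt_mem_nhds (by positivity))
    obtain ⟨K, hK, hK'⟩ := (hK1.and hK2).exists
    have hdiff : ∫ ω, |G1 ω - A K ω| ∂μ ≤ 2 * η := by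
      calc ∫ ω, |G1 ω - A K ω| ∂μ ≤ ∫ ω, (η + (A K ω - G1 ω) ^ 2 / η) ∂μ := by
            refine integral_mono (hintB _ _ hG1.meas (hAm K) hG1' (hA1 K)) ?_ fun ω => ?_
            · exact (integrable_const _).add
                ((hintA _ _ (hAm K) hG1.meas (hA1 K) hG1').div_const _)
            · have := abs_le_add_sq (x := A K ω - G1 ω) hη0
              rwa [abs_sub_comm] at this
        _ = η + (∫ ω, (A K ω - G1 ω) ^ 2 ∂μ) / η := by
            have e1 := integral_add (μ := μ) (integrable_const η)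
              ((hintA _ _ (hAm K) hG1.meas (hA1 K) hG1').div_const η)
            rw [integral_const, integral_div] at e1
            simpa using e1
        _ ≤ 2 * η := by
            have : (∫ ω, (A K ω - G1 ω) ^ 2 ∂μ) / η ≤ η := by
              rw [div_le_iff₀ hη0]
              exact hK'.le
            linarith
    have hdiff2 : ∫ ω, |G1 (shift c ω) - A K (shift c ω)| ∂μ ≤ 2 * η := by
      have e : ∫ ω, |G1 (shift c ω) - A K (shift c ω)| ∂μ = ∫ ω, |G1 ω - A K ω| ∂μ := by
        conv_rhs => rw [← (hmp c).map_eq]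
        rw [integral_map (hmp c).measurable.aemeasurable]
        exact ((hG1.meas.sub (hAm K)).abs).aestronglyMeasurable
      rw [e]
      exact hdiff
    have iP : Integrable (fun ω => PP lam (A K (shift c ω)) (A K ω)) μ :=
      hint (fun ω => A K (shift c ω)) (A K) ((hAm K).comp (hmp c).measurable) (hAm K)
        (fun ω => hA1 K _) (hA1 K)
    have iD1 : Integrable (fun ω => |G1 (shift c ω) - A K (shift c ω)|) μ :=
      hintB (fun ω => G1 (shift c ω)) (fun ω => A K (shift c ω))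
        (hG1.meas.comp (hmp c).measurable) ((hAm K).comp (hmp c).measurable)
        (fun ω => hG1' _) (fun ω => hA1 K _)
    have iD2 : Integrable (fun ω => |G1 ω - A K ω|) μ := hintB _ _ hG1.meas (hAm K) hG1' (hA1 K)
    calc ∫ ω, PP lam (G1 (shift c ω)) (G1 ω) ∂μ
        ≤ ∫ ω, (PP lam (A K (shift c ω)) (A K ω) +
            (1 + lam) * (|G1 (shift c ω) - A K (shift c ω)| + |G1 ω - A K ω|)) ∂μ := by
          refine integral_mono iG (iP.add ((iD1.add iD2).const_mul (1 + lam))) fun ω => ?_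
          exact PP_lip hl (hG1' _) (hG1' _) (hA1 K _) (hA1 K _)
      _ = ∫ ω, PP lam (A K (shift c ω)) (A K ω) ∂μ +
            (1 + lam) *
              (∫ ω, |G1 (shift c ω) - A K (shift c ω)| ∂μ + ∫ ω, |G1 ω - A K ω| ∂μ) := by
          rw [← integral_add iD1 iD2, ← integral_const_mul, ← integral_add iP]
          exact (iD1.add iD2).const_mul (1 + lam)
      _ ≤ 4 * ε := by
          have h3 := hcross K hK
          have h4 : (1 + lam) * (∫ ω, |G1 (shift c ω) - A K (shift c ω)| ∂μ +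
              ∫ ω, |G1 ω - A K ω| ∂μ) ≤ (1 + lam) * (2 * η + 2 * η) := by
            gcongr
          linarith
  -- conclusion
  have h0 : ∫ ω, PP lam (G1 (shift c ω)) (G1 ω) ∂μ = 0 := by
    refine le_antisymm (le_of_forall_pos_le_add fun ε hε => ?_)
      (integral_nonneg fun ω => PP_nonneg _ _ _)
    have := main (ε / 4) (by positivity)
    linarith
  rw [integral_eq_zero_iff_of_nonneg (fun ω => PP_nonneg _ _ _) iG] at h0
  filter_upwards [h0] with ω hω
  have h1 : FF lam (G1 (shift c ω)) (G1 ω) ≤ PP lam (G1 (shift c ω)) (G1 ω) := le_max_right _ _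
  have h2 : PP lam (G1 (shift c ω)) (G1 ω) = 0 := hω
  linarith

end

end Pool.Agent.MP_8b8716_co_QG
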