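import Mathlib
import Pool.Agent.Lib.MP_8b8716_co_HN.AAf
import Pool.Agent.Lib.MP_8b8716_co_HN.NumC
import Pool.Agent.Lib.MP_8b8716_co_HN.Tor
import Pool.Agent.Lib.MP_8b8716_co_QG.Defs

set_option autoImplicit false

/-!
# MP_8b8716_co, project QG: no torsion at the places which are not stable
-/

noncomputable section

namespace Pool.Agent.MP_8b8716_co_QG

open Complex MeasureTheory Filter Topology Set
open NumberField
open Pool.Agent.MP_8b8716_co_HN

section
variable {E : Subfield ℂ} [NumberField E] [Cj E]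

namespace GKill

omit [NumberField E] [Cj E] in
theorem mem_NX {hE : KG ≤ E} {x : E → Circle} {z : E} :
    z ∈ NX hE x ↔ ∀ a : 𝓞 E, Tor.NN hE x (z * io E a) := Iff.rfl

omit [NumberField E] [Cj E] in
theorem mem_NX_mulAct {hE : KG ≤ E} {x : E → Circle} {c z : E} :
    z ∈ NX hE (mulAct c x) ↔ c * z ∈ NX hE x := by
  simp only [NX, mem_setOf_eq, line_mulAct, mul_assoc]

omit [NumberField E] [Cj E] in
theorem mem_OM_mulAct {hE : KG ≤ E} {x : E → Circle} {c : E} (h : x ∈ OM hE) :
    mulAct c x ∈ OM hE := by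
  intro z
  rw [line_mulAct]
  exact h _

omit [NumberField E] [Cj E] in
theorem measurableSet_OM (hE : KG ≤ E) (hct : Countable E) : MeasurableSet (OM hE) := by
  have h1 : OM hE = ⋂ z : E, (line hE z) ⁻¹' AA := by
    ext x
    simp [OM]
  rw [h1]
  exact MeasurableSet.iInter fun z => measurable_line hE z measurableSet_AA

theorem countable_int (hct : Countable E) : Countable (𝓞 E) :=
  (io_injective E).countable

omit [NumberField E] [Cj E] in
theorem measurableSet_NX (hE : KG ≤ E) (hct : Countable E) (z : E) :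
    MeasurableSet {x : E → Circle | z ∈ NX hE x} := by
  have : Countable (𝓞 E) := (io_injective E).countable
  have h1 : {x : E → Circle | z ∈ NX hE x} =
      ⋂ a : 𝓞 E, {x | Tor.NN hE x (z * io E a)} := by
    ext x
    simp only [mem_setOf_eq, mem_iInter]
    exact mem_NX
  rw [h1]
  exact MeasurableSet.iInter fun a => Tor.measurable_NN hE hct _

theorem countable_ideal (hct : Countable E) : Countable (Ideal (𝓞 E)) := by
  have : Countable (𝓞 E) := (io_injective E).countable
  have h : Function.Surjective (fun s : Finset (𝓞 E) => Ideal.span (s : Set (𝓞 E))) := by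
    intro I
    obtain ⟨s, hs⟩ := (isNoetherian_def.1 (inferInstance : IsNoetherian (𝓞 E) (𝓞 E))) I
    exact ⟨s, hs⟩
  exact h.countable

end GKill

theorem NX_module (hE : KG ≤ E) {x : E → Circle} (hx : IsChar x) :
    (0 : E) ∈ NX hE x ∧ (∀ z ∈ NX hE x, ∀ w ∈ NX hE x, z + w ∈ NX hE x) ∧
      ∀ z ∈ NX hE x, ∀ a : 𝓞 E, io E a * z ∈ NX hE x := by
  refine ⟨?_, ?_, ?_⟩
  · rw [GKill.mem_NX]
    intro a
    rw [zero_mul]
    exact Tor.NN.zero hx
  · intro z hz w hw
    rw [GKill.mem_NX] at hz hw ⊢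
    intro a
    rw [add_mul]
    exact (hz a).add hx (hw a)
  · intro z hz a
    rw [GKill.mem_NX] at hz ⊢
    intro b
    have h := hz (a * b)
    rw [map_mul] at h
    have h1 : io E a * z * io E b = z * (io E a * io E b) := by ring
    rw [h1]
    exact h

theorem NX_full (hE : KG ≤ E) {x : E → Circle} (hx : IsChar x) (h : x ∈ OM hE) (z : E) :
    ∃ m : ℕ, 0 < m ∧ (m : E) * z ∈ NX hE x := by
  classical
  have h1 : ∀ a : 𝓞 E, ∃ m : ℕ, 0 < m ∧ Tor.NN hE x (m * (z * io E a)) := by
    intro a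
    obtain ⟨m, hm, ξ, h2⟩ := h (z * io E a) 1 Ndiv_one
    refine ⟨m, hm, m * ξ, fun k w hw => ?_⟩
    rw [Tor.line_natMul]
    exact h2 k w hw
  choose m hm hNN using h1
  set B := RingOfIntegers.basis E with hB
  refine ⟨∏ j, m (B j), Finset.prod_pos fun j _ => hm _, ?_⟩
  rw [GKill.mem_NX]
  intro a
  -- all the multiples
  have h3 : ∀ j, Tor.NN hE x (((∏ j, m (B j) : ℕ) : E) * (z * io E (B j))) := by
    intro j
    have h4 := (hNN (B j)).nat hx (∏ i ∈ Finset.univ.erase j, m (B i))
    have h5 : ((∏ j, m (B j) : ℕ) : E) * (z * io E (B j)) =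
        ((∏ i ∈ Finset.univ.erase j, m (B i) : ℕ) : E) * (m (B j) * (z * io E (B j))) := by
      rw [← Finset.mul_prod_erase Finset.univ (fun j => m (B j)) (Finset.mem_univ j)]
      push_cast
      ring
    rw [h5]
    exact h4
  have h6 : ((∏ j, m (B j) : ℕ) : E) * z * io E a =
      ∑ j, ((B.repr a j : ℤ) : E) * (((∏ j, m (B j) : ℕ) : E) * (z * io E (B j))) := by
    have h7 : io E a = ∑ j, ((B.repr a j : ℤ) : E) * io E (B j) := by
      conv_lhs => rw [← B.sum_repr a]
      rw [map_sum]
      refine Finset.sum_congr rfl fun j _ => ?_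
      rw [zsmul_eq_mul, map_mul, map_intCast]
    rw [h7, Finset.mul_sum]
    refine Finset.sum_congr rfl fun j _ => ?_
    ring
  rw [h6]
  exact Finset.sum_induction _ (fun w => Tor.NN hE x w) (fun _ _ h h' => h.add hx h')
    (Tor.NN.zero hx) fun j _ => (h3 j).int hx _

theorem kill (hE : Euc E) (σ : Measure (E → Circle)) [IsFiniteMeasure σ]
    (hc : ∀ᵐ x ∂σ, IsChar x) (hI : Inv E σ) : ∀ᵐ x ∂σ, x ∈ OM hE.KG_le →
      ∀ P : Ideal (𝓞 E), P.IsMaximal → ¬ Stab E P → ∀ y : E, ∃ a : 𝓞 E, a ∉ P ∧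
        io E a * y ∈ NX hE.KG_le x := by
  have hct : Countable E := hE.ctb
  have hcO : Countable (𝓞 E) := GKill.countable_int hct
  have hcI : Countable (Ideal (𝓞 E)) := GKill.countable_ideal hct
  set hK := hE.KG_le with hKdef
  have main : ∀ P : Ideal (𝓞 E), P.IsMaximal → ¬ Stab E P → ∀ y : E, ∀ᵐ x ∂σ,
      x ∈ OM hK → ∃ a : 𝓞 E, a ∉ P ∧ io E a * y ∈ NX hK x := by
    intro P hP hPs y
    have hPp : P.IsPrime := hP.isPrime
    obtain ⟨b, hb, hb'⟩ : ∃ b ∈ P, cO E b ∉ P := by
      by_contra hcon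
      push Not at hcon
      exact hPs ⟨hP, hcon⟩
    have hb0 : b ≠ 0 := by
      rintro rfl
      rw [map_zero] at hb'
      exact hb' P.zero_mem
    have hP0 : P ≠ ⊥ := by
      rintro rfl
      exact hb0 ((Submodule.mem_bot _).1 hb)
    have hib : io E b ≠ 0 := fun h => hb0 (io_injective E (h.trans (map_zero _).symm))
    have hcb : cj E (io E b) ≠ 0 := fun h => hib (by
      have h1 := congrArg (cj E) h
      rwa [cj_cj, map_zero] at h1)
    set c : E := io E b / cj E (io E b) with hcdef
    have hc0 : c ≠ 0 := div_ne_zero hib hcb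
    have hnorm : ‖(c : ℂ)‖ = 1 := by
      have h1 : (c : ℂ) = ((io E b : E) : ℂ) / (starRingEnd ℂ) ((io E b : E) : ℂ) := by
        rw [hcdef, ← coe_cj]
        rfl
      rw [h1, norm_div, RCLike.norm_conj, div_self]
      rw [norm_ne_zero_iff]
      intro h2
      exact hib (Subtype.ext h2)
    have hnormn : ∀ n : ℕ, ‖((c ^ n : E) : ℂ)‖ = 1 := by
      intro n
      have h1 : ((c ^ n : E) : ℂ) = (c : ℂ) ^ n := rfl
      rw [h1, norm_pow, hnorm, one_pow]
    -- the bad sets
    set B : ℕ → Set (E → Circle) := fun n => {x | IsChar x ∧ x ∈ OM hK ∧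
      ∀ a : 𝓞 E, a ∉ P → io E a * (c ^ n * y) ∉ NX hK x} with hB
    have hmeas : ∀ n, MeasurableSet (B n) := by
      intro n
      have h1 : B n = {x : E → Circle | IsChar x} ∩ (OM hK ∩
          ⋂ a : 𝓞 E, ⋂ _ : a ∉ P, {x | io E a * (c ^ n * y) ∈ NX hK x}ᶜ) := by
        ext x
        simp [hB]
      rw [h1]
      exact measurableSet_isChar.inter ((GKill.measurableSet_OM hK hct).inter
        (MeasurableSet.iInter fun a => MeasurableSet.iInter fun _ =>
          (GKill.measurableSet_NX hK hct _).compl))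
    have hanti : Antitone B := by
      refine antitone_nat_of_succ_le fun n x hx => ?_
      refine ⟨hx.1, hx.2.1, fun a ha hmem => ?_⟩
      have h1 := (NX_module hK hx.1).2.2 _ hmem b
      refine hx.2.2 (a * cO E b) (fun h2 => ?_) ?_
      · rcases hPp.mem_or_mem h2 with h3 | h3
        · exact ha h3
        · exact hb' h3
      · have h4 : io E (a * cO E b) * (c ^ (n + 1) * y) = io E b * (io E a * (c ^ n * y)) := by
          rw [map_mul, io_cO, hcdef, pow_succ]
          field_simp
        rw [h4]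
        exact h1
    have hle : ∀ n, σ (B 0) ≤ σ (B n) := by
      intro n
      rw [← (hI _ (hnormn n)).measure_preimage (hmeas 0).nullMeasurableSet]
      refine measure_mono ?_
      rintro x ⟨h1, h2, h3⟩
      have hcn : c ^ n ≠ 0 := pow_ne_zero _ hc0
      have h4 : mulAct ((c ^ n)⁻¹) (mulAct (c ^ n) x) = x := by
        rw [mulAct_mulAct, inv_mul_cancel₀ hcn, mulAct_one]
      refine ⟨?_, ?_, ?_⟩
      · rw [← h4]
        exact h1.mulAct _
      · rw [← h4]
        exact GKill.mem_OM_mulAct h2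
      · intro a ha h5
        refine h3 a ha ?_
        rw [GKill.mem_NX_mulAct]
        have h6 : c ^ n * (io E a * (c ^ 0 * y)) = io E a * (c ^ n * y) := by
          rw [pow_zero]
          ring
        rw [h6]
        exact h5
    have hempty : (⋂ n, B n) = ∅ := by
      rw [Set.eq_empty_iff_forall_notMem]
      intro x hx
      rw [mem_iInter] at hx
      have hx0 := hx 0
      obtain ⟨m, hm, hmy⟩ := NX_full hK hx0.1 hx0.2.1 y
      have hm0 : Ideal.span {((m : ℕ) : 𝓞 E)} ≠ 0 := by
        rw [Ideal.zero_eq_bot, Ne, Ideal.span_singleton_eq_bot]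
        exact_mod_cast hm.ne'
      have hPpr : Prime P := Ideal.prime_of_isPrime hP0 hPp
      obtain ⟨j, J, hJ, hmJ⟩ := WfDvdMonoid.max_power_factor hm0 hPpr.irreducible
      rw [Ideal.dvd_iff_le, SetLike.not_le_iff_exists] at hJ
      obtain ⟨a, haJ, haP⟩ := hJ
      have h1 : b ^ j * a ∈ Ideal.span {((m : ℕ) : 𝓞 E)} := by
        rw [hmJ]
        exact Ideal.mul_mem_mul (Ideal.pow_mem_pow hb j) haJ
      obtain ⟨e, he⟩ := Ideal.mem_span_singleton.1 h1
      refine (hx j).2.2 (a * cO E b ^ j) (fun h2 => ?_) ?_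
      · rcases hPp.mem_or_mem h2 with h3 | h3
        · exact haP h3
        · exact hb' (hPp.mem_of_pow_mem _ h3)
      · have h4 : io E (a * cO E b ^ j) * (c ^ j * y) = io E e * (m * y) := by
          have h5 := congrArg (io E) he
          rw [map_mul, map_mul, map_natCast, map_pow] at h5
          rw [map_mul, map_pow, io_cO, hcdef, div_pow]
          have h6 : cj E (io E b) ^ j ≠ 0 := pow_ne_zero _ hcb
          have h7 : io E a * cj E (io E b) ^ j * (io E b ^ j / cj E (io E b) ^ j * y) =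
              io E b ^ j * io E a * y := by
            field_simp
          rw [h7, h5]
          ring
        rw [h4]
        exact (NX_module hK hx0.1).2.2 _ hmy e
    have hzero : σ (B 0) = 0 := by
      have h1 := tendsto_measure_iInter_atTop (μ := σ) (s := B)
        (fun n => (hmeas n).nullMeasurableSet) hanti ⟨0, measure_ne_top _ _⟩
      rw [hempty, measure_empty] at h1
      exact nonpos_iff_eq_zero.1 (ge_of_tendsto' h1 hle)
    have h2 : ∀ᵐ x ∂σ, x ∉ B 0 := by
      rw [ae_iff]
      simpa using hzero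
    filter_upwards [hc, h2] with x hx hxB hxO
    by_contra hcon
    push Not at hcon
    refine hxB ⟨hx, hxO, fun a ha => ?_⟩
    rw [pow_zero, one_mul]
    exact hcon a ha
  have h1 : ∀ᵐ x ∂σ, ∀ P : Ideal (𝓞 E), P.IsMaximal → ¬ Stab E P → ∀ y : E,
      x ∈ OM hK → ∃ a : 𝓞 E, a ∉ P ∧ io E a * y ∈ NX hK x := by
    rw [ae_all_iff]
    intro P
    by_cases hP : P.IsMaximal
    · by_cases hPs : Stab E P
      · exact Eventually.of_forall fun x _ h => absurd hPs h
      · have h2 : ∀ᵐ x ∂σ, ∀ y : E, x ∈ OM hK → ∃ a : 𝓞 E, a ∉ P ∧ io E a * y ∈ NX hK x := by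
          rw [ae_all_iff]
          exact fun y => main P hP hPs y
        filter_upwards [h2] with x hx _ _ y hxO
        exact hx y hxO
    · exact Eventually.of_forall fun x h => absurd h hP
  filter_upwards [h1] with x hx hxO P hP hPs y
  exact hx P hP hPs y hxO

end

end Pool.Agent.MP_8b8716_co_QG
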