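import Mathlib
import Pool.Agent.Lib.MP_8b8716_co_HN.Basic
import Pool.Agent.Lib.MP_8b8716_co_HN.AAf
import Pool.Agent.Lib.MP_8b8716_co_HN.NumC
import Pool.Agent.Lib.MP_8b8716_co_QG.Defs
import Pool.Agent.Lib.MP_8b8716_co_QG.GCo

set_option autoImplicit false
set_option linter.unusedSectionVars false

/-!
# MP_8b8716_co, project QG: the frequencies of the characters in `OM`
-/

noncomputable section

namespace Pool.Agent.MP_8b8716_co_QG

open Complex MeasureTheory Filter Topology Set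
open NumberField
open Pool.Agent.MP_8b8716_co_HN

section
variable {E : Subfield ℂ} [NumberField E] [Cj E]

/-- `m` and `ξ` describe the line of `x` in the direction `z` -/
private def Fr (hE : KG ≤ E) (x : E → Circle) (z : E) (ξ : ℂ) : Prop :=
  ∃ m : ℕ, 0 < m ∧ ∀ k : ℕ, ∀ w ∈ Lt 1 k, line hE z x (m * w) = el (m * ξ) w

private theorem Fr.unique {hE : KG ≤ E} {x : E → Circle} {z : E} {ξ ξ' : ℂ}
    (h : Fr hE x z ξ) (h' : Fr hE x z ξ') : ξ = ξ' := by
  obtain ⟨m, hm, h⟩ := h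
  obtain ⟨m', hm', h'⟩ := h'
  exact AA_unique hm hm' h h'

private theorem Fr.mul {hE : KG ≤ E} {x : E → Circle} {z : E} {ξ : ℂ} {m : ℕ}
    (h : ∀ k : ℕ, ∀ w ∈ Lt 1 k, line hE z x (m * w) = el (m * ξ) w) (n : ℕ) :
    ∀ k : ℕ, ∀ w ∈ Lt 1 k, line hE z x (m * ((n : KG) * w)) = el (((m * n : ℕ) : ℂ) * ξ) w := by
  intro k w hw
  rw [h k ((n : KG) * w) (Lt_smul (natCast_mem Zi n) hw)]
  have h1 : ((((n : KG) * w : KG)) : ℂ) = (n : ℂ) * (w : ℂ) := by
    push_cast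
    rfl
  rw [h1, el_mul]
  congr 1
  push_cast
  ring

private theorem Fr.add {hE : KG ≤ E} {x : E → Circle} (hx : IsChar x) {z z' : E} {ξ ξ' : ℂ}
    (h : Fr hE x z ξ) (h' : Fr hE x z' ξ') : Fr hE x (z + z') (ξ + ξ') := by
  obtain ⟨m, hm, h⟩ := h
  obtain ⟨m', hm', h'⟩ := h'
  refine ⟨m * m', Nat.mul_pos hm hm', fun k w hw => ?_⟩
  have h1 := Fr.mul h m' k w hw
  have h2 := Fr.mul h' m k w hw
  have h3 : ((m * m' : ℕ) : KG) * w = (m : KG) * ((m' : KG) * w) := by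
    push_cast
    ring
  have h4 : (m' : KG) * ((m : KG) * w) = (m : KG) * ((m' : KG) * w) := by ring
  rw [h4] at h2
  rw [line_add hE z z' hx, Pi.mul_apply, h3, h1, h2, mul_comm m' m, mul_add, el_add_left]

private theorem one_mem_Lt : (1 : KG) ∈ Lt 1 ((0 : ℕ) : ℤ) := by
  refine ⟨1, Zi.one_mem, ?_⟩
  simp

theorem exists_freq (hE : KG ≤ E) {x : E → Circle} (hx : IsChar x) (h : x ∈ OM hE) :
    ∃ t : Ix E → ℝ, ∀ (z : E) (ξ : ℂ), (∀ k : ℕ, ∀ w ∈ Lt 1 k, line hE z x w = el ξ w) →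
      x z = et E t z := by
  have hex : ∀ z : E, ∃ ξ : ℂ, Fr hE x z ξ := by
    intro z
    obtain ⟨m, hm, ξ, h1⟩ := h z 1 Ndiv_one
    exact ⟨ξ, m, hm, h1⟩
  choose L hL using hex
  have hadd : ∀ z z' : E, L (z + z') = L z + L z' := fun z z' =>
    Fr.unique (hL (z + z')) (Fr.add hx (hL z) (hL z'))
  let Λ : E →+ ℂ := AddMonoidHom.mk' L hadd
  have hq : ∀ (q : ℚ) (z : E), L ((q : E) * z) = (q : ℂ) * L z := by
    intro q z
    exact map_ratCast_smul Λ E ℂ q z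
  have hsum : ∀ z : E, L z = ∑ j, (co E z j : ℂ) * L (om E j) := by
    intro z
    have h1 : Λ (∑ j, (co E z j : E) * om E j) = ∑ j, Λ ((co E z j : E) * om E j) :=
      map_sum Λ _ _
    rw [sum_co z] at h1
    refine h1.trans (Finset.sum_congr rfl fun j _ => ?_)
    exact hq _ _
  refine ⟨fun j => (L (om E j)).re, fun z ξ hz => ?_⟩
  have hξ : ξ = L z := by
    refine Fr.unique (hE := hE) (x := x) (z := z) ⟨1, one_pos, fun k w hw => ?_⟩ (hL z)
    rw [Nat.cast_one, Nat.cast_one, one_mul, one_mul]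
    exact hz k w hw
  have h1 := hz 0 1 one_mem_Lt
  have h2 : line hE z x 1 = x z := by
    unfold line
    congr 1
    apply Subtype.ext
    simp
  rw [h2] at h1
  rw [h1, hξ]
  unfold el et
  congr 2
  have h3 : ((1 : KG) : ℂ) = 1 := rfl
  rw [h3, mul_one, hsum z, Complex.re_sum]
  refine Finset.sum_congr rfl fun j _ => ?_
  have h4 : ((co E z j : ℚ) : ℂ) = (((co E z j : ℚ) : ℝ) : ℂ) := by push_cast; rfl
  rw [h4, Complex.re_ofReal_mul, mul_comm]

end

end Pool.Agent.MP_8b8716_co_QG
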