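import Mathlib
import Pool.Agent.Lib.MP_8b8716_co_HN.Basic
import Pool.Agent.Lib.MP_8b8716_co_QG.Defs

set_option autoImplicit false

/-!
# MP_8b8716_co, project QG, module GRed: from real fields to real number fields

A condition on the maximal ideals with small residue fields of the ring of all algebraic integers
of a real field `F` holds already for some number field contained in `F`: the ultraproduct of bad
maximal ideals is a bad maximal ideal.
-/

noncomputable section

namespace Pool.Agent.MP_8b8716_co_QG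

open NumberField
open Pool.Agent.MP_8b8716_co_HN

namespace GRed

open Filter

variable {F : Subfield ℝ}

/-- the field generated by finitely many algebraic integers of `F` -/
def fld (S : Finset (integralClosure ℤ F)) : Subfield ℝ :=
  (IntermediateField.adjoin ℚ
    ((fun x : integralClosure ℤ F => ((x : F) : ℝ)) '' (S : Set (integralClosure ℤ F)))).toSubfield

theorem fld_le (S : Finset (integralClosure ℤ F)) : fld S ≤ F := by
  have h1 : IntermediateField.adjoin ℚ
      ((fun x : integralClosure ℤ F => ((x : F) : ℝ)) '' (S : Set (integralClosure ℤ F))) ≤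
      F.toIntermediateField (K := ℚ) (fun q => by
        rw [eq_ratCast]
        exact SubfieldClass.ratCast_mem F q) := by
    rw [IntermediateField.adjoin_le_iff]
    rintro _ ⟨x, _, rfl⟩
    exact (x : F).2
  intro y hy
  exact h1 hy

theorem mem_fld {S : Finset (integralClosure ℤ F)} {x : integralClosure ℤ F} (hx : x ∈ S) :
    ((x : F) : ℝ) ∈ fld S := by
  have h1 : ((x : F) : ℝ) ∈ IntermediateField.adjoin ℚ
      ((fun x : integralClosure ℤ F => ((x : F) : ℝ)) '' (S : Set (integralClosure ℤ F))) :=
    IntermediateField.subset_adjoin ℚ _ ⟨x, hx, rfl⟩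
  exact h1

theorem nf (S : Finset (integralClosure ℤ F)) : NumberField (fld S) := by
  set K := IntermediateField.adjoin ℚ
    ((fun x : integralClosure ℤ F => ((x : F) : ℝ)) '' (S : Set (integralClosure ℤ F))) with hK
  have h1 : FiniteDimensional ℚ K := by
    rw [hK]
    have : Finite ((fun x : integralClosure ℤ F => ((x : F) : ℝ)) ''
      (S : Set (integralClosure ℤ F))) := (S.finite_toSet.image _).to_subtype
    refine IntermediateField.finiteDimensional_adjoin ?_
    rintro _ ⟨x, _, rfl⟩
    have hx : IsIntegral ℤ (x : F) := x.2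
    have h2 : IsIntegral ℤ (((x : F) : ℝ)) := hx.map (F.subtype).toIntAlgHom
    exact h2.tower_top
  let e : K →+* fld S := RingHom.id K
  have he : Function.Surjective e := fun y => ⟨y, rfl⟩
  have h3 : FiniteDimensional ℚ (fld S) :=
    Module.Finite.of_surjective e.toRatAlgHom.toLinearMap he
  exact ⟨⟩

/-- the inclusion of the algebraic integers -/
def inc {L : Subfield ℝ} (h : L ≤ F) : 𝓞 L →+* integralClosure ℤ F :=
  ((Subfield.inclusion h).comp (algebraMap (𝓞 L) L)).codRestrict (integralClosure ℤ F) fun x =>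
    (RingOfIntegers.isIntegral_coe x).map (Subfield.inclusion h).toIntAlgHom

theorem inc_coe {L : Subfield ℝ} (h : L ≤ F) (x : 𝓞 L) :
    ((inc h x : F) : ℝ) = ((x : L) : ℝ) := rfl

theorem inc_inj {L : Subfield ℝ} (h : L ≤ F) : Function.Injective (inc h) := by
  intro x y hxy
  apply RingOfIntegers.coe_injective
  apply Subtype.ext
  have h1 := congrArg (fun z : integralClosure ℤ F => ((z : F) : ℝ)) hxy
  simpa only [inc_coe] using h1

theorem exists_inc {L : Subfield ℝ} (h : L ≤ F) {x : integralClosure ℤ F}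
    (hx : ((x : F) : ℝ) ∈ L) : ∃ y : 𝓞 L, inc h y = x := by
  have h1 : IsIntegral ℤ (⟨((x : F) : ℝ), hx⟩ : L) := by
    have h2 : IsIntegral ℤ (x : F) := x.2
    rw [← isIntegral_algHom_iff (Subfield.inclusion h).toIntAlgHom
      (Subfield.inclusion h).injective]
    exact h2
  refine ⟨⟨_, h1⟩, ?_⟩
  apply Subtype.ext
  apply Subtype.ext
  rfl

end GRed

theorem exists_numberField' {F : Subfield ℝ} {B : ℕ}
    (h : Cond {q | B < q} (integralClosure ℤ F)) :
    ∃ L : Subfield ℝ, L ≤ F ∧ ∃ _ : NumberField L, Cond {q | B < q} (𝓞 L) := by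
  classical
  by_contra hno
  obtain ⟨⟨a, b, hab⟩, hP⟩ := h
  -- the bad maximal ideals
  have hbad : ∀ S : Finset (integralClosure ℤ F), ∃ P : Ideal (𝓞 (GRed.fld (insert a (insert b S)))),
      P.IsMaximal ∧ Finite (𝓞 (GRed.fld (insert a (insert b S))) ⧸ P) ∧
      Nat.card (𝓞 (GRed.fld (insert a (insert b S))) ⧸ P) ≤ B ∧
      ∀ c s : 𝓞 (GRed.fld (insert a (insert b S))), s ∉ P → ∀ d ∈ P, s * (c ^ 2 + 1) ≠ 4 * d := by
    intro S
    by_contra hS
    push Not at hS
    refine hno ⟨GRed.fld (insert a (insert b S)), GRed.fld_le _, GRed.nf _, ?_, ?_⟩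
    · obtain ⟨a', ha'⟩ := GRed.exists_inc (GRed.fld_le (insert a (insert b S)))
        (GRed.mem_fld (Finset.mem_insert_self a _))
      obtain ⟨b', hb'⟩ := GRed.exists_inc (GRed.fld_le (insert a (insert b S)))
        (GRed.mem_fld (Finset.mem_insert_of_mem (Finset.mem_insert_self b _)))
      refine ⟨a', b', GRed.inc_inj (GRed.fld_le _) ?_⟩
      rw [map_add, map_pow, map_one, map_mul, map_ofNat, ha', hb', hab]
    · intro P hPm hPf hPc
      have hPc' : Nat.card (𝓞 (GRed.fld (insert a (insert b S))) ⧸ P) ≤ B := by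
        by_contra hc
        exact hPc (not_le.1 hc)
      obtain ⟨a', s, hs, b', hb', he⟩ := hS P hPm hPf hPc'
      exact ⟨a', s, hs, b', hb', he⟩
  choose P hPm hPf hPc hPb using hbad
  set i : ∀ S : Finset (integralClosure ℤ F),
    𝓞 (GRed.fld (insert a (insert b S))) →+* integralClosure ℤ F :=
    fun S => GRed.inc (GRed.fld_le _) with hi
  have hinj : ∀ S, Function.Injective (i S) := fun S => GRed.inc_inj _
  have hex : ∀ S (x : integralClosure ℤ F), x ∈ S → ∃ y, i S y = x := fun S x hx =>
    GRed.exists_inc _ (GRed.mem_fld (Finset.mem_insert_of_mem (Finset.mem_insert_of_mem hx)))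
  let U : Ultrafilter (Finset (integralClosure ℤ F)) := Ultrafilter.of Filter.atTop
  have hU : (U : Filter (Finset (integralClosure ℤ F))) ≤ Filter.atTop := Ultrafilter.of_le _
  have hevx : ∀ x : integralClosure ℤ F, ∀ᶠ S in (U : Filter (Finset (integralClosure ℤ F))),
      ∃ y, i S y = x := by
    intro x
    have h1 : ∀ᶠ S in (Filter.atTop : Filter (Finset (integralClosure ℤ F))), x ∈ S := by
      filter_upwards [Filter.eventually_ge_atTop ({x} : Finset (integralClosure ℤ F))] with S hS
      exact hS (Finset.mem_singleton_self x)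
    exact (h1.filter_mono hU).mono fun S hS => hex S x hS
  let p : Ideal (integralClosure ℤ F) :=
    { carrier := {x | ∀ᶠ S in (U : Filter (Finset (integralClosure ℤ F))), ∃ y ∈ P S, i S y = x}
      add_mem' := by
        intro x y hx hy
        filter_upwards [hx, hy] with S h1 h2
        obtain ⟨u, hu, hu'⟩ := h1
        obtain ⟨v, hv, hv'⟩ := h2
        exact ⟨u + v, (P S).add_mem hu hv, by rw [map_add, hu', hv']⟩
      zero_mem' := Filter.Eventually.of_forall fun S => ⟨0, (P S).zero_mem, map_zero _⟩
      smul_mem' := by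
        intro c x hx
        filter_upwards [hx, hevx c] with S h1 h2
        obtain ⟨u, hu, hu'⟩ := h1
        obtain ⟨v, hv⟩ := h2
        exact ⟨v * u, (P S).mul_mem_left v hu, by rw [map_mul, hu', hv, smul_eq_mul]⟩ }
  have hp : ∀ x, x ∈ p ↔ ∀ᶠ S in (U : Filter (Finset (integralClosure ℤ F))),
      ∃ y ∈ P S, i S y = x := fun x => Iff.rfl
  have hprime : p.IsPrime := by
    refine ⟨?_, ?_⟩
    · intro htop
      have h1 : (1 : integralClosure ℤ F) ∈ p := by rw [htop]; trivial
      obtain ⟨S, y, hy, hy'⟩ := ((hp 1).1 h1).exists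
      have h2 : y = 1 := hinj S (by rw [hy', map_one])
      exact (hPm S).ne_top ((Ideal.eq_top_iff_one _).2 (h2 ▸ hy))
    · intro x y hxy
      have h1 := (hp _).1 hxy
      have h2 : ∀ᶠ S in (U : Filter (Finset (integralClosure ℤ F))),
          (∃ z ∈ P S, i S z = x) ∨ ∃ z ∈ P S, i S z = y := by
        filter_upwards [h1, hevx x, hevx y] with S h1 h2 h3
        obtain ⟨z, hz, hz'⟩ := h1
        obtain ⟨u, hu⟩ := h2
        obtain ⟨v, hv⟩ := h3
        have h4 : z = u * v := hinj S (by rw [hz', map_mul, hu, hv])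
        rw [h4] at hz
        rcases (hPm S).isPrime.mem_or_mem hz with h5 | h5
        · exact Or.inl ⟨u, h5, hu⟩
        · exact Or.inr ⟨v, h5, hv⟩
      rcases Ultrafilter.eventually_or.1 h2 with h3 | h3
      · exact Or.inl h3
      · exact Or.inr h3
  -- there are at most `B` residue classes
  have hpig : ∀ f : Fin (B + 1) → (integralClosure ℤ F) ⧸ p, ¬ Function.Injective f := by
    intro f hf
    have h1 : ∀ k, ∃ x : integralClosure ℤ F, Ideal.Quotient.mk p x = f k :=
      fun k => Ideal.Quotient.mk_surjective (f k)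
    choose x hx using h1
    have h2 : ∀ᶠ S in (U : Filter (Finset (integralClosure ℤ F))), ∀ k, ∃ y, i S y = x k :=
      Filter.eventually_all.2 fun k => hevx (x k)
    have h3 : ∀ᶠ S in (U : Filter (Finset (integralClosure ℤ F))),
        ∃ k ∈ (Set.univ : Set (Fin (B + 1) × Fin (B + 1))), k.1 ≠ k.2 ∧
          ∃ y ∈ P S, i S y = x k.1 - x k.2 := by
      filter_upwards [h2] with S hS
      choose y hy using hS
      have := hPf S
      have : Fintype (𝓞 (GRed.fld (insert a (insert b S))) ⧸ P S) := Fintype.ofFinite _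
      have h4 : ¬ Function.Injective fun k => Ideal.Quotient.mk (P S) (y k) := by
        intro hinj'
        have h5 := Fintype.card_le_of_injective _ hinj'
        rw [Fintype.card_fin, ← Nat.card_eq_fintype_card] at h5
        have h6 := hPc S
        omega
      rw [Function.Injective] at h4
      push Not at h4
      obtain ⟨k, l, hkl, hne⟩ := h4
      refine ⟨(k, l), Set.mem_univ _, hne, y k - y l, Ideal.Quotient.eq.1 hkl, ?_⟩
      rw [map_sub, hy, hy]
    rw [Ultrafilter.eventually_exists_mem_iff (Set.toFinite _)] at h3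
    obtain ⟨k, _, h4⟩ := h3
    obtain ⟨S, hS⟩ := h4.exists
    have h5 : x k.1 - x k.2 ∈ p := (hp _).2 (h4.mono fun S hS => hS.2)
    apply hS.1
    apply hf
    rw [← hx, ← hx]
    exact Ideal.Quotient.eq.2 h5
  have hfin : Finite ((integralClosure ℤ F) ⧸ p) := by
    by_contra hinf
    have : Infinite ((integralClosure ℤ F) ⧸ p) := not_finite_iff_infinite.1 hinf
    refine hpig (fun k => Infinite.natEmbedding _ (k : ℕ)) ?_
    exact (Infinite.natEmbedding _).injective.comp Fin.val_injective
  have hcard : ¬ B < Nat.card ((integralClosure ℤ F) ⧸ p) := by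
    intro hB
    refine hpig (fun k => (Finite.equivFin ((integralClosure ℤ F) ⧸ p)).symm
      (Fin.castLE hB k)) ?_
    exact (Equiv.injective _).comp (Fin.castLE_injective hB)
  have hmax : p.IsMaximal := by
    have := hprime
    exact Ideal.Quotient.maximal_of_isField _ (Finite.isField_of_domain _)
  obtain ⟨a', s, hs, b', hb', he⟩ := hP p hmax hfin hcard
  have hs' : ∀ᶠ S in (U : Filter (Finset (integralClosure ℤ F))), ¬ ∃ y ∈ P S, i S y = s :=
    Ultrafilter.eventually_not.2 fun h => hs ((hp s).2 h)
  obtain ⟨S, ⟨u, hu⟩, ⟨v, hv⟩, h3, ⟨w, hw, hw'⟩⟩ :=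
    ((hevx a').and ((hevx s).and (hs'.and ((hp b').1 hb')))).exists
  refine hPb S u v (fun hv' => h3 ⟨v, hv', hv⟩) w hw (hinj S ?_)
  rw [map_mul, map_mul, map_add, map_pow, map_one, map_ofNat, hu, hv, hw', he]

set_option linter.unusedVariables false in
theorem exists_numberField {F : Subfield ℝ} (hF : ∀ x ∈ F, IsAlgebraic ℚ x) {B : ℕ}
    (h : Cond {q | B < q} (integralClosure ℤ F)) :
    ∃ L : Subfield ℝ, L ≤ F ∧ ∃ _ : NumberField L, Cond {q | B < q} (𝓞 L) :=
  exists_numberField' h

end Pool.Agent.MP_8b8716_co_QG
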