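import Mathlib
import Pool.Agent.Lib.MP_8b8716_co_HN.MeasA
import Pool.Agent.Lib.MP_8b8716_co_QG.Defs

set_option autoImplicit false

/-!
# MP_8b8716_co, project QG, module GMeas: a measurable colouring, almost everywhere proper

The continuity is only assumed along a subgroup `R` which contains the elements of modulus one of
the Gaussian numbers and the numbers `w / 5 ^ n`, `w` a Gaussian integer.
-/

noncomputable section

namespace Pool.Agent.MP_8b8716_co_QG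

open Complex MeasureTheory Filter Topology Set
open scoped ENNReal
open NumberField
open Pool.Agent.MP_8b8716_co_HN

namespace GMeas

/-- `R` contains the Gaussian integers divided by powers of `5` -/
def D5 {E : Subfield ℂ} (hE : KG ≤ E) (R : AddSubgroup E) : Prop :=
  ∀ w : KG, w ∈ Zi → ∀ n : ℕ, (⟨w, hE w.2⟩ : E) / 5 ^ n ∈ R

theorem exists_five (x : ℝ) {r : ℝ} (hr : 0 < r) :
    ∃ N : ℕ, ∀ n, N ≤ n → |x - (round (x * 5 ^ n) : ℤ) / 5 ^ n| < r := by
  obtain ⟨N, hN⟩ := exists_pow_lt_of_lt_one hr (show (1 / 5 : ℝ) < 1 by norm_num)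
  refine ⟨N, fun n hn => ?_⟩
  have h1 : |x * 5 ^ n - (round (x * 5 ^ n) : ℤ)| ≤ 1 / 2 := abs_sub_round _
  have h2 : (0 : ℝ) < 5 ^ n := by positivity
  have h3 : x - (round (x * 5 ^ n) : ℤ) / 5 ^ n =
      (x * 5 ^ n - (round (x * 5 ^ n) : ℤ)) / 5 ^ n := by
    field_simp
  rw [h3, abs_div, abs_of_pos h2]
  have h4 : (1 / 5 : ℝ) ^ n ≤ (1 / 5 : ℝ) ^ N :=
    pow_le_pow_of_le_one (by norm_num) (by norm_num) hn
  calc |x * 5 ^ n - (round (x * 5 ^ n) : ℤ)| / 5 ^ n ≤ (1 / 2) / 5 ^ n := by gcongr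
    _ ≤ (1 / 5 : ℝ) ^ n := by
        rw [one_div_pow]
        gcongr
        norm_num
    _ < r := h4.trans_lt hN

theorem exists_near5 {E : Subfield ℂ} (hE : KG ≤ E) {R : AddSubgroup E} (hR : D5 hE R) (s : ℂ)
    {r : ℝ} (hr : 0 < r) : ∃ z : E, z ∈ R ∧ ‖s - z‖ < r := by
  obtain ⟨N, hN⟩ := exists_five s.re (half_pos hr)
  obtain ⟨M, hM⟩ := exists_five s.im (half_pos hr)
  set n := max N M with hn
  have ha := hN n (le_max_left _ _)
  have hb := hM n (le_max_right _ _)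
  set a : ℤ := round (s.re * 5 ^ n) with ha'
  set b : ℤ := round (s.im * 5 ^ n) with hb'
  have hw : (a : ℂ) + b * I ∈ KG := by simpa using MeasA.mem_KG a b
  refine ⟨_, hR ⟨(a : ℂ) + b * I, hw⟩ ⟨a, b, rfl⟩ n, ?_⟩
  refine (Complex.norm_le_abs_re_add_abs_im _).trans_lt ?_
  have hc : (((⟨(a : ℂ) + b * I, hE hw⟩ : E) / 5 ^ n : E) : ℂ) = ((a : ℂ) + b * I) / 5 ^ n := by
    push_cast
    rfl
  rw [hc]
  have h0 : ((a : ℂ) + b * I) / 5 ^ n = ((a / 5 ^ n : ℝ) : ℂ) + ((b / 5 ^ n : ℝ) : ℂ) * I := by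
    push_cast
    ring
  have h1 : (s - ((a : ℂ) + b * I) / 5 ^ n).re = s.re - a / 5 ^ n := by
    rw [h0, Complex.sub_re, Complex.add_re, Complex.re_ofReal_mul, Complex.ofReal_re,
      Complex.I_re, mul_zero, add_zero]
  have h2 : (s - ((a : ℂ) + b * I) / 5 ^ n).im = s.im - b / 5 ^ n := by
    rw [h0, Complex.sub_im, Complex.add_im, Complex.im_ofReal_mul, Complex.ofReal_im,
      Complex.I_im, mul_one, zero_add]
  rw [h1, h2]
  linarith

/-- a soft colouring, continuous along the subgroup `R` -/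
structure Soft5 (E : Subfield ℂ) (k : ℕ) (μ : Measure (E → Fin k)) (R : AddSubgroup E)
    (g : Fin k → (E → Fin k) → ℝ) : Prop where
  meas : ∀ i, Measurable (g i)
  nonneg : ∀ i ω, 0 ≤ g i ω
  le_one : ∀ i ω, g i ω ≤ 1
  sum : ∀ᵐ ω ∂μ, ∑ i, g i ω = 1
  cont : ∀ i, ∀ ε > 0, ∃ δ > 0, ∀ z : E, z ∈ R → ‖(z : ℂ)‖ < δ →
    ∫ ω, (g i (shift z ω) - g i ω) ^ 2 ∂μ < ε
  orth : ∀ i (c : E), (c : ℂ) ∈ KG → ‖(c : ℂ)‖ = 1 → ∫ ω, g i (shift c ω) * g i ω ∂μ = 0

variable {E : Subfield ℂ} {k : ℕ} {μ : Measure (E → Fin k)} {R : AddSubgroup E}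
  {g : Fin k → (E → Fin k) → ℝ}

theorem d_eq5 (hμ : RandCol E k μ) (hg : Soft5 E k μ R g) (i : Fin k) (z w : E) :
    ∫ ω, (g i (shift z ω) - g i (shift w ω)) ^ 2 ∂μ =
      ∫ ω, (g i (shift (z - w) ω) - g i ω) ^ 2 ∂μ := by
  rw [← MeasA.int_shift hμ w (f := fun ω => (g i (shift (z - w) ω) - g i ω) ^ 2)]
  · simp only [MeasA.shift_shift, sub_add_cancel]
  · exact ((((hg.meas i).comp (MeasA.mp_shift hμ _).measurable)).sub (hg.meas i)).pow_const 2

theorem modulus5 (hμ : RandCol E k μ) (hg : Soft5 E k μ R g) {δ : ℝ} (hδ : 0 < δ) :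
    ∃ r : ℝ, 0 < r ∧ ∀ i, ∀ z ∈ R, ∀ w ∈ R, ‖(z : ℂ) - w‖ < r →
      ∫ ω, (g i (shift z ω) - g i (shift w ω)) ^ 2 ∂μ < δ := by
  have h : ∀ i, ∀ᶠ r in 𝓝[>] (0 : ℝ), ∀ z ∈ R, ∀ w ∈ R, ‖(z : ℂ) - w‖ < r →
      ∫ ω, (g i (shift z ω) - g i (shift w ω)) ^ 2 ∂μ < δ := by
    intro i
    obtain ⟨r, hr, h1⟩ := hg.cont i δ hδ
    have h2 : Ioo (0 : ℝ) r ∈ 𝓝[>] (0 : ℝ) := Ioo_mem_nhdsGT hr
    filter_upwards [h2] with x hx z hz w hw hzw
    rw [d_eq5 hμ hg]
    apply h1 _ (R.sub_mem hz hw)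
    rw [Subfield.coe_sub]
    exact hzw.trans hx.2
  have h2 := (Filter.eventually_all.2 h).and self_mem_nhdsWithin
  obtain ⟨r, h3, h4⟩ := h2.exists
  exact ⟨r, h4, h3⟩

theorem le_one_abs5 (hg : Soft5 E k μ R g) (i : Fin k) (ω ω' : E → Fin k) :
    |g i ω - g i ω'| ≤ 1 := by
  rw [abs_le]
  constructor
  · linarith [hg.nonneg i ω, hg.le_one i ω']
  · linarith [hg.nonneg i ω', hg.le_one i ω]

theorem meas_shift5 (hμ : RandCol E k μ) (hg : Soft5 E k μ R g) (i : Fin k) (z : E) :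
    Measurable fun ω => g i (shift z ω) := (hg.meas i).comp (MeasA.mp_shift hμ z).measurable

/-- the radii -/
theorem exists_rho5 (hμ : RandCol E k μ) (hg : Soft5 E k μ R g) :
    ∃ ρ : ℕ → ℝ, (∀ j, 0 < ρ j) ∧ (∀ j, ρ j ≤ 1 / ((j : ℝ) + 1)) ∧
      ∀ j i, ∀ z ∈ R, ∀ w ∈ R, ‖(z : ℂ) - w‖ < ρ j + ρ (j + 1) →
        ∫ ω, (g i (shift z ω) - g i (shift w ω)) ^ 2 ∂μ < ((1 / 2 : ℝ) ^ j) ^ 2 := by
  have h : ∀ j : ℕ, ∃ r : ℝ, 0 < r ∧ ∀ i, ∀ z ∈ R, ∀ w ∈ R, ‖(z : ℂ) - w‖ < r →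
      ∫ ω, (g i (shift z ω) - g i (shift w ω)) ^ 2 ∂μ < ((1 / 2 : ℝ) ^ j) ^ 2 :=
    fun j => modulus5 hμ hg (by positivity)
  choose r hr h1 using h
  refine ⟨fun j => min (min (r j / 2) (r (j - 1) / 2)) (1 / ((j : ℝ) + 1)), ?_, ?_, ?_⟩
  · intro j
    have := hr j
    have := hr (j - 1)
    positivity
  · intro j
    exact min_le_right _ _
  · intro j i z hz w hw hzw
    apply h1 j i z hz w hw
    refine hzw.trans_le ?_
    have h2 : min (min (r j / 2) (r (j - 1) / 2)) (1 / ((j : ℝ) + 1)) ≤ r j / 2 :=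
      (min_le_left _ _).trans (min_le_left _ _)
    have h3 : min (min (r (j + 1) / 2) (r (j + 1 - 1) / 2)) (1 / (((j + 1 : ℕ) : ℝ) + 1)) ≤
        r j / 2 := (min_le_left _ _).trans (min_le_right _ _)
    linarith

/-- the approximation of the identity -/
theorem exists_q5 (hE : KG ≤ E) (hct : Countable E) (hR : D5 hE R) {ρ : ℝ} (hρ : 0 < ρ) :
    ∃ q : ℂ → E, (∀ s, q s ∈ R) ∧ (∀ s, ‖s - q s‖ < ρ) ∧
      ∀ f : E → (E → Fin k) → ℝ, (∀ z, Measurable (f z)) →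
      Measurable fun p : ℂ × (E → Fin k) => f (q p.1) p.2 := by
  classical
  obtain ⟨e, he⟩ := exists_surjective_nat R
  have h : ∀ s : ℂ, ∃ n, ‖s - (e n : E)‖ < ρ := by
    intro s
    obtain ⟨z, hzR, hz⟩ := exists_near5 hE hR s hρ
    obtain ⟨n, hn⟩ := he ⟨z, hzR⟩
    exact ⟨n, by rw [hn]; exact hz⟩
  refine ⟨fun s => e (Nat.find (h s)), fun s => (e _).2, fun s => Nat.find_spec (h s),
    fun f hf => ?_⟩
  have h1 : ∀ p : ℂ × (E → Fin k), ∃ n, ‖p.1 - (e n : E)‖ < ρ := fun p => h p.1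
  exact Measurable.find (f := fun n (p : ℂ × (E → Fin k)) => f (e n) p.2)
    (p := fun n p => ‖p.1 - (e n : E)‖ < ρ) (fun n => (hf (e n)).comp measurable_snd)
    (fun n => measurableSet_lt (by fun_prop) measurable_const) h1

/-- the correlation of two translates of `g i` whose distance is almost `1` -/
theorem corr_small5 (hE : KG ≤ E) (h1R : ∀ c : E, (c : ℂ) ∈ KG → ‖(c : ℂ)‖ = 1 → c ∈ R)
    (hμ : RandCol E k μ) (hg : Soft5 E k μ R g) (i : Fin k) {ε : ℝ}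
    (hε : 0 < ε) : ∃ r : ℝ, 0 < r ∧ ∀ u : ℂ, ‖u‖ = 1 → ∀ z ∈ R, ∀ w ∈ R,
      ‖(w : ℂ) - (z - u)‖ < r → ∫ ω, g i (shift z ω) * g i (shift w ω) ∂μ ≤ ε := by
  have := hμ.prob
  obtain ⟨r, hr, h1⟩ := modulus5 hμ hg (δ := ε ^ 2) (by positivity)
  refine ⟨r / 2, half_pos hr, fun u hu z hz w hw hzw => ?_⟩
  obtain ⟨c, hcK, hc1, hcu⟩ := MeasA.exists_circle hu (half_pos hr)
  set c' : E := ⟨c, hE hcK⟩ with hc'
  have h2 : ∫ ω, g i (shift z ω) * g i (shift (z - c') ω) ∂μ = 0 := by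
    have h3 := hg.orth i c' hcK hc1
    have h4 := MeasA.int_shift hμ (z - c') (f := fun ω => g i (shift c' ω) * g i ω)
      ((meas_shift5 hμ hg i c').mul (hg.meas i))
    rw [h3] at h4
    simpa [MeasA.shift_shift] using h4
  have h3 : ∫ ω, (g i (shift w ω) - g i (shift (z - c') ω)) ^ 2 ∂μ ≤ ε ^ 2 := by
    refine (h1 i w hw (z - c') (R.sub_mem hz (h1R c' hcK hc1)) ?_).le
    rw [Subfield.coe_sub]
    have h4 : (w : ℂ) - (z - (c' : ℂ)) = (w - (z - u)) + (c - u) := by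
      rw [hc']
      ring
    rw [h4]
    exact (norm_add_le _ _).trans_lt (by linarith)
  have hm := (meas_shift5 hμ hg i w).sub (meas_shift5 hμ hg i (z - c'))
  have h4 := MeasA.l1_le hm (fun ω => le_one_abs5 hg i _ _) hε h3
  have hint : ∀ {F : (E → Fin k) → ℝ}, Measurable F → (∀ ω, |F ω| ≤ 1) → Integrable F μ :=
    fun hF hb => Integrable.of_bound hF.aestronglyMeasurable 1 (Eventually.of_forall hb)
  have hab : ∀ ω ω' : E → Fin k, |g i ω * g i ω'| ≤ 1 := by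
    intro ω ω'
    rw [abs_mul, abs_of_nonneg (hg.nonneg i ω), abs_of_nonneg (hg.nonneg i ω')]
    exact mul_le_one₀ (hg.le_one i ω) (hg.nonneg i ω') (hg.le_one i ω')
  have i1 : Integrable (fun ω => g i (shift z ω) * g i (shift w ω)) μ :=
    hint ((meas_shift5 hμ hg i z).mul (meas_shift5 hμ hg i w)) fun ω => hab _ _
  have i2 : Integrable (fun ω => g i (shift z ω) * g i (shift (z - c') ω)) μ :=
    hint ((meas_shift5 hμ hg i z).mul (meas_shift5 hμ hg i (z - c'))) fun ω => hab _ _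
  have i3 : Integrable (fun ω => |g i (shift w ω) - g i (shift (z - c') ω)|) μ :=
    hint hm.abs fun ω => by rw [abs_abs]; exact le_one_abs5 hg i _ _
  calc ∫ ω, g i (shift z ω) * g i (shift w ω) ∂μ
      ≤ ∫ ω, (g i (shift z ω) * g i (shift (z - c') ω) +
          |g i (shift w ω) - g i (shift (z - c') ω)|) ∂μ := by
        refine integral_mono i1 (i2.add i3) fun ω => ?_
        simp only
        have h5 : g i (shift z ω) * (g i (shift w ω) - g i (shift (z - c') ω)) ≤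
            |g i (shift w ω) - g i (shift (z - c') ω)| := by
          refine (le_abs_self _).trans ?_
          rw [abs_mul, abs_of_nonneg (hg.nonneg i _)]
          exact mul_le_of_le_one_left (abs_nonneg _) (hg.le_one i _)
        linarith
    _ = ∫ ω, |g i (shift w ω) - g i (shift (z - c') ω)| ∂μ := by
        rw [integral_add i2 i3, h2, zero_add]
    _ ≤ ε := h4

end GMeas

open GMeas

theorem aecol_five {E : Subfield ℂ} (hE : KG ≤ E) (hct : Countable E) {k : ℕ}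
    {μ : Measure (E → Fin k)} (hμ : RandCol E k μ) (R : AddSubgroup E)
    (h1 : ∀ c : E, (c : ℂ) ∈ KG → ‖(c : ℂ)‖ = 1 → c ∈ R)
    (h2 : ∀ w : KG, w ∈ Zi → ∀ n : ℕ, (⟨w, hE w.2⟩ : E) / 5 ^ n ∈ R)
    {g : Fin k → (E → Fin k) → ℝ}
    (meas : ∀ i, Measurable (g i)) (nonneg : ∀ i ω, 0 ≤ g i ω) (le_one : ∀ i ω, g i ω ≤ 1)
    (sum : ∀ᵐ ω ∂μ, ∑ i, g i ω = 1)
    (cont : ∀ i, ∀ ε > 0, ∃ δ > 0, ∀ z : E, z ∈ R → ‖(z : ℂ)‖ < δ →
      ∫ ω, (g i (shift z ω) - g i ω) ^ 2 ∂μ < ε)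
    (orth : ∀ i (c : E), (c : ℂ) ∈ KG → ‖(c : ℂ)‖ = 1 → ∫ ω, g i (shift c ω) * g i ω ∂μ = 0) :
    ∃ κ : ℂ → Fin k, Measurable κ ∧
      ∀ᵐ p : ℂ × ℝ, κ p.1 ≠ κ (p.1 + Complex.exp (p.2 * I)) := by
  have h1R := h1
  have h2R : D5 hE R := h2
  have hg : Soft5 E k μ R g := ⟨meas, nonneg, le_one, sum, cont, orth⟩
  clear h1 h2 meas nonneg le_one sum cont orth
  have hprob := hμ.prob
  obtain ⟨ρ, hρ0, hρ1, hρ2⟩ := exists_rho5 hμ hg
  choose q hqR hq hqm using fun j => exists_q5 (k := k) hE hct h2R (hρ0 j)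
  have hGm : ∀ i j, Measurable fun p : ℂ × (E → Fin k) => g i (shift (q j p.1) p.2) :=
    fun i j => hqm j (fun z ω => g i (shift z ω)) fun z => meas_shift5 hμ hg i z
  set G : Fin k → ℂ × (E → Fin k) → ℝ := fun i p =>
    limsup (fun j => g i (shift (q j p.1) p.2)) atTop with hG
  have hGG : ∀ i, Measurable (G i) := fun i => Measurable.limsup fun j => hGm i j
  have hlim : ∀ (s : ℂ) (i : Fin k), ∀ᵐ ω ∂μ,
      Tendsto (fun j => g i (shift (q j s) ω)) atTop (𝓝 (G i (s, ω))) := by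
    intro s i
    have h1 := MeasA.conv (μ := μ) (f := fun j ω => g i (shift (q j s) ω))
      (fun j => meas_shift5 hμ hg i _) (fun j ω => le_one_abs5 hg i _ _) ?_
    · filter_upwards [h1] with ω hω
      obtain ⟨l, hl⟩ := hω
      have h2 : G i (s, ω) = l := hl.limsup_eq
      rw [h2]
      exact hl
    · intro j
      refine (hρ2 j i _ (hqR _ _) _ (hqR _ _) ?_).le
      have h2 := hq j s
      have h3 := hq (j + 1) s
      have h4 : ((q (j + 1) s : ℂ)) - q j s = (s - q j s) - (s - q (j + 1) s) := by ring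
      rw [h4]
      exact (norm_sub_le _ _).trans_lt (by linarith)
  have hsum : ∀ s : ℂ, ∀ᵐ ω ∂μ, ∑ i, G i (s, ω) = 1 := by
    intro s
    have h1 : ∀ᵐ ω ∂μ, ∀ i, Tendsto (fun j => g i (shift (q j s) ω)) atTop (𝓝 (G i (s, ω))) :=
      ae_all_iff.2 fun i => hlim s i
    have h2 : ∀ᵐ ω ∂μ, ∀ j, ∑ i, g i (shift (q j s) ω) = 1 := by
      refine ae_all_iff.2 fun j => ?_
      exact (MeasA.mp_shift hμ (q j s)).quasiMeasurePreserving.ae hg.sum
    filter_upwards [h1, h2] with ω h3 h4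
    have h5 : Tendsto (fun j => ∑ i, g i (shift (q j s) ω)) atTop (𝓝 (∑ i, G i (s, ω))) :=
      tendsto_finsetSum _ fun i _ => h3 i
    have h6 : Tendsto (fun j => ∑ i, g i (shift (q j s) ω)) atTop (𝓝 1) := by
      simp only [h4]
      exact tendsto_const_nhds
    exact tendsto_nhds_unique h5 h6
  have hprod : ∀ (s u : ℂ), ‖u‖ = 1 → ∀ i, ∀ᵐ ω ∂μ, G i (s, ω) * G i (s + u, ω) = 0 := by
    intro s u hu i
    have h0 : ∀ᵐ ω ∂μ, 0 ≤ G i (s, ω) * G i (s + u, ω) := by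
      filter_upwards [hlim s i, hlim (s + u) i] with ω h1 h2
      exact mul_nonneg (ge_of_tendsto' h1 fun j => hg.nonneg i _)
        (ge_of_tendsto' h2 fun j => hg.nonneg i _)
    have hm1 : Measurable fun ω => G i (s, ω) * G i (s + u, ω) :=
      ((hGG i).comp measurable_prodMk_left).mul ((hGG i).comp measurable_prodMk_left)
    have h1 : Tendsto (fun j => ∫ ω, g i (shift (q j (s + u)) ω) * g i (shift (q j s) ω) ∂μ) atTop
        (𝓝 (∫ ω, G i (s, ω) * G i (s + u, ω) ∂μ)) := by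
      refine tendsto_integral_of_dominated_convergence (fun _ => (1 : ℝ)) ?_
        (integrable_const _) ?_ ?_
      · intro j
        exact ((meas_shift5 hμ hg i _).mul
          (meas_shift5 hμ hg i _)).aestronglyMeasurable
      · intro j
        refine Eventually.of_forall fun ω => ?_
        rw [Real.norm_eq_abs, abs_mul, abs_of_nonneg (hg.nonneg i _),
          abs_of_nonneg (hg.nonneg i _)]
        exact mul_le_one₀ (hg.le_one i _) (hg.nonneg i _) (hg.le_one i _)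
      · filter_upwards [hlim s i, hlim (s + u) i] with ω h1 h2
        rw [mul_comm (G i (s, ω))]
        exact h2.mul h1
    have h2 : ∀ ε : ℝ, 0 < ε → ∫ ω, G i (s, ω) * G i (s + u, ω) ∂μ ≤ ε := by
      intro ε hε
      obtain ⟨r, hr, h3⟩ := corr_small5 hE h1R hμ hg i hε
      refine le_of_tendsto h1 ?_
      have h4 : Tendsto (fun j : ℕ => 2 * (1 / ((j : ℝ) + 1))) atTop (𝓝 (2 * 0)) :=
        tendsto_one_div_add_atTop_nhds_zero_nat.const_mul 2
      rw [mul_zero] at h4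
      filter_upwards [h4.eventually_lt_const hr] with j hj
      refine h3 u hu _ (hqR _ _) _ (hqR _ _) ?_
      have h5 := (hq j s).trans_le (hρ1 j)
      have h6 := (hq j (s + u)).trans_le (hρ1 j)
      have h7 : ((q j s : ℂ)) - (q j (s + u) - u) = (s + u - q j (s + u)) - (s - q j s) := by
        ring
      rw [h7]
      exact (norm_sub_le _ _).trans_lt (by linarith)
    have h3 : ∫ ω, G i (s, ω) * G i (s + u, ω) ∂μ = 0 :=
      le_antisymm (le_of_forall_pos_le_add fun ε hε => by rw [zero_add]; exact h2 ε hε)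
        (integral_nonneg_of_ae h0)
    have hi : Integrable (fun ω => G i (s, ω) * G i (s + u, ω)) μ := by
      refine Integrable.of_bound hm1.aestronglyMeasurable 1 ?_
      filter_upwards [hlim s i, hlim (s + u) i] with ω h1 h2
      have a1 := ge_of_tendsto' h1 fun j => hg.nonneg i _
      have a2 := ge_of_tendsto' h2 fun j => hg.nonneg i _
      have b1 := le_of_tendsto' h1 fun j => hg.le_one i _
      have b2 := le_of_tendsto' h2 fun j => hg.le_one i _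
      rw [Real.norm_eq_abs, abs_mul, abs_of_nonneg a1, abs_of_nonneg a2]
      exact mul_le_one₀ b1 a2 b2
    have h4 := (integral_eq_zero_iff_of_nonneg_ae h0 hi).1 h3
    filter_upwards [h4] with ω hω
    simpa using hω
  set e : ℂ × ℝ → ℂ := fun p => p.1 + Complex.exp (p.2 * I) with he
  have hem : Measurable e := by
    have : Continuous e := by
      simp only [he]
      fun_prop
    exact this.measurable
  have hall : ∀ p : ℂ × ℝ, ∀ᵐ ω ∂μ, (∑ i, G i (p.1, ω) = 1 ∧ ∑ i, G i (e p, ω) = 1) ∧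
      ∀ i, G i (p.1, ω) * G i (e p, ω) = 0 := by
    intro p
    refine ((hsum p.1).and (hsum (e p))).and (ae_all_iff.2 fun i => ?_)
    exact hprod p.1 (Complex.exp (p.2 * I)) (Complex.norm_exp_ofReal_mul_I p.2) i
  have hA : ∀ i, Measurable fun x : (ℂ × ℝ) × (E → Fin k) => G i (x.1.1, x.2) := fun i =>
    (hGG i).comp ((measurable_fst.comp measurable_fst).prodMk measurable_snd)
  have hB : ∀ i, Measurable fun x : (ℂ × ℝ) × (E → Fin k) => G i (e x.1, x.2) := fun i =>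
    (hGG i).comp ((hem.comp measurable_fst).prodMk measurable_snd)
  have hms : MeasurableSet {x : (ℂ × ℝ) × (E → Fin k) |
      (∑ i, G i (x.1.1, x.2) = 1 ∧ ∑ i, G i (e x.1, x.2) = 1) ∧
      ∀ i, G i (x.1.1, x.2) * G i (e x.1, x.2) = 0} := by
    refine MeasurableSet.inter (MeasurableSet.inter ?_ ?_) ?_
    · exact measurableSet_eq_fun (Finset.measurable_sum _ fun i _ => hA i) measurable_const
    · exact measurableSet_eq_fun (Finset.measurable_sum _ fun i _ => hB i) measurable_const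
    · have h1 : {x : (ℂ × ℝ) × (E → Fin k) | ∀ i, G i (x.1.1, x.2) * G i (e x.1, x.2) = 0} =
          ⋂ i, {x : (ℂ × ℝ) × (E → Fin k) | G i (x.1.1, x.2) * G i (e x.1, x.2) = 0} := by
        ext x
        simp
      change MeasurableSet
        {x : (ℂ × ℝ) × (E → Fin k) | ∀ i, G i (x.1.1, x.2) * G i (e x.1, x.2) = 0}
      rw [h1]
      exact MeasurableSet.iInter fun i =>
        measurableSet_eq_fun ((hA i).mul (hB i)) measurable_const
  have hsw := (Measure.ae_ae_comm (μ := (volume : Measure (ℂ × ℝ))) (ν := μ)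
    (p := fun p ω => (∑ i, G i (p.1, ω) = 1 ∧ ∑ i, G i (e p, ω) = 1) ∧
      ∀ i, G i (p.1, ω) * G i (e p, ω) = 0) hms).1 (Eventually.of_forall hall)
  obtain ⟨ω, hω⟩ := hsw.exists
  have hk : 0 < k := (ω 0).pos
  obtain ⟨κ, hκm, hκ⟩ := MeasA.exists_least hk (F := fun i s => G i (s, ω))
    (fun i => (hGG i).comp measurable_prodMk_right)
  refine ⟨κ, hκm, ?_⟩
  filter_upwards [hω] with p hp heq
  obtain ⟨⟨h1, h2⟩, h3⟩ := hp
  have h4 := hκ _ h1
  have h5 := hκ _ h2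
  have h6 := h3 (κ p.1)
  have h7 : κ (e p) = κ p.1 := heq.symm
  rw [h7] at h5
  exact (mul_pos h4 h5).ne' h6

end Pool.Agent.MP_8b8716_co_QG
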