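import Mathlib
import Pool.Agent.Lib.MP_8b8716_co_HN.Basic
import Pool.Agent.Lib.MP_8b8716_co_HN.Avg
import Pool.Agent.Lib.MP_8b8716_co_QG.Defs
import Pool.Agent.Lib.MP_8b8716_co_QG.GRR
import Pool.Agent.Lib.MP_8b8716_co_QG.GCo
import Pool.Agent.Lib.MP_8b8716_co_QG.GExLim
import Pool.Agent.Lib.MP_8b8716_co_QG.GLimC
import Pool.Agent.Lib.MP_8b8716_co_QG.GPsi
import Pool.Agent.Lib.MP_8b8716_co_QG.GKey
import Pool.Agent.Lib.MP_8b8716_co_QG.GMeas

set_option autoImplicit false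

/-!
# MP_8b8716_co, project QG: a measurable colouring of the plane
-/

noncomputable section

namespace Pool.Agent.MP_8b8716_co_QG

open Complex MeasureTheory Filter Topology Set
open NumberField
open Pool.Agent.MP_8b8716_co_HN

namespace GSoft

/-- the threshold -/
def t0 (lam : ℝ) : ℝ := lam / (1 + lam)

/-- the lower bound of the denominator -/
def s0 (lam : ℝ) (k : ℕ) : ℝ := 1 / (k : ℝ) - t0 lam

section
variable {lam : ℝ}

theorem t0_nonneg (hl : 0 ≤ lam) : 0 ≤ t0 lam := by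
  unfold t0
  positivity

theorem t0_mul (hl : 0 ≤ lam) : t0 lam * (1 + lam) = lam := by
  unfold t0
  have : (1 + lam) ≠ 0 := by positivity
  field_simp

theorem s0_pos (hl : 0 ≤ lam) {k : ℕ} (hk0 : 0 < k) (hk : ((k : ℝ) - 1) * lam < 1) :
    0 < s0 lam k := by
  have hk1 : (0 : ℝ) < k := by exact_mod_cast hk0
  unfold s0 t0
  rw [sub_pos, div_lt_div_iff₀ (by linarith) hk1]
  linarith

theorem FF_pos (hl : 0 ≤ lam) {a b : ℝ} (ha : t0 lam < a) (hb : t0 lam < b) :
    0 < FF lam a b := by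
  have h0 := t0_nonneg hl
  have h1 : FF lam a b = (1 + lam) / 2 * (a * (b - t0 lam) + b * (a - t0 lam)) +
      lam / 2 * (a - b) ^ 2 := by
    unfold FF
    linear_combination ((a + b) / 2) * t0_mul hl
  rw [h1]
  have h2 : 0 < a * (b - t0 lam) := mul_pos (h0.trans_lt ha) (by linarith)
  have h3 : 0 < b * (a - t0 lam) := mul_pos (h0.trans_lt hb) (by linarith)
  have h4 : 0 ≤ lam / 2 * (a - b) ^ 2 := by positivity
  have h5 : 0 < (1 + lam) / 2 * (a * (b - t0 lam) + b * (a - t0 lam)) := by positivity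
  linarith

end

section
variable {E : Subfield ℂ} {k : ℕ} {t s : ℝ}

/-- the positive part above the threshold -/
def P (t : ℝ) (G : Fin k → (E → Fin k) → ℝ) (i : Fin k) (ω : E → Fin k) : ℝ := max (G i ω - t) 0

/-- the sum of the positive parts -/
def Sm (t : ℝ) (G : Fin k → (E → Fin k) → ℝ) (ω : E → Fin k) : ℝ := ∑ j, P t G j ω

/-- the soft colouring -/
def gg (t : ℝ) (G : Fin k → (E → Fin k) → ℝ) (i : Fin k) (ω : E → Fin k) : ℝ :=
  P t G i ω / Sm t G ω

variable {G : Fin k → (E → Fin k) → ℝ}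

theorem P_nonneg (i : Fin k) (ω : E → Fin k) : 0 ≤ P t G i ω := le_max_right _ _

theorem Sm_nonneg (ω : E → Fin k) : 0 ≤ Sm t G ω := Finset.sum_nonneg fun j _ => P_nonneg j ω

theorem P_le_Sm (i : Fin k) (ω : E → Fin k) : P t G i ω ≤ Sm t G ω :=
  Finset.single_le_sum (f := fun j => P t G j ω) (fun j _ => P_nonneg j ω) (Finset.mem_univ i)

theorem gg_nonneg (i : Fin k) (ω : E → Fin k) : 0 ≤ gg t G i ω :=
  div_nonneg (P_nonneg i ω) (Sm_nonneg ω)

theorem gg_le_one (i : Fin k) (ω : E → Fin k) : gg t G i ω ≤ 1 :=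
  div_le_one_of_le₀ (P_le_Sm i ω) (Sm_nonneg ω)

theorem measurable_P (hG : ∀ i, Measurable (G i)) (i : Fin k) : Measurable (P t G i) :=
  ((hG i).sub_const _).max measurable_const

theorem measurable_Sm (hG : ∀ i, Measurable (G i)) : Measurable (Sm t G) := by
  unfold Sm
  exact Finset.measurable_sum _ fun j _ => measurable_P hG j

theorem measurable_gg (hG : ∀ i, Measurable (G i)) (i : Fin k) : Measurable (gg t G i) :=
  (measurable_P hG i).div (measurable_Sm hG)

theorem Sm_ge (hk0 : 0 < k) {ω : E → Fin k} (h : ∑ i, G i ω = 1) (hs : s + t ≤ 1 / (k : ℝ)) :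
    s ≤ Sm t G ω := by
  have hk1 : (0 : ℝ) < k := by exact_mod_cast hk0
  have : ∃ j, 1 / (k : ℝ) ≤ G j ω := by
    by_contra hcon
    push Not at hcon
    have h1 : ∑ i, G i ω < ∑ _i : Fin k, (1 / (k : ℝ)) :=
      Finset.sum_lt_sum_of_nonempty ⟨⟨0, hk0⟩, Finset.mem_univ _⟩ fun i _ => hcon i
    rw [h, Finset.sum_const, Finset.card_univ, Fintype.card_fin, nsmul_eq_mul,
      mul_one_div_cancel hk1.ne'] at h1
    exact lt_irrefl _ h1
  obtain ⟨j, hj⟩ := this
  have h1 : s ≤ P t G j ω := by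
    unfold P
    exact le_trans (by linarith) (le_max_left _ _)
  exact h1.trans (P_le_Sm j ω)

theorem abs_P_sub (j : Fin k) (ω ω' : E → Fin k) :
    |P t G j ω' - P t G j ω| ≤ |G j ω' - G j ω| := by
  unfold P
  have := abs_max_sub_max_le_abs (G j ω' - t) (G j ω - t) 0
  have e : G j ω' - t - (G j ω - t) = G j ω' - G j ω := by ring
  rwa [e] at this

theorem abs_gg_sub (hs : 0 < s) (i : Fin k) {ω ω' : E → Fin k} (h : s ≤ Sm t G ω)
    (h' : s ≤ Sm t G ω') : |gg t G i ω' - gg t G i ω| ≤ 2 / s * ∑ j, |G j ω' - G j ω| := by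
  have hS : 0 < Sm t G ω := hs.trans_le h
  have hS' : 0 < Sm t G ω' := hs.trans_le h'
  set T : ℝ := ∑ j, |G j ω' - G j ω| with hT
  have hT0 : 0 ≤ T := Finset.sum_nonneg fun j _ => abs_nonneg _
  have h1 : |P t G i ω' - P t G i ω| ≤ T :=
    (abs_P_sub i ω ω').trans (Finset.single_le_sum (f := fun j => |G j ω' - G j ω|)
      (fun j _ => abs_nonneg _) (Finset.mem_univ i))
  have h2 : |Sm t G ω - Sm t G ω'| ≤ T := by
    unfold Sm
    rw [← Finset.sum_sub_distrib]
    refine (Finset.abs_sum_le_sum_abs _ _).trans (Finset.sum_le_sum fun j _ => ?_)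
    rw [abs_sub_comm]
    exact abs_P_sub j ω ω'
  have e : gg t G i ω' - gg t G i ω =
      ((P t G i ω' - P t G i ω) + gg t G i ω * (Sm t G ω - Sm t G ω')) / Sm t G ω' := by
    unfold gg
    field_simp
    ring
  rw [e, abs_div, abs_of_pos hS', div_le_iff₀ hS']
  have h3 : |P t G i ω' - P t G i ω + gg t G i ω * (Sm t G ω - Sm t G ω')| ≤ T + T := by
    refine (abs_add_le _ _).trans (add_le_add h1 ?_)
    rw [abs_mul, abs_of_nonneg (gg_nonneg i ω)]
    calc gg t G i ω * |Sm t G ω - Sm t G ω'| ≤ 1 * T :=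
          mul_le_mul (gg_le_one i ω) h2 (abs_nonneg _) zero_le_one
      _ = T := one_mul T
  refine h3.trans ?_
  have h4 : 2 / s * T * s ≤ 2 / s * T * Sm t G ω' :=
    mul_le_mul_of_nonneg_left h' (by positivity)
  have h5 : 2 / s * T * s = T + T := by
    field_simp
    ring
  linarith

theorem sq_gg_sub (hs : 0 < s) (i : Fin k) {ω ω' : E → Fin k} (h : s ≤ Sm t G ω)
    (h' : s ≤ Sm t G ω') :
    (gg t G i ω' - gg t G i ω) ^ 2 ≤ 4 / s ^ 2 * k * ∑ j, (G j ω' - G j ω) ^ 2 := by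
  have h1 := abs_gg_sub hs i h h'
  have h2 : (gg t G i ω' - gg t G i ω) ^ 2 ≤ (2 / s * ∑ j, |G j ω' - G j ω|) ^ 2 := by
    rw [← sq_abs]
    exact pow_le_pow_left₀ (abs_nonneg _) h1 2
  refine h2.trans ?_
  have h3 : (∑ j, |G j ω' - G j ω|) ^ 2 ≤ (Finset.univ : Finset (Fin k)).card *
      ∑ j, |G j ω' - G j ω| ^ 2 := sq_sum_le_card_mul_sum_sq
  rw [Finset.card_univ, Fintype.card_fin] at h3
  simp only [sq_abs] at h3
  calc (2 / s * ∑ j, |G j ω' - G j ω|) ^ 2 = 4 / s ^ 2 * (∑ j, |G j ω' - G j ω|) ^ 2 := by ring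
    _ ≤ 4 / s ^ 2 * (k * ∑ j, (G j ω' - G j ω) ^ 2) :=
        mul_le_mul_of_nonneg_left h3 (by positivity)
    _ = _ := by ring

end

/-- the additive group of the elements of `KG` which are in `RR E` -/
def R (E : Subfield ℂ) [Cj E] : AddSubgroup E where
  carrier := {z | (z : ℂ) ∈ KG ∧ z ∈ RR E}
  add_mem' := by
    rintro a b ⟨ha, ha'⟩ ⟨hb, hb'⟩
    exact ⟨by
      rw [Subfield.coe_add]
      exact KG.add_mem ha hb, (RR E).add_mem ha' hb'⟩
  zero_mem' := ⟨by
    rw [ZeroMemClass.coe_zero]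
    exact KG.zero_mem, (RR E).zero_mem⟩
  neg_mem' := by
    rintro a ⟨ha, ha'⟩
    exact ⟨by
      rw [Subfield.coe_neg]
      exact KG.neg_mem ha, (RR E).neg_mem ha'⟩

section
variable {E : Subfield ℂ} [NumberField E] [Cj E]

theorem zi_mem_RR (hE : KG ≤ E) {w : KG} (hw : w ∈ Zi) : (⟨w, hE w.2⟩ : E) ∈ RR E := by
  have hI : I ∈ E := hE ⟨0, 1, by simp⟩
  obtain ⟨a, b, h⟩ := hw
  have hI' : (⟨I, hI⟩ : E) ∈ RR E := norm_one_mem_RR (by simp)
  have e : (⟨w, hE w.2⟩ : E) = (a : E) + (b : E) * ⟨I, hI⟩ := by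
    have ha : ((a : E) : ℂ) = a := map_intCast E.subtype a
    have hb : ((b : E) : ℂ) = b := map_intCast E.subtype b
    apply Subtype.ext
    simp only [Subfield.coe_add, Subfield.coe_mul, ha, hb]
    exact h
  rw [e]
  exact (RR E).add_mem (intCast_mem _ a) ((RR E).mul_mem (intCast_mem _ b) hI')

theorem zi_div_mem_R (hE : KG ≤ E) {w : KG} (hw : w ∈ Zi) (n : ℕ) :
    (⟨w, hE w.2⟩ : E) / 5 ^ n ∈ R E := by
  have hI : I ∈ E := hE ⟨0, 1, by simp⟩
  constructor
  · have e : (((⟨w, hE w.2⟩ : E) / 5 ^ n : E) : ℂ) = ((w / 5 ^ n : KG) : ℂ) := by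
      push_cast
      rfl
    rw [e]
    exact (w / 5 ^ n : KG).2
  · rw [div_eq_mul_inv, ← inv_pow]
    exact (RR E).mul_mem (zi_mem_RR hE hw) ((RR E).pow_mem (five_inv_mem_RR hI) n)

end

end GSoft

open GSoft AvgPf in
theorem gsoft {E : Subfield ℂ} [NumberField E] [Cj E] (hE : Euc E) {Q : Set ℕ} {lam : ℝ}
    (hg : GapAt Q lam) (hB : BB E Q) {Om : Set (E → Circle)} {k : ℕ}
    (hk : ((k : ℝ) - 1) * lam < 1) {μ : Measure (E → Fin k)} {σ : Fin k → Measure (E → Circle)} (hS : Spec E Om k μ σ) : ∃ κ : ℂ → Fin k, Measurable κ ∧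
      ∀ᵐ p : ℂ × ℝ, κ p.1 ≠ κ (p.1 + Complex.exp (p.2 * I)) := by
  have hμ := hS.col
  have := hμ.prob
  have hI : I ∈ E := hE.i_mem
  have hl : 0 ≤ lam := hg.1
  have hk0 : 0 < k := by
    rcases Nat.eq_zero_or_pos k with h0 | h0
    · exfalso
      subst h0
      have h1 : IsEmpty (E → Fin 0) := ⟨fun f => (f 0).elim0⟩
      have h2 : μ Set.univ = 1 := measure_univ
      rw [Set.univ_eq_empty_iff.2 h1, measure_empty] at h2
      exact zero_ne_one h2
    · exact h0
  have hs : 0 < s0 lam k := s0_pos hl hk0 hk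
  choose G hG using fun i : Fin k => exists_lim hI hS one_pos i
  have hGm : ∀ i, Measurable (G i) := fun i => (hG i).meas
  have hGa : ∀ i ω, |G i ω| ≤ 1 := fun i ω => by
    rw [abs_of_nonneg ((hG i).nonneg ω)]
    exact (hG i).le_one ω
  have hsum : ∀ᵐ ω ∂μ, ∑ i, G i ω = 1 := lim_sum hμ hG
  have hSm : ∀ᵐ ω ∂μ, s0 lam k ≤ Sm (t0 lam) G ω := by
    filter_upwards [hsum] with ω hω
    exact Sm_ge hk0 hω (by unfold s0; linarith)
  obtain ⟨C, hC, hCn⟩ := nrm_le_of_KG hI
  refine aecol_five hE.KG_le hE.ctb hμ (R E) (fun c h0 hc => ⟨h0, norm_one_mem_RR hc⟩)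
    (fun w hw n => zi_div_mem_R hE.KG_le hw n) (g := gg (t0 lam) G)
    (fun i => measurable_gg hGm i) gg_nonneg gg_le_one ?_ ?_ ?_
  · -- the sum
    filter_upwards [hSm] with ω hω
    have h0 : Sm (t0 lam) G ω ≠ 0 := (hs.trans_le hω).ne'
    unfold gg
    rw [← Finset.sum_div]
    exact div_self h0
  · -- continuity
    intro i ε hε
    have hk1 : (0 : ℝ) < k := by exact_mod_cast hk0
    set η : ℝ := ε / (16 / s0 lam k ^ 2 * k * k) with hη
    have hη0 : 0 < η := by positivity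
    choose δ hδ0 hδ using fun j : Fin k => psi_cont (hS.nice j) (m := 1) hη0
    refine ⟨Finset.univ.inf' ⟨i, Finset.mem_univ i⟩ δ / C, ?_, fun z hz hzn => ?_⟩
    · refine div_pos ?_ hC
      rw [Finset.lt_inf'_iff]
      exact fun j _ => hδ0 j
    have hzn' : nrm E z < Finset.univ.inf' ⟨i, Finset.mem_univ i⟩ δ := by
      refine (hCn z hz.1).trans_lt ?_
      rw [lt_div_iff₀ hC] at hzn
      rwa [mul_comm]
    have hmv : ∀ j, Measurable fun ω : E → Fin k => G j (shift z ω) := fun j =>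
      (hGm j).comp (measurable_shift z)
    have hj : ∀ j, ∫ ω, (G j (shift z ω) - G j ω) ^ 2 ∂μ ≤ 2 * η := by
      intro j
      rw [sq_expand (F := fun ω => G j (shift z ω)) hμ (hmv j) (hGm j)
        (fun ω => hGa j _) (hGa j)]
      have h1 : ∫ ω, G j (shift z ω) * G j (shift z ω) ∂μ = ∫ ω, G j ω * G j ω ∂μ :=
        integral_shift hμ z ((hGm j).mul (hGm j))
      have h2 := lim_corr hI hS one_pos one_pos (hG j) (hG j) z
      have h3 := lim_corr hI hS one_pos one_pos (hG j) (hG j) 0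
      simp only [shift_zero] at h3
      have h4 := hδ j 0 z hz.2 (by
        rw [Nat.cast_one, one_mul]
        exact lt_of_lt_of_le hzn' (Finset.inf'_le _ (Finset.mem_univ j)))
      rw [Nat.cast_one, one_mul, zero_add] at h4
      rw [Set.inter_assoc, Set.inter_self] at h2 h3
      rw [← h2, ← h3, ← Complex.ofReal_sub, Complex.norm_real, Real.norm_eq_abs, abs_lt] at h4
      rw [h1]
      linarith [h4.1]
    have hbd : ∀ᵐ ω ∂μ, (gg (t0 lam) G i (shift z ω) - gg (t0 lam) G i ω) ^ 2 ≤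
        4 / s0 lam k ^ 2 * k * ∑ j, (G j (shift z ω) - G j ω) ^ 2 := by
      filter_upwards [hSm, (mp_shift hμ z).quasiMeasurePreserving.ae hSm] with ω h1 h2
      exact sq_gg_sub hs i h1 h2
    have hint : ∀ j, Integrable (fun ω => (G j (shift z ω) - G j ω) ^ 2) μ := fun j => by
      refine integrable_bdd hμ (((hmv j).sub (hGm j)).pow_const 2) 4 fun ω => ?_
      rw [abs_pow]
      have : |G j (shift z ω) - G j ω| ≤ 2 := by
        refine (abs_sub _ _).trans ?_
        linarith [hGa j (shift z ω), hGa j ω]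
      calc |G j (shift z ω) - G j ω| ^ 2 ≤ 2 ^ 2 := pow_le_pow_left₀ (abs_nonneg _) this 2
        _ = 4 := by norm_num
    have hint2 : Integrable (fun ω => (gg (t0 lam) G i (shift z ω) - gg (t0 lam) G i ω) ^ 2) μ := by
      refine integrable_bdd hμ ((((measurable_gg hGm i).comp (measurable_shift z)).sub
        (measurable_gg hGm i)).pow_const 2) 1 fun ω => ?_
      rw [abs_pow]
      have : |gg (t0 lam) G i (shift z ω) - gg (t0 lam) G i ω| ≤ 1 := by
        rw [abs_le]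
        constructor
        · linarith [gg_nonneg (t := t0 lam) (G := G) i (shift z ω),
            gg_le_one (t := t0 lam) (G := G) i ω]
        · linarith [gg_nonneg (t := t0 lam) (G := G) i ω,
            gg_le_one (t := t0 lam) (G := G) i (shift z ω)]
      exact pow_le_one₀ (abs_nonneg _) this
    calc ∫ ω, (gg (t0 lam) G i (shift z ω) - gg (t0 lam) G i ω) ^ 2 ∂μ
        ≤ ∫ ω, 4 / s0 lam k ^ 2 * k * ∑ j, (G j (shift z ω) - G j ω) ^ 2 ∂μ :=
          integral_mono_ae hint2 ((integrable_finsetSum _ fun j _ => hint j).const_mul _) hbd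
      _ = 4 / s0 lam k ^ 2 * k * ∑ j, ∫ ω, (G j (shift z ω) - G j ω) ^ 2 ∂μ := by
          rw [integral_const_mul, integral_finsetSum _ fun j _ => hint j]
      _ ≤ 4 / s0 lam k ^ 2 * k * ∑ _j : Fin k, 2 * η :=
          mul_le_mul_of_nonneg_left (Finset.sum_le_sum fun j _ => hj j) (by positivity)
      _ = ε / 2 := by
          rw [Finset.sum_const, Finset.card_univ, Fintype.card_fin, nsmul_eq_mul, hη]
          field_simp
          ring
      _ < ε := by linarith
  · -- orthogonality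
    intro i c h0 hc
    have h1 : ∀ᵐ ω ∂μ, gg (t0 lam) G i (shift c ω) * gg (t0 lam) G i ω = 0 := by
      filter_upwards [key hI hg hB hS (hG i) h0 hc] with ω hω
      rcases le_or_gt (G i (shift c ω)) (t0 lam) with h2 | h2
      · have : P (t0 lam) G i (shift c ω) = 0 := max_eq_right (by linarith)
        unfold gg
        rw [this, zero_div, zero_mul]
      · rcases le_or_gt (G i ω) (t0 lam) with h3 | h3
        · have : P (t0 lam) G i ω = 0 := max_eq_right (by linarith)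
          unfold gg
          rw [this, zero_div, mul_zero]
        · exact absurd hω (not_le.2 (FF_pos hl h2 h3))
    rw [integral_congr_ae h1]
    simp

end Pool.Agent.MP_8b8716_co_QG
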