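import Mathlib
import Pool.Agent.Lib.MP_8b8716_co_QG.Defs
import Pool.Agent.Lib.MP_8b8716_co_QG.GKill
import Pool.Agent.Lib.MP_8b8716_co_QG.GLam

set_option autoImplicit false

/-!
# MP_8b8716_co, project QG: from `NX` to `SM`
-/

noncomputable section

namespace Pool.Agent.MP_8b8716_co_QG

open Complex MeasureTheory Filter Topology Set
open NumberField
open Pool.Agent.MP_8b8716_co_HN

section
variable {E : Subfield ℂ} [NumberField E] [Cj E]

namespace GStr

/-- the ideal of the integers `a` with `a y` in `NX` -/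
def jd (hE : KG ≤ E) {x : E → Circle} (hx : IsChar x) (y : E) : Ideal (𝓞 E) where
  carrier := {a | io E a * y ∈ NX hE x}
  add_mem' := by
    intro a b ha hb
    have h := (NX_module hE hx).2.1 _ ha _ hb
    rw [← add_mul, ← map_add] at h
    exact h
  zero_mem' := by
    have h := (NX_module hE hx).1
    show io E 0 * y ∈ NX hE x
    rw [map_zero, zero_mul]
    exact h
  smul_mem' := by
    intro c a ha
    have h := (NX_module hE hx).2.2 _ ha c
    rw [← mul_assoc, ← map_mul] at h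
    exact h

theorem mem_jd (hE : KG ≤ E) {x : E → Circle} (hx : IsChar x) (y : E) (a : 𝓞 E) :
    a ∈ jd hE hx y ↔ io E a * y ∈ NX hE x := Iff.rfl

/-- `NX` is closed under division by the elements of `SS` -/
theorem mem_of_SS (hE : KG ≤ E) {x : E → Circle} (hx : IsChar x)
    (hk : ∀ P : Ideal (𝓞 E), P.IsMaximal → ¬ Stab E P → ∀ y : E, ∃ a : 𝓞 E, a ∉ P ∧
        io E a * y ∈ NX hE x) {s : 𝓞 E} (hs : s ∈ SS E) {y : E} (hy : io E s * y ∈ NX hE x) :
    y ∈ NX hE x := by
  have htop : jd hE hx y = ⊤ := by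
    by_contra hne
    obtain ⟨P, hP, hle⟩ := Ideal.exists_le_maximal _ hne
    have hsP : s ∈ P := hle ((mem_jd hE hx y s).2 hy)
    have hst : ¬ Stab E P := fun hS => hs P hS hsP
    obtain ⟨a, haP, ha⟩ := hk P hP hst y
    exact haP (hle ((mem_jd hE hx y a).2 ha))
  have h1 : (1 : 𝓞 E) ∈ jd hE hx y := by
    rw [htop]
    exact Submodule.mem_top
  rw [mem_jd, map_one, one_mul] at h1
  exact h1

end GStr

theorem gstr (hE : KG ≤ E) {x : E → Circle} (hx : IsChar x) (h : x ∈ OM hE)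
    (hk : ∀ P : Ideal (𝓞 E), P.IsMaximal → ¬ Stab E P → ∀ y : E, ∃ a : 𝓞 E, a ∉ P ∧
        io E a * y ∈ NX hE x) : ∃ m : ℕ, 0 < m ∧ x ∈ SM E m := by
  obtain ⟨m, hm, h1⟩ := NX_full hE hx h 1
  obtain ⟨t, ht⟩ := exists_freq hE hx h
  refine ⟨m, hm, t, fun r hr => ?_⟩
  obtain ⟨s, hs, a, hsa⟩ := hr
  have h2 : io E s * ((m : E) * r) ∈ NX hE x := by
    have h3 := (NX_module hE hx).2.2 _ h1 a
    have h4 : io E s * ((m : E) * r) = io E a * ((m : E) * 1) := by
      rw [← hsa]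
      ring
    rw [h4]
    exact h3
  have h5 : (m : E) * r ∈ NX hE x := GStr.mem_of_SS hE hx hk hs h2
  obtain ⟨ξ, hξ⟩ := h5 1
  rw [map_one, mul_one] at hξ
  exact ht _ ξ hξ

end

end Pool.Agent.MP_8b8716_co_QG
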