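import Pool.Agent.Lib.MP_8b8716_co_QF.QRig
import Pool.Agent.Lib.MP_8b8716_co_QG.Defs
import Pool.Agent.Lib.MP_8b8716_co_QG.GKill
import Pool.Agent.Lib.MP_8b8716_co_QG.GStr

set_option autoImplicit false
set_option linter.unusedSectionVars false

/-!
# MP_8b8716_co, project QG, module GRig: the spectral measures are nice
-/

noncomputable section

namespace Pool.Agent.MP_8b8716_co_QG

open Complex MeasureTheory Filter Topology Set
open NumberField
open Pool.Agent.MP_8b8716_co_HN

namespace GRig

variable {E : Subfield ℂ}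

lemma measurableSet_OM (hE : Euc E) : MeasurableSet (OM hE.KG_le) :=
  MP_8b8716_co_QF.QRig.measurableSet_SS hE

lemma preimage_OM (hE : Euc E) {c : E} (hc : c ≠ 0) :
    mulAct c ⁻¹' (OM hE.KG_le) = OM hE.KG_le :=
  MP_8b8716_co_QF.QRig.preimage_SS hE hc

lemma inv_map {σ : Measure (E → Circle)} (hI : Inv E σ) (u : E) :
    Inv E (σ.map (mulAct u)) := by
  intro c hc
  refine ⟨measurable_mulAct c, ?_⟩
  rw [Measure.map_map (measurable_mulAct c) (measurable_mulAct u)]
  have h : (mulAct c ∘ mulAct u : (E → Circle) → E → Circle) = mulAct u ∘ mulAct c := by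
    funext y
    simp only [Function.comp_apply, mulAct_mulAct, mul_comm]
  rw [h, ← Measure.map_map (measurable_mulAct u) (measurable_mulAct c), (hI c hc).map_eq]

lemma measurable_ev (u : E) : Measurable fun y : E → Circle => ((y u : Circle) : ℂ) :=
  (by fun_prop : Continuous fun c : Circle => (c : ℂ)).measurable.comp (measurable_pi_apply u)

/-- the integral of `x 1` off `OM` vanishes -/
lemma zero_one (hE : Euc E) (σ : Measure (E → Circle)) [IsFiniteMeasure σ]
    (hc : ∀ᵐ x ∂σ, IsChar x) (hI : Inv E σ) :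
    ∫ x in (OM hE.KG_le)ᶜ, (x 1 : ℂ) ∂σ = 0 := by
  have := hE.ctb
  have hm := measurable_line hE.KG_le 1
  have hchr : ∀ᵐ y ∂(σ.map (line hE.KG_le 1)), IsChar y := by
    rw [ae_map_iff hm.aemeasurable measurableSet_isChar]
    filter_upwards [hc] with x hx
    exact isChar_line hE.KG_le 1 hx
  have h0 := MP_8b8716_co_QF.QRig.zero_of hchr (MP_8b8716_co_QF.QRig.inv_line hE hI)
    (u := 1) one_ne_zero
  have hae : ((OM hE.KG_le)ᶜ : Set (E → Circle)) =ᵐ[σ] (line hE.KG_le 1 ⁻¹' AAᶜ : Set (E → Circle)) := by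
    filter_upwards [vx hE σ hc hI] with x hx
    apply propext
    show ¬ (∀ z : E, line hE.KG_le z x ∈ AA) ↔ ¬ (line hE.KG_le 1 x ∈ AA)
    exact not_congr ⟨fun h => h 1, fun h => hx h⟩
  rw [setIntegral_congr_set hae]
  rw [setIntegral_map measurableSet_AA.compl (measurable_ev 1).aestronglyMeasurable
    hm.aemeasurable] at h0
  rw [← h0]
  refine integral_congr_ae (Eventually.of_forall fun x => ?_)
  show ((x 1 : Circle) : ℂ) = ((line hE.KG_le 1 x 1 : Circle) : ℂ)
  simp only [line]
  congr 2
  rw [one_mul]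
  rfl

end GRig

variable {E : Subfield ℂ} [NumberField E] [Cj E]

theorem grig (hE : Euc E) (σ : Measure (E → Circle)) [IsFiniteMeasure σ]
    (hc : ∀ᵐ x ∂σ, IsChar x) (hI : Inv E σ) : Nice E (OM hE.KG_le) σ := by
  have := hE.ctb
  refine ⟨inferInstance, GRig.measurableSet_OM hE, hc, ?_, ?_⟩
  · filter_upwards [hc, kill hE σ hc hI] with x hx hk hO
    exact gstr hE.KG_le hx hO (hk hO)
  · intro u hu
    have h1 : ∀ᵐ x ∂(σ.map (mulAct u)), IsChar x := by
      rw [ae_map_iff (measurable_mulAct u).aemeasurable measurableSet_isChar]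
      filter_upwards [hc] with y hy
      exact hy.mulAct u
    have h2 := GRig.zero_one hE (σ.map (mulAct u)) h1 (GRig.inv_map hI u)
    rw [setIntegral_map (GRig.measurableSet_OM hE).compl
      (GRig.measurable_ev 1).aestronglyMeasurable (measurable_mulAct u).aemeasurable,
      preimage_compl, GRig.preimage_OM hE hu] at h2
    simpa [mulAct] using h2

end Pool.Agent.MP_8b8716_co_QG
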