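import Mathlib
import Pool.Agent.Lib.MP_8b8716_co_W.W6
import Pool.Agent.Lib.MP_8b8716_co_QG.Defs
import Pool.Agent.Lib.MP_8b8716_co_QG.GFld

set_option autoImplicit false
set_option linter.unusedSectionVars false

/-!
# MP_8b8716_co, project QG: Weil's bound for the elements of norm one
-/

noncomputable section

namespace Pool.Agent.MP_8b8716_co_QG

open Finset
open Pool.Agent.MP_8b8716_co_W (kloosterman_le)

section
variable {K : Type} [Field K] (bar : K →+* K) (hbar : ∀ a, bar (bar a) = a)

/-- the trace to the fixed field -/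
def trc : K →+ fx bar where
  toFun z := ⟨z + bar z, trace_mem bar hbar z⟩
  map_zero' := by
    apply Subtype.ext
    show (0 : K) + bar 0 = 0
    rw [map_zero, add_zero]
  map_add' z w := by
    apply Subtype.ext
    show (z + w) + bar (z + w) = (z + bar z) + (w + bar w)
    rw [map_add]
    ring

theorem trc_val (z : K) : ((trc bar hbar z : fx bar) : K) = z + bar z := rfl

theorem trc_surjective (hne : ∃ a, bar a ≠ a) : Function.Surjective (trc bar hbar) := by
  obtain ⟨z0, hz0⟩ : ∃ z0, z0 + bar z0 ≠ 0 := by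
    by_contra hcon
    push Not at hcon
    obtain ⟨a, ha⟩ := hne
    apply ha
    have h1 := hcon 1
    have h2 := hcon a
    rw [map_one] at h1
    linear_combination h2 - a * h1
  intro a
  refine ⟨((a : K) / (z0 + bar z0)) * z0, ?_⟩
  apply Subtype.ext
  rw [trc_val]
  have ha : bar (a : K) = a := a.2
  have h1 : bar (z0 + bar z0) = z0 + bar z0 := trace_mem bar hbar z0
  rw [map_mul, map_div₀, ha, h1, ← mul_add, div_mul_cancel₀ _ hz0]

end

section
variable {K : Type} [Field K] [Fintype K] [DecidableEq K] (bar : K →+* K)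
  (hbar : ∀ a, bar (bar a) = a) (hne : ∃ a, bar a ≠ a)

include hbar hne

/-- every character comes from a character of the fixed field -/
theorem exists_char {χ : AddChar K ℂ} (hχ : χ ≠ 1) :
    ∃ (ψ : AddChar (fx bar) ℂ) (a : K), ψ ≠ 1 ∧ a ≠ 0 ∧
      ∀ z, χ z = ψ (trc bar hbar (a * z)) := by
  classical
  obtain ⟨ψ, hψ⟩ : ∃ ψ : AddChar (fx bar) ℂ, ψ 1 ≠ 1 := AddChar.exists_apply_ne_zero.2 one_ne_zero
  have hψ1 : ψ ≠ 1 := by
    rintro rfl
    exact hψ (AddChar.one_apply _)
  set χ0 : AddChar K ℂ := ψ.compAddMonoidHom (trc bar hbar) with hχ0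
  have hval : ∀ z, χ0 z = ψ (trc bar hbar z) := fun z => rfl
  have hχ01 : χ0 ≠ 1 := by
    intro h
    obtain ⟨z, hz⟩ := trc_surjective bar hbar hne 1
    apply hψ
    rw [← hz, ← hval, h, AddChar.one_apply]
  have hprim : AddChar.IsPrimitive χ0 := AddChar.IsPrimitive.of_ne_one hχ01
  have hinj : Function.Injective (AddChar.mulShift χ0) :=
    AddChar.to_mulShift_inj_of_isPrimitive hprim
  have hcard : Fintype.card K = Fintype.card (AddChar K ℂ) := AddChar.card_eq.symm
  have hbij := (Fintype.bijective_iff_injective_and_card (AddChar.mulShift χ0)).2 ⟨hinj, hcard⟩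
  obtain ⟨a, ha⟩ := hbij.2 χ
  refine ⟨ψ, a, hψ1, ?_, ?_⟩
  · rintro rfl
    apply hχ
    rw [← ha]
    ext z
    rw [AddChar.mulShift_apply, zero_mul, AddChar.map_zero_eq_one, AddChar.one_apply]
  · intro z
    rw [← ha, AddChar.mulShift_apply, hval]

omit hbar hne in
/-- at most two representations -/
theorem count_le (b : K) (t : K) :
    (univ.filter fun w : K => w * bar w = b ∧ w + bar w = t).card +
      (univ.filter fun x : K => bar x = x ∧ x ≠ 0 ∧ x + b / x = t).card ≤ 2 := by
  set S1 := univ.filter fun w : K => w * bar w = b ∧ w + bar w = t with hS1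
  set S2 := univ.filter fun x : K => bar x = x ∧ x ≠ 0 ∧ x + b / x = t with hS2
  have hr1 : ∀ w ∈ S1, w * w - t * w + b = 0 := by
    intro w hw
    rw [hS1, Finset.mem_filter] at hw
    obtain ⟨-, h1, h2⟩ := hw
    linear_combination (-1 : K) * h1 + w * h2
  have hr2 : ∀ x ∈ S2, x * x - t * x + b = 0 := by
    intro x hx
    rw [hS2, Finset.mem_filter] at hx
    obtain ⟨-, -, h1, h2⟩ := hx
    field_simp at h2
    linear_combination h2
  by_cases hdis : Disjoint S1 S2
  · rw [← Finset.card_union_of_disjoint hdis]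
    have hr : ∀ w ∈ S1 ∪ S2, w * w - t * w + b = 0 := by
      intro w hw
      rcases Finset.mem_union.1 hw with h | h
      · exact hr1 w h
      · exact hr2 w h
    by_contra hcon
    push Not at hcon
    obtain ⟨x, hx, y, hy, z, hz, hxy, hxz, hyz⟩ := Finset.two_lt_card.1 hcon
    have h1 := hr x hx
    have h2 := hr y hy
    have h3 := hr z hz
    have h4 : (x - y) * (x + y - t) = 0 := by linear_combination h1 - h2
    have h5 : (x - z) * (x + z - t) = 0 := by linear_combination h1 - h3
    have h6 : x + y - t = 0 := (mul_eq_zero.1 h4).resolve_left (sub_ne_zero.2 hxy)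
    have h7 : x + z - t = 0 := (mul_eq_zero.1 h5).resolve_left (sub_ne_zero.2 hxz)
    exact hyz (by linear_combination h6 - h7)
  · rw [Finset.not_disjoint_iff] at hdis
    obtain ⟨w, hw1, hw2⟩ := hdis
    have hw1' := (Finset.mem_filter.1 hw1).2
    have hw2' := (Finset.mem_filter.1 hw2).2
    rw [hw2'.1] at hw1'
    have hall : ∀ r : K, r * r - t * r + b = 0 → r = w := by
      intro r hr
      have h1 : (r - w) * (r - w) = 0 := by
        linear_combination hr + hw1'.1 - r * hw1'.2
      rcases mul_eq_zero.1 h1 with h | h <;> exact sub_eq_zero.1 h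
    have h1 : S1.card ≤ 1 := Finset.card_le_one.2 fun x hx y hy => by
      rw [hall x (hr1 x hx), hall y (hr1 y hy)]
    have h2 : S2.card ≤ 1 := Finset.card_le_one.2 fun x hx y hy => by
      rw [hall x (hr2 x hx), hall y (hr2 y hy)]
    omega

/-- Weil's bound for the elements of norm one -/
theorem torus_le (U : Finset K) (hU : ∀ u, u ∈ U ↔ u * bar u = 1) {χ : AddChar K ℂ}
    (hχ : χ ≠ 1) : ‖∑ u ∈ U, χ u‖ ≤ 2 * Real.sqrt (Fintype.card (fx bar)) := by
  classical
  obtain ⟨ψ, a, hψ, ha, hχa⟩ := exists_char bar hbar hne hχ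
  set b : fx bar := ⟨a * bar a, norm_mem bar hbar a⟩ with hb
  have hb0 : b ≠ 0 := by
    intro h
    have h1 : a * bar a = 0 := congrArg Subtype.val h
    rcases mul_eq_zero.1 h1 with h2 | h2
    · exact ha h2
    · exact bar_ne_zero bar hbar ha h2
  set W : Finset K := U.image (fun u => a * u) with hW
  have hWm : ∀ w, w ∈ W ↔ w * bar w = a * bar a := by
    intro w
    rw [hW, Finset.mem_image]
    constructor
    · rintro ⟨u, hu, rfl⟩
      rw [hU] at hu
      rw [map_mul]
      linear_combination (a * bar a) * hu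
    · intro hw
      refine ⟨w / a, ?_, mul_div_cancel₀ w ha⟩
      have hb1 := bar_ne_zero bar hbar ha
      rw [hU, map_div₀]
      field_simp
      exact hw
  have hinj : Function.Injective (fun u : K => a * u) := fun x y h => mul_left_cancel₀ ha h
  have hWc : W.card = Fintype.card (fx bar) + 1 := by
    rw [hW, Finset.card_image_of_injective _ hinj, card_U bar hbar hne U hU]
  have hsum : ∑ u ∈ U, χ u = ∑ w ∈ W, ψ (trc bar hbar w) := by
    rw [hW, Finset.sum_image fun x _ y _ h => hinj h]
    exact Finset.sum_congr rfl fun u _ => hχa u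
  -- the numbers of representations
  let n1 : fx bar → ℕ := fun t => (W.filter fun w => trc bar hbar w = t).card
  let n2 : fx bar → ℕ := fun t => ((univ.erase (0 : fx bar)).filter fun x => x + b / x = t).card
  have hn : ∀ t, n1 t + n2 t ≤ 2 := by
    intro t
    refine le_trans (add_le_add ?_ ?_) (count_le bar (a * bar a) (t : K))
    · apply Finset.card_le_card
      intro w hw
      rw [Finset.mem_filter] at hw ⊢
      refine ⟨Finset.mem_univ _, (hWm w).1 hw.1, ?_⟩
      rw [← hw.2, trc_val]
    · refine Finset.card_le_card_of_injOn (fun x : fx bar => (x : K)) ?_ ?_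
      · intro x hx
        rw [Finset.mem_coe, Finset.mem_filter, Finset.mem_erase] at hx
        rw [Finset.mem_coe, Finset.mem_filter]
        refine ⟨Finset.mem_univ _, x.2, fun h => hx.1.1 (Subtype.ext h), ?_⟩
        rw [← hx.2]
        rfl
      · intro x _ y _ h
        exact Subtype.ext h
  have hs1 : ∑ t, n1 t = Fintype.card (fx bar) + 1 := by
    rw [← hWc]
    exact (Finset.card_eq_sum_card_fiberwise (f := fun w => trc bar hbar w) (s := W)
      (t := Finset.univ) (fun _ _ => Finset.mem_coe.2 (Finset.mem_univ _))).symm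
  have hs2 : ∑ t, n2 t + 1 = Fintype.card (fx bar) := by
    have h1 : ∑ t, n2 t = (univ.erase (0 : fx bar)).card :=
      (Finset.card_eq_sum_card_fiberwise (f := fun x : fx bar => x + b / x) (s := univ.erase (0 : fx bar))
        (t := Finset.univ) (fun _ _ => Finset.mem_coe.2 (Finset.mem_univ _))).symm
    rw [h1, Finset.card_erase_of_mem (Finset.mem_univ _), Finset.card_univ]
    have := Fintype.card_pos (α := fx bar)
    omega
  have heq : ∀ t, n1 t + n2 t = 2 := by
    have h1 : ∑ t, (n1 t + n2 t) = ∑ _t : fx bar, 2 := by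
      rw [Finset.sum_add_distrib, Finset.sum_const, Finset.card_univ, smul_eq_mul]
      omega
    intro t
    exact (Finset.sum_eq_sum_iff_of_le fun t _ => hn t).1 h1 t (Finset.mem_univ t)
  have hψsum : ∑ t : fx bar, ψ t = 0 := AddChar.sum_eq_zero_of_ne_one hψ
  have h1 : ∑ w ∈ W, ψ (trc bar hbar w) = ∑ t : fx bar, (n1 t : ℂ) * ψ t := by
    rw [← Finset.sum_fiberwise_of_maps_to (s := W) (t := Finset.univ)
      (g := fun w => trc bar hbar w) (fun x _ => Finset.mem_univ _)]
    refine Finset.sum_congr rfl fun t _ => ?_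
    rw [Finset.sum_congr rfl (g := fun _ => ψ t)]
    · rw [Finset.sum_const, nsmul_eq_mul]
    · intro w hw
      rw [(Finset.mem_filter.1 hw).2]
  have h2 : ∑ x ∈ univ.erase (0 : fx bar), ψ (x + b / x) = ∑ t : fx bar, (n2 t : ℂ) * ψ t := by
    rw [← Finset.sum_fiberwise_of_maps_to (s := univ.erase (0 : fx bar)) (t := Finset.univ)
      (g := fun x : fx bar => x + b / x) (fun x _ => Finset.mem_univ _)]
    refine Finset.sum_congr rfl fun t _ => ?_
    rw [Finset.sum_congr rfl (g := fun _ => ψ t)]
    · rw [Finset.sum_const, nsmul_eq_mul]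
    · intro w hw
      rw [(Finset.mem_filter.1 hw).2]
  have h3 : ∑ t : fx bar, (n1 t : ℂ) * ψ t + ∑ t : fx bar, (n2 t : ℂ) * ψ t = 0 := by
    rw [← Finset.sum_add_distrib]
    have h4 : ∀ t : fx bar, (n1 t : ℂ) * ψ t + (n2 t : ℂ) * ψ t = 2 * ψ t := by
      intro t
      rw [← add_mul, ← Nat.cast_add, heq t]
      norm_num
    rw [Finset.sum_congr rfl fun t _ => h4 t, ← Finset.mul_sum, hψsum, mul_zero]
  have h4 : ∑ u ∈ U, χ u = -∑ x ∈ univ.erase (0 : fx bar), ψ (x + b / x) := by
    rw [hsum, h1, h2]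
    linear_combination h3
  rw [h4, norm_neg]
  exact kloosterman_le (Nat.card_eq_fintype_card (α := fx bar)) hψ hb0

end

/-- the spectral gap by Weil's bound -/
theorem gapAt_weil {Q : Set ℕ} {lam : ℝ} (h0 : 0 ≤ lam)
    (hQ : ∀ q ∈ Q, 2 * Real.sqrt q ≤ lam * (q + 1)) : GapAt Q lam := by
  refine ⟨h0, ?_⟩
  intro K _ _ _ bar hbar hne hcard U hU
  obtain ⟨q, hq, hcard⟩ := hcard
  have hfx := card_eq_fx bar hbar hne
  have hqn : Fintype.card (fx bar) = q := by
    have h1 : Fintype.card (fx bar) ^ 2 = q ^ 2 := by rw [← hfx, hcard]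
    exact Nat.pow_left_injective (n := 2) two_ne_zero h1
  have hUc := card_U bar hbar hne U hU
  rw [hqn] at hUc
  have hUc' : (U.card : ℝ) = q + 1 := by rw [hUc]; push_cast; rfl
  have h1 : (1 : ℝ) ≤ q := by
    have : 1 ≤ q := by
      rw [← hqn]
      exact Fintype.card_pos
    exact_mod_cast this
  rw [hUc']
  refine ⟨?_, ?_⟩
  · have h2 : (1 : ℝ) ≤ Real.sqrt q := Real.one_le_sqrt.2 h1
    linarith [hQ q hq]
  · intro χ hχ
    have h2 := torus_le bar hbar hne U hU hχ
    rw [hqn] at h2
    exact h2.trans (hQ q hq)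

end Pool.Agent.MP_8b8716_co_QG
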