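import Mathlib
import Pool.Agent.Lib.MP_8b8716_co.Defs
import Pool.Agent.Lib.MP_8b8716_co_HN.InvCol
import Pool.Agent.Lib.MP_8b8716_co_HN.MeasB
import Pool.Agent.Lib.MP_8b8716_co_QF.QMain
import Pool.Agent.Lib.MP_8b8716_co_QG.Defs
import Pool.Agent.Lib.MP_8b8716_co_QG.GHyp
import Pool.Agent.Lib.MP_8b8716_co_QG.GRed
import Pool.Agent.Lib.MP_8b8716_co_QG.GSoft
import Pool.Agent.Lib.MP_8b8716_co_QG.GSpec
import Pool.Agent.Lib.MP_8b8716_co_QG.GWeil

set_option autoImplicit false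

/-!
# MP_8b8716_co, project QG, module GMain: the final assembly
-/

noncomputable section

namespace Pool.Agent.MP_8b8716_co_QG

open Complex MeasureTheory Filter Topology Set
open NumberField
open Pool.Agent.MP_8b8716_co_HN
open Pool.Agent.MP8b8716 (unitDistanceGraph)
open Pool.Agent.MP_8b8716_co_QF (MeasColorable measColorable_of_complex colorable_top_of_meas
  colorable_of_top seven)

/-- the assembly for a field with a spectral gap -/
theorem gmain_gap {F L : Subfield ℝ} (hLF : L ≤ F) [NumberField L] {Q : Set ℕ} {lam : ℝ}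
    (hg : GapAt Q lam) (h : Cond Q (𝓞 L)) {k : ℕ} (hkl : ((k : ℝ) - 1) * lam < 1)
    (hk : (unitDistanceGraph F).Colorable k) : MeasColorable k := by
  obtain ⟨E, hN, hJ, hE, hB, hEL⟩ := exists_field h
  have hEF : ∀ z ∈ E, z.re ∈ F ∧ z.im ∈ F := fun z hz => ⟨hLF (hEL z hz).1, hLF (hEL z hz).2⟩
  obtain ⟨C⟩ := hk
  have hκ : ∀ z w : E, ‖(z : ℂ) - w‖ = 1 →
      C (⟨z.1.re, (hEF z z.2).1⟩, ⟨z.1.im, (hEF z z.2).2⟩) ≠
        C (⟨w.1.re, (hEF w w.2).1⟩, ⟨w.1.im, (hEF w w.2).2⟩) := by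
    intro z w hzw
    apply C.valid
    show (_ : F) = 1
    apply Subtype.ext
    have h1 : ‖(z : ℂ) - w‖ ^ 2 = 1 := by rw [hzw]; norm_num
    rw [← Complex.normSq_eq_norm_sq, Complex.normSq_apply] at h1
    simp only [Complex.sub_re, Complex.sub_im] at h1
    push_cast
    nlinarith [h1]
  obtain ⟨μ, hμ⟩ := exists_randCol hE.ctb
    (fun z : E => C (⟨z.1.re, (hEF z z.2).1⟩, ⟨z.1.im, (hEF z z.2).2⟩)) hκ
  obtain ⟨σ, hS⟩ := gspec hE hμ
  obtain ⟨κ, h1, h2⟩ := gsoft hE hg hB hkl hS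
  exact measColorable_of_complex (upgrade κ h1 h2)

theorem gapAt_weil' {Q : Set ℕ} {lam : ℝ} (h0 : 0 ≤ lam)
    (hQ : ∀ q ∈ Q, 4 * (q : ℝ) ≤ lam ^ 2 * (q + 1) ^ 2) : GapAt Q lam := by
  refine gapAt_weil h0 fun q hq => ?_
  have h := hQ q hq
  have hq0 : (0 : ℝ) ≤ q := q.cast_nonneg
  rw [← pow_le_pow_iff_left₀ (by positivity) (by positivity) two_ne_zero, mul_pow, mul_pow,
    Real.sq_sqrt hq0]
  linarith

/-- for `q` at least `4 (k - 1) ^ 2 - 2` the Weil bound is sufficient for `k` colours -/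
theorem exists_lam (k : ℕ) : ∃ lam : ℝ, GapAt {q | 4 * (k - 1) ^ 2 - 3 < q} lam ∧
    ((k : ℝ) - 1) * lam < 1 := by
  rcases Nat.eq_zero_or_pos (k - 1) with hk | hk
  · refine ⟨1, gapAt_weil' zero_le_one fun q _ => ?_, ?_⟩
    · nlinarith [sq_nonneg ((q : ℝ) - 1)]
    · have : k ≤ 1 := by omega
      have h1 : (k : ℝ) ≤ 1 := by exact_mod_cast this
      linarith
  · have hn : ((k : ℝ) - 1) = ((k - 1 : ℕ) : ℝ) := by
      rw [Nat.cast_sub (by omega), Nat.cast_one]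
    set n : ℕ := k - 1 with hn'
    have hn1 : (1 : ℝ) ≤ n := by exact_mod_cast hk
    set x : ℝ := 4 * (n : ℝ) ^ 2 - 2 with hx
    have hx2 : 2 ≤ x := by nlinarith
    have h2 : (2 * Real.sqrt x / (x + 1)) ^ 2 = 4 * x / (x + 1) ^ 2 := by
      rw [div_pow, mul_pow, Real.sq_sqrt (by linarith)]
      norm_num
    refine ⟨2 * Real.sqrt x / (x + 1), gapAt_weil' (by positivity) fun q hq => ?_, ?_⟩
    · have hqx : x ≤ q := by
        have h3 : 4 * n ^ 2 - 3 < q := hq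
        have h4 : 4 * n ^ 2 ≤ q + 2 := by omega
        have h5 : (4 : ℝ) * (n : ℝ) ^ 2 ≤ q + 2 := by exact_mod_cast h4
        linarith
      rw [h2, div_mul_eq_mul_div, le_div_iff₀ (by positivity)]
      have h6 : 0 ≤ ((q : ℝ) - x) * (q * x - 1) :=
        mul_nonneg (sub_nonneg.2 hqx) (by nlinarith)
      nlinarith
    · rw [hn]
      have h3 : 0 ≤ (n : ℝ) * (2 * Real.sqrt x / (x + 1)) := by positivity
      have h4 : ((n : ℝ) * (2 * Real.sqrt x / (x + 1))) ^ 2 < 1 := by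
        rw [mul_pow, h2, mul_div_assoc', div_lt_one (by positivity)]
        nlinarith
      nlinarith

/-- **Theorem G.** -/
theorem gmain {F : Subfield ℝ} {k : ℕ}
    (h : Cond {q | 4 * (k - 1) ^ 2 - 3 < q} (integralClosure ℤ F))
    (hk : (unitDistanceGraph F).Colorable k) : MeasColorable k := by
  obtain ⟨lam, hg, hkl⟩ := exists_lam k
  obtain ⟨L, hLF, hL, hC⟩ := exists_numberField' h
  exact gmain_gap hLF hg hC hkl hk

/-- the real fields which contain `√D`, `D = 7` modulo `8`, `-D` a nonzero square modulo the primes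
`l = 3` modulo `4` up to `B`, satisfy the condition `Cond` -/
theorem cond_of_sqrt {F : Subfield ℝ} {D B : ℕ} (hD : Real.sqrt D ∈ F) (h8 : D % 8 = 7)
    (hl : ∀ l : ℕ, l.Prime → l % 4 = 3 → l ≤ B → ∃ b : ℕ, l ∣ b ^ 2 + D ∧ ¬ l ∣ b) :
    Cond {q | B < q} (integralClosure ℤ F) := by
  classical
  set O := integralClosure ℤ F with hO
  -- the algebraic integer `√D`
  have hint : IsIntegral ℤ (⟨Real.sqrt D, hD⟩ : F) := by
    refine ⟨Polynomial.X ^ 2 - Polynomial.C (D : ℤ), Polynomial.monic_X_pow_sub_C _ two_ne_zero, ?_⟩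
    rw [Polynomial.eval₂_sub, Polynomial.eval₂_pow, Polynomial.eval₂_X, Polynomial.eval₂_C]
    apply Subtype.ext
    have h1 : Real.sqrt D ^ 2 = D := Real.sq_sqrt (Nat.cast_nonneg D)
    simp [h1]
  set w : O := ⟨⟨Real.sqrt D, hD⟩, hint⟩ with hw
  have hw2 : w ^ 2 = (D : O) := by
    apply Subtype.ext
    apply Subtype.ext
    have h1 : Real.sqrt D ^ 2 = D := Real.sq_sqrt (Nat.cast_nonneg D)
    simp [hw, h1]
  obtain ⟨d, hd⟩ : ∃ d : ℕ, D + 1 = 8 * d := ⟨(D + 1) / 8, by omega⟩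
  have h4 : w ^ 2 + 1 = 4 * (2 * (d : O)) := by
    rw [hw2]
    have : ((D + 1 : ℕ) : O) = ((8 * d : ℕ) : O) := by rw [hd]
    push_cast at this
    rw [this]
    ring
  refine ⟨⟨w, 2 * d, h4⟩, ?_⟩
  intro P hP hfin hcard
  have hPp := hP.isPrime
  -- the residue characteristic
  have hF : Field (O ⧸ P) := Ideal.Quotient.field P
  obtain ⟨l, hchar⟩ := CharP.exists (O ⧸ P)
  have hlp : l.Prime := by
    rcases CharP.char_is_prime_or_zero (O ⧸ P) l with h | h
    · exact h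
    · subst h
      exfalso
      have : CharZero (O ⧸ P) := CharP.charP_to_charZero _
      exact not_finite (O ⧸ P)
  have hlP : (l : O) ∈ P := by
    rw [← Ideal.Quotient.eq_zero_iff_mem, map_natCast]
    exact CharP.cast_eq_zero _ l
  have hlB : l ≤ B := by
    have h1 : Nat.card (O ⧸ P) ≤ B := not_lt.1 hcard
    have h2 : l ∣ Nat.card (O ⧸ P) := by
      have : Fintype (O ⧸ P) := Fintype.ofFinite _
      rw [Nat.card_eq_fintype_card]
      rw [← CharP.cast_eq_zero_iff (O ⧸ P) l]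
      exact Nat.cast_card_eq_zero _
    exact (Nat.le_of_dvd Nat.card_pos h2).trans h1
  have hmem : ∀ n : ℕ, (n : O) ∈ P → l ∣ n := by
    intro n hn
    rw [← CharP.cast_eq_zero_iff (O ⧸ P) l, ← map_natCast (Ideal.Quotient.mk P)]
    exact Ideal.Quotient.eq_zero_iff_mem.2 hn
  rcases hlp.eq_two_or_odd with h2 | h2
  · -- the place is above two
    refine ⟨w, 1, fun h => hPp.ne_top ((Ideal.eq_top_iff_one P).2 h), 2 * d, ?_, ?_⟩
    · have : ((2 : ℕ) : O) ∈ P := by rw [← h2]; exact hlP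
      have h5 := P.mul_mem_right (d : O) this
      exact_mod_cast h5
    · rw [one_mul, h4]
  · have h4P : (4 : O) ∉ P := by
      intro h
      have h5 : ((4 : ℕ) : O) ∈ P := by exact_mod_cast h
      have h6 := hmem 4 h5
      have h7 : l ∣ 2 ^ 2 := h6
      have h8' := hlp.dvd_of_dvd_pow h7
      have h9 := (Nat.prime_dvd_prime_iff_eq hlp Nat.prime_two).1 h8'
      omega
    suffices h : ∃ a : O, a ^ 2 + 1 ∈ P by
      obtain ⟨a, ha⟩ := h
      exact ⟨a, 4, h4P, a ^ 2 + 1, ha, rfl⟩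
    have hodd : l % 4 = 1 ∨ l % 4 = 3 := by omega
    rcases hodd with h1 | h3
    · -- `-1` is a square modulo `l`
      have : Fact l.Prime := ⟨hlp⟩
      obtain ⟨y, hy⟩ := ZMod.exists_sq_eq_neg_one_iff.2 (by omega : l % 4 ≠ 3)
      refine ⟨(y.val : ℕ), ?_⟩
      have h5 : (l : ℕ) ∣ y.val ^ 2 + 1 := by
        rw [← ZMod.natCast_eq_zero_iff]
        push_cast
        rw [ZMod.natCast_zmod_val, pow_two, ← hy]
        ring
      obtain ⟨c, hc⟩ := h5
      have h6 : (((y.val : ℕ) : O)) ^ 2 + 1 = (l : O) * c := by exact_mod_cast congrArg (Nat.cast : ℕ → O) hc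
      rw [h6]
      exact P.mul_mem_right _ hlP
    · obtain ⟨b, hb, hb'⟩ := hl l hlp h3 hlB
      -- inverse of `b` modulo `l`
      have hcop : Nat.Coprime b l := ((Nat.Prime.coprime_iff_not_dvd hlp).2 hb').symm
      obtain ⟨c, hc⟩ : ∃ c : ℤ, (b : ℤ) * c ≡ 1 [ZMOD l] := Int.mod_coprime hcop
      refine ⟨(c : O) * w, ?_⟩
      obtain ⟨u, hu⟩ := hb
      obtain ⟨v, hv⟩ := (Int.modEq_iff_dvd.1 hc)
      have e1 : ((b : O)) ^ 2 + (D : O) = l * u := by exact_mod_cast congrArg (Nat.cast : ℕ → O) hu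
      have e2 : (1 : O) - b * c = l * v := by exact_mod_cast congrArg (Int.cast : ℤ → O) hv
      have e3 : ((c : O) * w) ^ 2 + 1 = (l : O) * (c ^ 2 * u + v * (1 + b * c)) := by
        rw [mul_pow, hw2]
        linear_combination (c : O) ^ 2 * e1 + (1 + (b : O) * c) * e2
      rw [e3]
      exact P.mul_mem_right _ hlP

end Pool.Agent.MP_8b8716_co_QG
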