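import Pool.Agent.Lib.MP_8b8716_co_QG.GLimC
import Pool.Agent.Lib.MP_8b8716_co_QG.GSM
import Pool.Agent.Lib.MP_8b8716_co_QG.GAM
import Pool.Agent.Lib.MP_8b8716_co_QG.GCo

set_option autoImplicit false

/-!
# MP_8b8716_co, project QG: the mean over the classes modulo `m`
-/

noncomputable section

namespace Pool.Agent.MP_8b8716_co_QG

open Complex MeasureTheory Filter Topology Set
open NumberField
open Pool.Agent.MP_8b8716_co_HN

section

variable {E : Subfield ℂ} [NumberField E] [Cj E]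

namespace GMean

/-- the mean value of the character over the small representatives -/
def mm {m : ℕ} [Fintype (AM E m)] (lf : AM E m → 𝓞 E) (e K : ℕ) (y : E → Circle) : ℂ :=
  (∑ h : AM E m, (y (io E (lf h) / 5 ^ (e * K)) : ℂ)) / (Fintype.card (AM E m) : ℂ)

theorem card_pos {m : ℕ} [Fintype (AM E m)] : 0 < Fintype.card (AM E m) :=
  Fintype.card_pos_iff.2 ⟨0⟩

theorem norm_mm_le {m : ℕ} [Fintype (AM E m)] (lf : AM E m → 𝓞 E) (e K : ℕ) (y : E → Circle) :
    ‖mm lf e K y‖ ≤ 1 := by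
  unfold mm
  have hM : (0 : ℝ) < (Fintype.card (AM E m) : ℝ) := by
    exact_mod_cast card_pos
  rw [norm_div, Complex.norm_natCast, div_le_one hM]
  calc ‖∑ h : AM E m, (y (io E (lf h) / 5 ^ (e * K)) : ℂ)‖
      ≤ ∑ h : AM E m, ‖(y (io E (lf h) / 5 ^ (e * K)) : ℂ)‖ := norm_sum_le _ _
    _ = ∑ _h : AM E m, (1 : ℝ) := Finset.sum_congr rfl fun h _ => Circle.norm_coe _
    _ = (Fintype.card (AM E m) : ℝ) := by simp
    _ ≤ _ := le_refl _

omit [NumberField E] [Cj E] in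
theorem measurable_eval (z : E) : Measurable fun y : E → Circle => (y z : ℂ) :=
  (by fun_prop : Continuous fun c : Circle => (c : ℂ)).measurable.comp (measurable_pi_apply z)

theorem measurable_mm {m : ℕ} [Fintype (AM E m)] (lf : AM E m → 𝓞 E) (e K : ℕ) :
    Measurable (mm lf e K) := by
  unfold mm
  exact (Finset.measurable_sum _ fun h _ => measurable_eval _).div_const _

theorem io_mem_RR (a : 𝓞 E) : io E a ∈ RR E := (iR E a).2

/-- the small representative is congruent to the given one -/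
theorem zz_eq (hI : I ∈ E) {m e : ℕ} (he' : ∃ r ∈ RR E, (5 : E) ^ e - 1 = m * r) (K : ℕ)
    (a : 𝓞 E) : ∃ v ∈ RR E, io E a / 5 ^ (e * K) = io E a + m * v := by
  obtain ⟨r, hr, hr'⟩ := he'
  have h5 : (5 : E) ≠ 0 := by norm_num
  refine ⟨-(io E a * (r * (∑ j ∈ Finset.range K, ((5 : E) ^ e) ^ j)) * ((5 : E)⁻¹) ^ (e * K)),
    ?_, ?_⟩
  · refine (RR E).neg_mem ((RR E).mul_mem ((RR E).mul_mem (io_mem_RR a) ((RR E).mul_mem hr
      ((RR E).sum_mem fun j _ => ?_))) ((RR E).pow_mem (five_inv_mem_RR hI) _))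
    have h1 : (5 : E) ∈ RR E := by
      have := natCast_mem (RR E) 5
      simpa using this
    exact (RR E).pow_mem ((RR E).pow_mem h1 _) _
  · have h1 : (m : E) * (r * ∑ j ∈ Finset.range K, ((5 : E) ^ e) ^ j) = (5 : E) ^ (e * K) - 1 := by
      rw [← mul_assoc, ← hr', pow_mul]
      exact mul_geom_sum _ _
    have h2 : (m : E) * -(io E a * (r * (∑ j ∈ Finset.range K, ((5 : E) ^ e) ^ j)) *
        ((5 : E)⁻¹) ^ (e * K)) = -(io E a * ((5 : E) ^ (e * K) - 1) * ((5 : E)⁻¹) ^ (e * K)) := by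
      rw [← h1]
      ring
    rw [h2, inv_pow]
    have h3 : (5 : E) ^ (e * K) ≠ 0 := pow_ne_zero _ h5
    field_simp
    ring

/-- the pointwise limit -/
theorem mm_tendsto (hI : I ∈ E) {m : ℕ} (hm : 0 < m) [Fintype (AM E m)] (lf : AM E m → 𝓞 E)
    (hlf : ∀ h, cl E m (iR E (lf h)) = h) {e : ℕ} (he : 0 < e)
    (he' : ∃ r ∈ RR E, (5 : E) ^ e - 1 = m * r) {y : E → Circle} (hy : IsChar y)
    (h : y ∈ SM E m) : Tendsto (fun K => mm lf e K y) atTop
      (𝓝 ((SM E 1).indicator (fun _ => (1 : ℂ)) y)) := by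
  obtain ⟨t, ht⟩ := h
  have hM0 : (Fintype.card (AM E m) : ℂ) ≠ 0 := Nat.cast_ne_zero.2 card_pos.ne'
  set τ : E → Circle := y / et E t with hτ
  have hτc : IsChar τ := hy.div (isChar_et t)
  have hτM : ∀ w ∈ RR E, τ ((m : E) * w) = 1 := by
    intro w hw
    rw [hτ, Pi.div_apply, ht w hw, div_self']
  have hyτ : ∀ w, y w = et E t w * τ w := by
    intro w
    rw [hτ, Pi.div_apply, mul_div_cancel]
  have hz : ∀ K (h : AM E m), y (io E (lf h) / 5 ^ (e * K)) =
      et E t (io E (lf h) / 5 ^ (e * K)) * τ (io E (lf h)) := by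
    intro K h
    obtain ⟨v, hv, hv'⟩ := zz_eq hI he' K (lf h)
    rw [hyτ]
    congr 1
    rw [hv', hτc, hτM v hv, mul_one]
  have hel : ∀ h : AM E m,
      Tendsto (fun K => (et E t (io E (lf h) / 5 ^ (e * K)) : ℂ)) atTop (𝓝 1) := by
    intro h
    obtain ⟨C, hC, hC'⟩ := norm_et_sub_one_le (E := E) t
    rw [tendsto_iff_norm_sub_tendsto_zero]
    have h0 : ∀ K : ℕ, nrm E (io E (lf h) / 5 ^ (e * K)) = (1 / 5 : ℝ) ^ (e * K) *
        nrm E (io E (lf h)) := by
      intro K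
      have e1 : io E (lf h) / 5 ^ (e * K) = (((1 / 5 : ℚ) ^ (e * K) : ℚ) : E) * io E (lf h) := by
        push_cast
        rw [one_div, inv_pow, div_eq_inv_mul]
      rw [e1, nrm_smul]
      congr 1
      push_cast
      rw [abs_of_nonneg (by positivity)]
    have h1 : ∀ K, ‖(et E t (io E (lf h) / 5 ^ (e * K)) : ℂ) - 1‖ ≤
        C * ((1 / 5 : ℝ) ^ (e * K) * nrm E (io E (lf h))) := by
      intro K
      rw [← h0 K]
      exact hC' _
    have h2 : Tendsto (fun K : ℕ => C * ((1 / 5 : ℝ) ^ (e * K) * nrm E (io E (lf h)))) atTop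
        (𝓝 0) := by
      have h3 : Tendsto (fun K : ℕ => ((1 / 5 : ℝ) ^ e) ^ K) atTop (𝓝 0) :=
        tendsto_pow_atTop_nhds_zero_of_lt_one (by positivity)
          (pow_lt_one₀ (by norm_num) (by norm_num) he.ne')
      have h4 := (h3.mul_const (nrm E (io E (lf h)))).const_mul C
      rw [zero_mul, mul_zero] at h4
      refine h4.congr fun K => ?_
      rw [← pow_mul]
    exact squeeze_zero (fun _ => norm_nonneg _) h1 h2
  have hlim : Tendsto (fun K => mm lf e K y) atTop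
      (𝓝 ((∑ h : AM E m, (1 : ℂ) * (τ (io E (lf h)) : ℂ)) / (Fintype.card (AM E m) : ℂ))) := by
    unfold mm
    refine Tendsto.div_const ?_ _
    refine tendsto_finsetSum _ fun h _ => ?_
    refine ((hel h).mul_const _).congr fun K => ?_
    rw [hz, Circle.coe_mul]
  convert hlim using 2
  -- `τ` depends only on the class
  have hcl : ∀ r r' : RR E, cl E m r = cl E m r' → τ (r : E) = τ (r' : E) := by
    intro r r' h
    obtain ⟨v, hv, hv'⟩ := (cl_eq_iff r r').1 h
    have e1 : (r : E) = r' + m * v := by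
      rw [← hv']
      ring
    rw [e1, hτc, hτM v hv, mul_one]
  by_cases hy1 : y ∈ SM E 1
  · rw [indicator_of_mem hy1]
    obtain ⟨t', ht'⟩ := hy1
    have e1 : t = t' := SM_freq hI hm one_pos ht ht'
    have h1 : ∀ w ∈ RR E, τ w = 1 := by
      intro w hw
      have h2 := ht' w hw
      rw [Nat.cast_one, one_mul, ← e1] at h2
      rw [hτ, Pi.div_apply, h2, div_self']
    rw [Finset.sum_congr rfl fun h _ => by rw [h1 _ (io_mem_RR (lf h)), Circle.coe_one, one_mul]]
    rw [Finset.sum_const, Finset.card_univ, nsmul_eq_mul, mul_one, div_self hM0]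
  · rw [indicator_of_notMem hy1]
    let ψ : AddChar (AM E m) ℂ :=
      { toFun := fun h => (τ (io E (lf h)) : ℂ)
        map_zero_eq_one' := by
          have h1 : τ ((iR E (lf 0) : RR E) : E) = τ ((0 : RR E) : E) := by
            apply hcl
            rw [hlf, map_zero]
          have h2 : τ (io E (lf 0)) = 1 := by
            have h3 : τ (io E (lf 0)) = τ ((iR E (lf 0) : RR E) : E) := rfl
            rw [h3, h1]
            exact hτc.map_zero
          rw [h2, Circle.coe_one]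
        map_add_eq_mul' := by
          intro a b
          have h1 : τ ((iR E (lf (a + b)) : RR E) : E) =
              τ ((iR E (lf a) + iR E (lf b) : RR E) : E) := by
            apply hcl
            rw [hlf, map_add, hlf, hlf]
          have h2 : τ (io E (lf (a + b))) = τ (io E (lf a)) * τ (io E (lf b)) := by
            have h3 : τ (io E (lf (a + b))) = τ ((iR E (lf (a + b)) : RR E) : E) := rfl
            rw [h3, h1]
            exact hτc _ _
          rw [h2, Circle.coe_mul] }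
    have hψ : ψ ≠ 1 := by
      intro hcon
      apply hy1
      refine ⟨t, fun r hr => ?_⟩
      rw [Nat.cast_one, one_mul]
      have h1 : τ ((⟨r, hr⟩ : RR E) : E) = τ ((iR E (lf (cl E m ⟨r, hr⟩)) : RR E) : E) := by
        apply hcl
        rw [hlf]
      have h2 : (τ (io E (lf (cl E m ⟨r, hr⟩))) : ℂ) = 1 := by
        have h3 : ψ (cl E m ⟨r, hr⟩) = 1 := by rw [hcon, AddChar.one_apply]
        exact h3
      have h4 : τ r = 1 := by
        have h5 : τ r = τ (io E (lf (cl E m ⟨r, hr⟩))) := h1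
        rw [h5]
        exact Circle.coe_eq_one.1 h2
      rw [hyτ, h4, mul_one]
    have hsum : ∑ h : AM E m, (1 : ℂ) * (τ (io E (lf h)) : ℂ) = 0 := by
      have h1 := AddChar.sum_eq_zero_of_ne_one hψ
      rw [← h1]
      exact Finset.sum_congr rfl fun h _ => one_mul _
    rw [hsum, zero_div]

section

variable {Om : Set (E → Circle)} {k : ℕ} {μ : Measure (E → Fin k)}
  {σ : Fin k → Measure (E → Circle)}

theorem shift_mp (hS : Spec E Om k μ σ) (v : E) :
    MeasurePreserving (shift v : (E → Fin k) → E → Fin k) μ μ := by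
  have h := hS.col.inv 1 v (by simp)
  have e : (fun (ω : E → Fin k) (z : E) => ω (1 * z + v)) = shift v := by
    funext ω z
    simp [shift]
  rwa [e] at h

theorem corr_two (hI : I ∈ E) (hS : Spec E Om k μ σ) {m m' : ℕ} (hm : 0 < m) (hm' : 0 < m')
    {i : Fin k} {G G' : (E → Fin k) → ℝ} (hG : Lim E μ m i G) (hG' : Lim E μ m' i G') (u v : E) :
    ((∫ ω, G (shift u ω) * G' (shift v ω) ∂μ : ℝ) : ℂ) =
      ∫ y in Om ∩ SM E m ∩ SM E m', (y (u - v) : ℂ) ∂(σ i) := by
  rw [← lim_corr hI hS hm hm' hG hG' (u - v)]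
  have hp := shift_mp hS v
  have h1 : Measurable fun ω : E → Fin k => G (shift (u - v) ω) * G' ω :=
    (hG.meas.comp (shift_mp hS (u - v)).measurable).mul hG'.meas
  have h2 := integral_map (μ := μ) hp.measurable.aemeasurable
    (f := fun ω : E → Fin k => G (shift (u - v) ω) * G' ω) h1.aestronglyMeasurable
  rw [hp.map_eq] at h2
  rw [h2]
  congr 1
  refine integral_congr_ae (Eventually.of_forall fun ω => ?_)
  show G (shift u ω) * G' (shift v ω) = G (shift (u - v) (shift v ω)) * G' (shift v ω)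
  have e : shift (u - v) (shift v ω) = shift u ω := by
    funext z
    simp only [shift]
    congr 1
    ring
  rw [e]

omit [NumberField E] [Cj E] in
theorem int_mul [IsProbabilityMeasure μ] {f g : (E → Fin k) → ℝ} (hf : Measurable f)
    (hg : Measurable g) (hf0 : ∀ ω, 0 ≤ f ω) (hf1 : ∀ ω, f ω ≤ 1) (hg0 : ∀ ω, 0 ≤ g ω)
    (hg1 : ∀ ω, g ω ≤ 1) : Integrable (fun ω => f ω * g ω) μ := by
  refine (integrable_const (1 : ℝ)).mono' (hf.mul hg).aestronglyMeasurable
    (Eventually.of_forall fun ω => ?_)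
  rw [Real.norm_of_nonneg (mul_nonneg (hf0 ω) (hg0 ω))]
  exact mul_le_one₀ (hf1 ω) (hg0 ω) (hg1 ω)

omit [NumberField E] [Cj E] in
theorem integrable_eval {ρ : Measure (E → Circle)} [IsFiniteMeasure ρ] (z : E) :
    Integrable (fun y : E → Circle => (y z : ℂ)) ρ := by
  refine (integrable_const (1 : ℝ)).mono' (measurable_eval z).aestronglyMeasurable
    (Eventually.of_forall fun y => ?_)
  rw [Circle.norm_coe]

omit [NumberField E] [Cj E] in
theorem coe_sub {y : E → Circle} (hy : IsChar y) (u v : E) :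
    (y (u - v) : ℂ) = (y u : ℂ) * (starRingEnd ℂ) (y v : ℂ) := by
  rw [hy.map_sub, Circle.coe_div, div_eq_mul_inv, ← Circle.coe_inv, Circle.coe_inv_eq_conj]

/-- the first term -/
theorem first_term {ρ : Measure (E → Circle)} [IsFiniteMeasure ρ] (hρ : ∀ᵐ y ∂ρ, IsChar y)
    {m : ℕ} [Fintype (AM E m)] (lf : AM E m → 𝓞 E) (e K : ℕ) :
    (∑ h : AM E m, ∑ h' : AM E m,
      ∫ y, (y (io E (lf h) / 5 ^ (e * K) - io E (lf h') / 5 ^ (e * K)) : ℂ) ∂ρ) /
        (Fintype.card (AM E m) : ℂ) ^ 2 =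
      ∫ y, mm lf e K y * (starRingEnd ℂ) (mm lf e K y) ∂ρ := by
  have h1 : ∀ᵐ y ∂ρ, mm lf e K y * (starRingEnd ℂ) (mm lf e K y) =
      (∑ h : AM E m, ∑ h' : AM E m,
        (y (io E (lf h) / 5 ^ (e * K) - io E (lf h') / 5 ^ (e * K)) : ℂ)) /
          (Fintype.card (AM E m) : ℂ) ^ 2 := by
    filter_upwards [hρ] with y hy
    unfold mm
    rw [map_div₀, map_sum, Complex.conj_natCast, div_mul_div_comm, Finset.sum_mul_sum, ← pow_two]
    congr 1
    refine Finset.sum_congr rfl fun h _ => Finset.sum_congr rfl fun h' _ => ?_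
    rw [coe_sub hy]
  rw [integral_congr_ae h1, integral_div, integral_finsetSum]
  · congr 1
    refine Finset.sum_congr rfl fun h _ => ?_
    rw [integral_finsetSum]
    exact fun h' _ => integrable_eval _
  · exact fun h _ => integrable_finsetSum _ fun h' _ => integrable_eval _

theorem second_term {ρ : Measure (E → Circle)} [IsFiniteMeasure ρ] {m : ℕ} [Fintype (AM E m)]
    (lf : AM E m → 𝓞 E) (e K : ℕ) :
    (∑ h : AM E m, ∫ y, (y (io E (lf h) / 5 ^ (e * K)) : ℂ) ∂ρ) / (Fintype.card (AM E m) : ℂ) =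
      ∫ y, mm lf e K y ∂ρ := by
  unfold mm
  rw [integral_div, integral_finsetSum]
  exact fun h _ => integrable_eval _

/-- the expansion of the square -/
theorem expand (hI : I ∈ E) (hS : Spec E Om k μ σ) {m : ℕ} (hm : 0 < m) [Fintype (AM E m)]
    (lf : AM E m → 𝓞 E) (e : ℕ) {i : Fin k}
    {G G1 : (E → Fin k) → ℝ} (hG : Lim E μ m i G) (hG1 : Lim E μ 1 i G1) (K : ℕ) :
    ((∫ ω, (mean (fun h : AM E m => G (shift (io E (lf h) / 5 ^ (e * K)) ω)) - G1 ω) ^ 2 ∂μ : ℝ)
      : ℂ) =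
      (∫ y in Om ∩ SM E m ∩ SM E m, mm lf e K y * (starRingEnd ℂ) (mm lf e K y) ∂(σ i)) -
        2 * (∫ y in Om ∩ SM E m ∩ SM E 1, mm lf e K y ∂(σ i)) +
        ∫ y in Om ∩ SM E 1 ∩ SM E 1, (1 : ℂ) ∂(σ i) := by
  haveI := hS.col.prob
  haveI : IsFiniteMeasure (σ i) := (hS.nice i).fin
  have hM0 : (Fintype.card (AM E m) : ℝ) ≠ 0 := Nat.cast_ne_zero.2 card_pos.ne'
  set a : AM E m → (E → Fin k) → ℝ := fun h ω => G (shift (io E (lf h) / 5 ^ (e * K)) ω) with ha
  have ham : ∀ h, Measurable (a h) := fun h => hG.meas.comp (shift_mp hS _).measurable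
  have ha0 : ∀ h ω, 0 ≤ a h ω := fun h ω => hG.nonneg _
  have ha1 : ∀ h ω, a h ω ≤ 1 := fun h ω => hG.le_one _
  have i1 : ∀ h h', Integrable (fun ω => a h ω * a h' ω) μ :=
    fun h h' => int_mul (ham h) (ham h') (ha0 h) (ha1 h) (ha0 h') (ha1 h')
  have i2 : ∀ h, Integrable (fun ω => a h ω * G1 ω) μ :=
    fun h => int_mul (ham h) hG1.meas (ha0 h) (ha1 h) hG1.nonneg hG1.le_one
  have i3 : Integrable (fun ω => G1 ω * G1 ω) μ :=
    int_mul hG1.meas hG1.meas hG1.nonneg hG1.le_one hG1.nonneg hG1.le_one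
  have e1 : ∀ ω, (mean (fun h : AM E m => a h ω) - G1 ω) ^ 2 =
      (∑ h, ∑ h', a h ω * a h' ω) / (Fintype.card (AM E m) : ℝ) ^ 2 -
        2 * ((∑ h, a h ω * G1 ω) / (Fintype.card (AM E m) : ℝ)) + G1 ω * G1 ω := by
    intro ω
    unfold mean
    rw [← Finset.sum_mul_sum, ← Finset.sum_mul]
    field_simp
    ring
  have e2 : ∫ ω, (mean (fun h : AM E m => a h ω) - G1 ω) ^ 2 ∂μ =
      (∑ h, ∑ h', ∫ ω, a h ω * a h' ω ∂μ) / (Fintype.card (AM E m) : ℝ) ^ 2 -
        2 * ((∑ h, ∫ ω, a h ω * G1 ω ∂μ) / (Fintype.card (AM E m) : ℝ)) +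
          ∫ ω, G1 ω * G1 ω ∂μ := by
    rw [integral_congr_ae (Eventually.of_forall e1)]
    have j1 : Integrable (fun ω => (∑ h, ∑ h', a h ω * a h' ω) /
        (Fintype.card (AM E m) : ℝ) ^ 2) μ :=
      (integrable_finsetSum _ fun h _ => integrable_finsetSum _ fun h' _ => i1 h h').div_const _
    have j2 : Integrable (fun ω => 2 * ((∑ h, a h ω * G1 ω) / (Fintype.card (AM E m) : ℝ))) μ :=
      ((integrable_finsetSum _ fun h _ => i2 h).div_const _).const_mul _
    have j4 : Integrable (fun ω => (∑ h, ∑ h', a h ω * a h' ω) /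
        (Fintype.card (AM E m) : ℝ) ^ 2 -
        2 * ((∑ h, a h ω * G1 ω) / (Fintype.card (AM E m) : ℝ))) μ := j1.sub j2
    rw [integral_add j4 i3, integral_sub j1 j2, integral_div, integral_const_mul,
      integral_div, integral_finsetSum _ fun h _ => i2 h,
      integral_finsetSum _ fun h _ => integrable_finsetSum _ fun h' _ => i1 h h']
    have t : ∀ h, ∫ ω, ∑ h', a h ω * a h' ω ∂μ = ∑ h', ∫ ω, a h ω * a h' ω ∂μ :=
      fun h => integral_finsetSum _ fun h' _ => i1 h h'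
    simp only [t]
  have hsh : ∀ ω : E → Fin k, shift 0 ω = ω := by
    intro ω
    funext z
    simp [shift]
  rw [e2]
  push_cast
  have t1 : (∑ h, ∑ h', ((∫ ω, a h ω * a h' ω ∂μ : ℝ) : ℂ)) =
      ∑ h : AM E m, ∑ h' : AM E m, ∫ y in Om ∩ SM E m ∩ SM E m,
        (y (io E (lf h) / 5 ^ (e * K) - io E (lf h') / 5 ^ (e * K)) : ℂ) ∂(σ i) :=
    Finset.sum_congr rfl fun h _ => Finset.sum_congr rfl fun h' _ =>
      corr_two hI hS hm hm hG hG _ _
  have t2 : (∑ h, ((∫ ω, a h ω * G1 ω ∂μ : ℝ) : ℂ)) =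
      ∑ h : AM E m, ∫ y in Om ∩ SM E m ∩ SM E 1,
        (y (io E (lf h) / 5 ^ (e * K)) : ℂ) ∂(σ i) := by
    refine Finset.sum_congr rfl fun h _ => ?_
    have h1 := corr_two hI hS hm one_pos hG hG1 (io E (lf h) / 5 ^ (e * K)) 0
    simp only [hsh, sub_zero] at h1
    exact h1
  have t3 : ((∫ ω, G1 ω * G1 ω ∂μ : ℝ) : ℂ) = ∫ y in Om ∩ SM E 1 ∩ SM E 1, (1 : ℂ) ∂(σ i) := by
    have h1 := corr_two hI hS one_pos one_pos hG1 hG1 0 0
    simp only [hsh, sub_zero] at h1
    rw [h1]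
    refine integral_congr_ae ?_
    filter_upwards [ae_restrict_of_ae (hS.nice i).chr] with y hy
    rw [hy.map_zero, Circle.coe_one]
  rw [t1, t2, t3, first_term (ae_restrict_of_ae (hS.nice i).chr), second_term]

end

end GMean

open GMean in
theorem mean_lim (hI : I ∈ E) {Om : Set (E → Circle)} {k : ℕ} {μ : Measure (E → Fin k)}
    {σ : Fin k → Measure (E → Circle)} (hS : Spec E Om k μ σ) {m : ℕ} (hm : 0 < m)
    [Fintype (AM E m)] (lf : AM E m → 𝓞 E) (hlf : ∀ h, cl E m (iR E (lf h)) = h) {e : ℕ}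
    (he : 0 < e) (he' : ∃ r ∈ RR E, (5 : E) ^ e - 1 = m * r) {i : Fin k}
    {G G1 : (E → Fin k) → ℝ} (hG : Lim E μ m i G) (hG1 : Lim E μ 1 i G1) :
    Tendsto (fun K : ℕ => ∫ ω, (mean (fun h : AM E m =>
        G (shift (io E (lf h) / 5 ^ (e * K)) ω)) - G1 ω) ^ 2 ∂μ) atTop (𝓝 0) := by
  haveI := hS.col.prob
  haveI : IsFiniteMeasure (σ i) := (hS.nice i).fin
  have hAA : MeasurableSet Om := (hS.nice i).meas
  have hSM : ∀ m, MeasurableSet (SM E m) := measurableSet_SM
  set χ : (E → Circle) → ℂ := (SM E 1).indicator fun _ => (1 : ℂ) with hχ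
  -- the pointwise limits
  have hpt : ∀ S : Set (E → Circle), MeasurableSet S → S ⊆ SM E m →
      ∀ᵐ y ∂((σ i).restrict S), Tendsto (fun K => mm lf e K y) atTop (𝓝 (χ y)) := by
    intro S hSm hS1
    filter_upwards [ae_restrict_of_ae (hS.nice i).chr, ae_restrict_mem hSm] with y hy hyS
    exact mm_tendsto hI hm lf hlf he he' hy (hS1 hyS)
  have m1 : MeasurableSet (Om ∩ SM E m ∩ SM E m) := (hAA.inter (hSM m)).inter (hSM m)
  have m2 : MeasurableSet (Om ∩ SM E m ∩ SM E 1) := (hAA.inter (hSM m)).inter (hSM 1)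
  have l1 : Tendsto (fun K => ∫ y in Om ∩ SM E m ∩ SM E m,
      mm lf e K y * (starRingEnd ℂ) (mm lf e K y) ∂(σ i))
      atTop (𝓝 (∫ y in Om ∩ SM E m ∩ SM E m, χ y * (starRingEnd ℂ) (χ y) ∂(σ i))) := by
    refine tendsto_integral_of_dominated_convergence (fun _ => (1 : ℝ)) ?_ (integrable_const _) ?_ ?_
    · intro K
      exact ((measurable_mm lf e K).mul
        (Complex.continuous_conj.measurable.comp (measurable_mm lf e K))).aestronglyMeasurable
    · intro K
      refine Eventually.of_forall fun y => ?_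
      rw [norm_mul, RCLike.norm_conj]
      exact mul_le_one₀ (norm_mm_le lf e K y) (norm_nonneg _) (norm_mm_le lf e K y)
    · filter_upwards [hpt _ m1 inter_subset_right] with y hy
      exact hy.mul ((Complex.continuous_conj.tendsto _).comp hy)
  have l2 : Tendsto (fun K => ∫ y in Om ∩ SM E m ∩ SM E 1, mm lf e K y ∂(σ i))
      atTop (𝓝 (∫ y in Om ∩ SM E m ∩ SM E 1, χ y ∂(σ i))) := by
    refine tendsto_integral_of_dominated_convergence (fun _ => (1 : ℝ)) ?_ (integrable_const _) ?_ ?_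
    · exact fun K => (measurable_mm lf e K).aestronglyMeasurable
    · exact fun K => Eventually.of_forall fun y => norm_mm_le lf e K y
    · exact hpt _ m2 fun y hy => hy.1.2
  -- the limits are equal
  have hsub : SM E 1 ⊆ SM E m := fun y hy => SM_mono (one_dvd m) hy
  have eB : Om ∩ SM E m ∩ SM E 1 = Om ∩ SM E 1 ∩ SM E 1 := by
    ext y
    constructor
    · exact fun h => ⟨⟨h.1.1, h.2⟩, h.2⟩
    · exact fun h => ⟨⟨h.1.1, hsub h.2⟩, h.2⟩
  have v1 : ∫ y in Om ∩ SM E m ∩ SM E m, χ y * (starRingEnd ℂ) (χ y) ∂(σ i) =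
      ∫ y in Om ∩ SM E 1 ∩ SM E 1, (1 : ℂ) ∂(σ i) := by
    have h1 : (fun y => χ y * (starRingEnd ℂ) (χ y)) = (SM E 1).indicator fun _ => (1 : ℂ) := by
      funext y
      by_cases hy : y ∈ SM E 1
      · simp [hχ, hy]
      · simp [hχ, hy]
    rw [h1, setIntegral_indicator (hSM 1)]
    have h2 : Om ∩ SM E m ∩ SM E m ∩ SM E 1 = Om ∩ SM E 1 ∩ SM E 1 := by
      rw [← eB]
      ext y
      constructor
      · exact fun h => ⟨h.1.1, h.2⟩
      · exact fun h => ⟨⟨h.1, h.1.2⟩, h.2⟩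
    rw [h2]
  have v2 : ∫ y in Om ∩ SM E m ∩ SM E 1, χ y ∂(σ i) =
      ∫ y in Om ∩ SM E 1 ∩ SM E 1, (1 : ℂ) ∂(σ i) := by
    rw [← eB]
    refine setIntegral_congr_fun m2 fun y hy => ?_
    exact indicator_of_mem hy.2 _
  rw [v1] at l1
  rw [v2] at l2
  have l3 := ((l1.sub (l2.const_mul 2)).add_const
    (∫ y in Om ∩ SM E 1 ∩ SM E 1, (1 : ℂ) ∂(σ i)))
  have l4 : Tendsto (fun K : ℕ => ((∫ ω, (mean (fun h : AM E m =>
      G (shift (io E (lf h) / 5 ^ (e * K)) ω)) - G1 ω) ^ 2 ∂μ : ℝ) : ℂ)) atTop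
      (𝓝 ((0 : ℝ) : ℂ)) := by
    have e : (∫ y in Om ∩ SM E 1 ∩ SM E 1, (1 : ℂ) ∂(σ i)) -
        2 * (∫ y in Om ∩ SM E 1 ∩ SM E 1, (1 : ℂ) ∂(σ i)) +
        (∫ y in Om ∩ SM E 1 ∩ SM E 1, (1 : ℂ) ∂(σ i)) = ((0 : ℝ) : ℂ) := by
      push_cast
      ring
    rw [e] at l3
    exact l3.congr fun K => (expand hI hS hm lf _ hG hG1 K).symm
  exact (Complex.continuous_re.tendsto _).comp l4

end

end Pool.Agent.MP_8b8716_co_QG
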